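import Pool.Agent.Singer.Hr.Op

/-!
# Singer/Hr: the Clifford module of a positive configuration

Relations of the operators `F.ev v`, freeness, dimensions of the common kernels.
-/

set_option autoImplicit false
set_option linter.unusedSectionVars false
set_option linter.unusedVariables false

namespace Singer
namespace Hr

open Singer.Re Pool.Agent.Helper34.Car

noncomputable section

variable {V : Type} [Fintype V] [DecidableEq V]

/-- rank and nullity on a submodule -/
lemma finrank_split {M : Type} [AddCommGroup M] [Module ℝ M] [FiniteDimensional ℝ M] (a : M →ₗ[ℝ] M)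
    (A B C : Submodule ℝ M) (hB : ∀ x, x ∈ B ↔ x ∈ A ∧ a x = 0) (hC : ∀ x, x ∈ C ↔ ∃ y ∈ A, a y = x) :
    Module.finrank ℝ A = Module.finrank ℝ C + Module.finrank ℝ B := by
  have h1 := LinearMap.finrank_range_add_finrank_ker (a.comp A.subtype)
  have h2 : LinearMap.range (a.comp A.subtype) = C := by
    ext x
    rw [LinearMap.mem_range, hC]
    constructor
    · rintro ⟨y, rfl⟩
      exact ⟨y, y.2, rfl⟩
    · rintro ⟨y, hy, rfl⟩
      exact ⟨⟨y, hy⟩, rfl⟩
  have h3 : (LinearMap.ker (a.comp A.subtype)).map A.subtype = B := by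
    ext x
    rw [Submodule.mem_map, hB]
    constructor
    · rintro ⟨y, hy, rfl⟩
      exact ⟨y.2, hy⟩
    · rintro ⟨hx, h⟩
      exact ⟨⟨x, hx⟩, h, rfl⟩
  have h4 := Submodule.finrank_map_subtype_eq A (LinearMap.ker (a.comp A.subtype))
  rw [h3] at h4
  rw [h2, ← h4] at h1
  exact h1.symm

lemma mem_kr {M : Type} [AddCommGroup M] [Module ℝ M] {a : V → M →ₗ[ℝ] M} {S : Finset V} {x : M} :
    x ∈ kr a S ↔ ∀ v ∈ S, a v x = 0 := by
  simp only [kr, Submodule.mem_iInf, LinearMap.mem_ker]

lemma mem_gr {n : ℕ} {T : Type} [AddCommGroup T] [Module ℝ T] {d : ℕ} {g : Finset (Fin n) → T} :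
    g ∈ gr n T d ↔ Dg d g := Iff.rfl

/-- dimension of the elements of degree `d` -/
lemma finrank_gr (n p d : ℕ) : Module.finrank ℝ (gr n (Tp p) d) = n.choose d * Module.finrank ℝ (Tp p) := by
  classical
  let e : gr n (Tp p) d ≃ₗ[ℝ] ({J : Finset (Fin n) // J.card = d} → Tp p) :=
    { toFun := fun g J => g.1 J.1
      map_add' := fun g h => rfl
      map_smul' := fun r g => rfl
      invFun := fun h => ⟨fun J => if hJ : J.card = d then h ⟨J, hJ⟩ else 0, fun J hJ => dif_neg hJ⟩
      left_inv := fun g => by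
        apply Subtype.ext
        funext J
        by_cases hJ : J.card = d
        · exact dif_pos hJ
        · exact (dif_neg hJ).trans (g.2 J hJ).symm
      right_inv := fun h => by
        funext J
        exact dif_pos J.2 }
  rw [e.finrank_eq, Module.finrank_pi_fintype, Finset.sum_const, smul_eq_mul, Finset.card_univ,
    Fintype.card_subtype]
  congr 1
  have h1 : (Finset.univ.filter fun J : Finset (Fin n) => J.card = d) = Finset.univ.powersetCard d := by
    ext J
    simp
  rw [h1, Finset.card_powersetCard, Finset.card_univ, Fintype.card_fin]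

namespace Fan
variable {G : SimpleGraph V} {n p : ℕ} (F : Fan G n p)

theorem ev_apply (v : V) (x : Sm n p) :
    F.ev v x = par (pt (gam (M := ℝ) (F.f v)) x) + (cp (F.c v) x - cm (F.c v) x) := rfl

theorem ev_ev (u v : V) (x : Sm n p) : F.ev u (F.ev v x) + F.ev v (F.ev u x) =
    (2 * (∑ j, F.f u j * F.f v j - ∑ j, F.c u j * F.c v j)) • x := by
  have hP : par (pt (gam (M := ℝ) (F.f u)) (par (pt (gam (M := ℝ) (F.f v)) x))) +
      par (pt (gam (M := ℝ) (F.f v)) (par (pt (gam (M := ℝ) (F.f u)) x))) =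
      (2 * ∑ j, F.f u j * F.f v j) • x := by
    rw [pt_par, par_par, pt_par, par_par]
    funext J
    exact gam_gam (F.f u) (F.f v) (x J)
  have h1 : ∀ (T : Tp p →ₗ[ℝ] Tp p) (d : Fin n → ℝ) (y : Sm n p), par (pt T (cp d y)) = -cp d (par (pt T y)) :=
    fun T d y => by rw [pt_cp, par_cp]
  have h2 : ∀ (T : Tp p →ₗ[ℝ] Tp p) (d : Fin n → ℝ) (y : Sm n p), par (pt T (cm d y)) = -cm d (par (pt T y)) :=
    fun T d y => by rw [pt_cm, par_cm]
  have h3 := cp_cp (F.c u) (F.c v) x
  have h4 := cm_cm (F.c u) (F.c v) x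
  have h5 := cp_cm (F.c u) (F.c v) x
  have h6 := cp_cm (F.c v) (F.c u) x
  have e : ∑ j, F.c v j * F.c u j = ∑ j, F.c u j * F.c v j := Finset.sum_congr rfl fun j _ => mul_comm _ _
  rw [e] at h6
  simp only [ev_apply, map_add, map_sub, h1, h2]
  rw [mul_sub, sub_smul, ← hP, two_mul (∑ j, F.c u j * F.c v j), add_smul]
  nth_rewrite 1 [← h5]
  rw [← h6]
  calc _ = (par (pt (gam (M := ℝ) (F.f u)) (par (pt (gam (M := ℝ) (F.f v)) x))) +
      par (pt (gam (M := ℝ) (F.f v)) (par (pt (gam (M := ℝ) (F.f u)) x)))) +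
      (cp (F.c u) (cp (F.c v) x) + cp (F.c v) (cp (F.c u) x)) + (cm (F.c u) (cm (F.c v) x) +
      cm (F.c v) (cm (F.c u) x)) - (cp (F.c u) (cm (F.c v) x) + cm (F.c v) (cp (F.c u) x)) -
      (cp (F.c v) (cm (F.c u) x) + cm (F.c u) (cp (F.c v) x)) := by abel
    _ = _ := by rw [h3, h4]; abel

theorem ev_sq (v : V) (x : Sm n p) : F.ev v (F.ev v x) = 0 := by
  have h := F.ev_ev v v x
  rw [F.iso v v (Or.inl rfl), sub_self, mul_zero, zero_smul, ← two_smul ℝ] at h
  exact (smul_eq_zero.1 h).resolve_left two_ne_zero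

theorem ev_anti {u v : V} (h : G.Adj u v) (x : Sm n p) : F.ev u (F.ev v x) = -F.ev v (F.ev u x) := by
  have h1 := F.ev_ev u v x
  rw [F.iso u v (Or.inr h), sub_self, mul_zero, zero_smul] at h1
  exact eq_neg_of_add_eq_zero_left h1

theorem cm_ev (l : Fin n → ℝ) (v : V) (x : Sm n p) :
    cm l (F.ev v x) + F.ev v (cm l x) = (∑ j, l j * F.c v j) • x := by
  have h1 : par (pt (gam (M := ℝ) (F.f v)) (cm l x)) = -cm l (par (pt (gam (M := ℝ) (F.f v)) x)) := by
    rw [pt_cm, par_cm]
  have h2 := cm_cm l (F.c v) x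
  have h3 := cp_cm (F.c v) l x
  have e : ∑ j, l j * F.c v j = ∑ j, F.c v j * l j := Finset.sum_congr rfl fun j _ => mul_comm _ _
  simp only [ev_apply, map_add, map_sub, h1]
  rw [e, ← h3]
  calc _ = (cp (F.c v) (cm l x) + cm l (cp (F.c v) x)) - (cm l (cm (F.c v) x) + cm (F.c v) (cm l x)) := by abel
    _ = _ := by rw [h2, sub_zero]

theorem Dg_vac {T : Type} [AddCommGroup T] [Module ℝ T] (t : T) : Dg 0 (vac (n := n) t) := by
  intro J hJ
  have h : J ≠ ∅ := fun h => hJ (by rw [h, Finset.card_empty])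
  exact if_neg h

theorem ev_vac (v : V) (t : Tp p) : F.ev v (vac t) = vac (gam (M := ℝ) (F.f v) t) + cp (F.c v) (vac t) := by
  rw [ev_apply, Dg_cm_zero (Dg_vac t), sub_zero]
  congr 1
  funext J
  rw [par_apply, pt_apply]
  by_cases h : J = ∅
  · subst h
    show (-1 : ℝ) ^ (∅ : Finset (Fin n)).card • (gam (F.f v)) (if (∅ : Finset (Fin n)) = ∅ then t else 0) =
      if (∅ : Finset (Fin n)) = ∅ then (gam (F.f v)) t else 0
    rw [if_pos rfl, if_pos rfl, Finset.card_empty, pow_zero, one_smul]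
  · show (-1 : ℝ) ^ J.card • (gam (F.f v)) (if J = ∅ then t else 0) = if J = ∅ then (gam (F.f v)) t else 0
    rw [if_neg h, if_neg h, map_zero, smul_zero]

theorem mem_KE {S : Finset V} {x : Sm n p} : x ∈ F.KE S ↔ ∀ v ∈ S, F.ev v x = 0 := mem_kr

theorem KE_anti {S T : Finset V} (h : S ⊆ T) : F.KE T ≤ F.KE S :=
  fun _ hx => F.mem_KE.2 fun v hv => F.mem_KE.1 hx v (h hv)

theorem mem_KE_insert {S : Finset V} {v : V} (hS : G.IsClique ((insert v S : Finset V) : Set V)) {y : Sm n p}
    (hy : y ∈ F.KE S) : F.ev v y ∈ F.KE (insert v S) := by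
  refine F.mem_KE.2 fun w hw => ?_
  by_cases h : w = v
  · rw [h, F.ev_sq]
  · have h1 : w ∈ S := (Finset.mem_insert.1 hw).resolve_left h
    have h2 : G.Adj w v := hS (Finset.mem_coe.2 hw) (Finset.mem_coe.2 (Finset.mem_insert_self v S)) h
    rw [F.ev_anti h2, F.mem_KE.1 hy w h1, map_zero, neg_zero]

/-- freeness -/
theorem free_KE {S : Finset V} {v : V} (hv : v ∉ S) (hS : G.IsClique ((insert v S : Finset V) : Set V)) {x : Sm n p}
    (hx : x ∈ F.KE (insert v S)) : ∃ y ∈ F.KE S, F.ev v y = x := by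
  obtain ⟨l, hl1, hl2⟩ := F.dual (insert v S) hS v (Finset.mem_insert_self v S)
  have h0 := F.mem_KE.1 hx
  refine ⟨cm l x, F.mem_KE.2 fun w hw => ?_, ?_⟩
  · have h1 := F.cm_ev l w x
    rw [h0 w (Finset.mem_insert_of_mem hw), map_zero, zero_add,
      hl2 w (Finset.mem_insert_of_mem hw) (fun h => hv (h ▸ hw)), zero_smul] at h1
    exact h1
  · have h1 := F.cm_ev l v x
    rw [h0 v (Finset.mem_insert_self v S), map_zero, zero_add, hl1, one_smul] at h1
    exact h1

theorem finrank_KE {S : Finset V} (hS : G.IsClique (S : Set V)) :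
    Module.finrank ℝ (F.KE S) * 2 ^ S.card = Module.finrank ℝ (Sm n p) := by
  induction S using Finset.induction_on with
  | empty =>
    have h1 : F.KE ∅ = ⊤ := by
      refine eq_top_iff.2 fun x _ => F.mem_KE.2 fun v hv => absurd hv (Finset.notMem_empty v)
    rw [h1, finrank_top, Finset.card_empty, pow_zero, mul_one]
  | insert v S hv ih =>
    have hS' : G.IsClique (S : Set V) := hS.subset (Finset.coe_subset.2 (Finset.subset_insert v S))
    have h1 := finrank_split (F.ev v) (F.KE S) (F.KE (insert v S)) (F.KE (insert v S)) (fun x => by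
        rw [F.mem_KE, F.mem_KE]
        constructor
        · exact fun h => ⟨fun w hw => h w (Finset.mem_insert_of_mem hw), h v (Finset.mem_insert_self v S)⟩
        · rintro ⟨h, h'⟩ w hw
          rcases Finset.mem_insert.1 hw with rfl | hw
          · exact h'
          · exact h w hw) (fun x => ⟨fun hx => F.free_KE hv hS hx, fun ⟨y, hy, h⟩ => h ▸ F.mem_KE_insert hS hy⟩)
    rw [← ih hS', h1, Finset.card_insert_of_notMem hv, pow_succ]
    ring

include F in
/-- cliques are linearly independent, so they have at most `n` vertices -/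
theorem card_le {S : Finset V} (hS : G.IsClique (S : Set V)) : S.card ≤ n := by
  have hli : LinearIndependent ℝ (fun v : S => F.c v) := by
    rw [Fintype.linearIndependent_iff]
    intro g hg i
    obtain ⟨l, hl1, hl2⟩ := F.dual S hS i.1 i.2
    have h1 : ∑ j, l j * (∑ v : S, g v • F.c v) j = 0 := by
      rw [hg]
      simp
    simp only [Finset.sum_apply, Pi.smul_apply, smul_eq_mul, Finset.mul_sum] at h1
    rw [Finset.sum_comm] at h1
    have h2 : ∀ v : S, ∑ j, l j * (g v * F.c v j) = g v * (if v = i then 1 else 0) := by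
      intro v
      have h3 : ∑ j, l j * (g v * F.c v j) = g v * ∑ j, l j * F.c v j := by
        rw [Finset.mul_sum]
        exact Finset.sum_congr rfl fun j _ => by ring
      rw [h3]
      congr 1
      by_cases h : v = i
      · rw [if_pos h, h, hl1]
      · rw [if_neg h, hl2 v v.2 fun h' => h (Subtype.ext h')]
    simp only [h2] at h1
    simpa using h1
  have h2 := hli.fintype_card_le_finrank
  rwa [Fintype.card_coe, Module.finrank_fin_fun] at h2

section KL
variable (T : Type) [AddCommGroup T] [Module ℝ T]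

theorem mem_KL {d : ℕ} {S : Finset V} {x : Finset (Fin n) → T} :
    x ∈ F.KL T d S ↔ Dg d x ∧ ∀ v ∈ S, cp (F.c v) x = 0 := by
  rw [KL, Submodule.mem_inf, mem_gr, mem_kr]
  rfl

theorem KL_anti (d : ℕ) {S R : Finset V} (h : S ⊆ R) : F.KL T d R ≤ F.KL T d S := fun x hx => by
  rw [mem_KL] at hx ⊢
  exact ⟨hx.1, fun v hv => hx.2 v (h hv)⟩

theorem mem_KL_insert {d : ℕ} {S : Finset V} {v : V} {y : Finset (Fin n) → T} (hy : y ∈ F.KL T d S) :
    cp (F.c v) y ∈ F.KL T (d + 1) (insert v S) := by
  rw [mem_KL] at hy ⊢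
  refine ⟨Dg_cp hy.1 _, fun w hw => ?_⟩
  rcases Finset.mem_insert.1 hw with rfl | hw
  · exact cp_self _ _
  · have h := cp_cp (F.c w) (F.c v) y
    rwa [hy.2 w hw, map_zero, add_zero] at h

theorem cm_KL {d : ℕ} {S : Finset V} {l : Fin n → ℝ} (hl : ∀ w ∈ S, ∑ j, l j * F.c w j = 0)
    {x : Finset (Fin n) → T} (hx : x ∈ F.KL T (d + 1) S) : cm l x ∈ F.KL T d S := by
  rw [mem_KL] at hx ⊢
  refine ⟨Dg_cm hx.1 l, fun w hw => ?_⟩
  have h := cp_cm (F.c w) l x
  have e : ∑ j, F.c w j * l j = ∑ j, l j * F.c w j := Finset.sum_congr rfl fun j _ => mul_comm _ _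
  rwa [hx.2 w hw, map_zero, add_zero, e, hl w hw, zero_smul] at h

theorem free_KL {d : ℕ} {S : Finset V} {v : V} (hv : v ∉ S) (hS : G.IsClique ((insert v S : Finset V) : Set V))
    {x : Finset (Fin n) → T} (hx : x ∈ F.KL T (d + 1) (insert v S)) : ∃ y ∈ F.KL T d S, cp (F.c v) y = x := by
  obtain ⟨l, hl1, hl2⟩ := F.dual (insert v S) hS v (Finset.mem_insert_self v S)
  refine ⟨cm l x, F.cm_KL T (fun w hw => hl2 w (Finset.mem_insert_of_mem hw) (fun h => hv (h ▸ hw)))
    (F.KL_anti T _ (Finset.subset_insert v S) hx), ?_⟩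
  have h := cp_cm (F.c v) l x
  have e : ∑ j, F.c v j * l j = ∑ j, l j * F.c v j := Finset.sum_congr rfl fun j _ => mul_comm _ _
  rw [((F.mem_KL T).1 hx).2 v (Finset.mem_insert_self v S), map_zero, add_zero, e, hl1, one_smul] at h
  exact h

theorem KL_low {d : ℕ} {S : Finset V} (hS : G.IsClique (S : Set V)) (hd : d < S.card) : F.KL T d S = ⊥ := by
  induction S using Finset.induction_on generalizing d with
  | empty => exact absurd hd (Nat.not_lt_zero d)
  | insert v S hv ih =>
    refine eq_bot_iff.2 fun x hx => ?_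
    rw [Submodule.mem_bot]
    cases d with
    | zero =>
      obtain ⟨l, hl1, -⟩ := F.dual (insert v S) hS v (Finset.mem_insert_self v S)
      have h0 := (F.mem_KL T).1 hx
      have h := cp_cm (F.c v) l x
      have e : ∑ j, F.c v j * l j = ∑ j, l j * F.c v j := Finset.sum_congr rfl fun j _ => mul_comm _ _
      rw [h0.2 v (Finset.mem_insert_self v S), map_zero, add_zero, e, hl1, one_smul, Dg_cm_zero h0.1, map_zero] at h
      exact h.symm
    | succ d =>
      obtain ⟨y, hy, rfl⟩ := F.free_KL T hv hS hx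
      rw [Finset.card_insert_of_notMem hv] at hd
      rw [ih (hS.subset (Finset.coe_subset.2 (Finset.subset_insert v S))) (by omega), Submodule.mem_bot] at hy
      rw [hy, map_zero]

theorem KL_high {d : ℕ} (S : Finset V) (hd : n < d) : F.KL T d S = ⊥ := by
  refine eq_bot_iff.2 fun x hx => ?_
  rw [Submodule.mem_bot]
  funext J
  refine ((F.mem_KL T).1 hx).1 J fun h => ?_
  have h1 : J.card ≤ n := by
    have := Finset.card_le_univ J
    rwa [Fintype.card_fin] at this
  omega

theorem finrank_KL_succ {d : ℕ} {S : Finset V} {v : V} (hv : v ∉ S)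
    (hS : G.IsClique ((insert v S : Finset V) : Set V)) :
    Module.finrank ℝ (F.KL (Tp p) d S) =
      Module.finrank ℝ (F.KL (Tp p) (d + 1) (insert v S)) + Module.finrank ℝ (F.KL (Tp p) d (insert v S)) :=
  finrank_split (cp (F.c v)) (F.KL (Tp p) d S) (F.KL (Tp p) d (insert v S)) (F.KL (Tp p) (d + 1) (insert v S))
    (fun x => by
        rw [F.mem_KL, F.mem_KL]
        constructor
        · exact fun h => ⟨⟨h.1, fun w hw => h.2 w (Finset.mem_insert_of_mem hw)⟩, h.2 v (Finset.mem_insert_self v S)⟩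
        · rintro ⟨⟨h0, h⟩, h'⟩
          refine ⟨h0, fun w hw => ?_⟩
          rcases Finset.mem_insert.1 hw with rfl | hw
          · exact h'
          · exact h w hw) (fun x => ⟨fun hx => F.free_KL (Tp p) hv hS hx,
            fun ⟨y, hy, h⟩ => h ▸ F.mem_KL_insert (Tp p) hy⟩)

theorem finrank_KL {d : ℕ} {S : Finset V} (hS : G.IsClique (S : Set V)) (hd : S.card ≤ d) :
    Module.finrank ℝ (F.KL (Tp p) d S) = (n - S.card).choose (d - S.card) * Module.finrank ℝ (Tp p) := by
  induction S using Finset.induction_on generalizing d with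
  | empty =>
    have h1 : F.KL (Tp p) d ∅ = gr n (Tp p) d := by
      ext x
      rw [F.mem_KL, mem_gr]
      exact ⟨fun h => h.1, fun h => ⟨h, fun v hv => absurd hv (Finset.notMem_empty v)⟩⟩
    rw [h1, finrank_gr, Finset.card_empty, Nat.sub_zero, Nat.sub_zero]
  | insert v S hv ih =>
    have hS' : G.IsClique (S : Set V) := hS.subset (Finset.coe_subset.2 (Finset.subset_insert v S))
    have hn := F.card_le hS
    rw [Finset.card_insert_of_notMem hv] at hn hd ⊢
    obtain ⟨e, rfl⟩ : ∃ e, d = S.card + 1 + e := ⟨d - (S.card + 1), by omega⟩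
    obtain ⟨m, hm⟩ : ∃ m, n = S.card + 1 + m := ⟨n - (S.card + 1), by omega⟩
    induction e with
    | zero =>
      have h1 := F.finrank_KL_succ (d := S.card) hv hS
      rw [ih hS' le_rfl, F.KL_low (Tp p) (d := S.card) hS (by rw [Finset.card_insert_of_notMem hv]; omega), finrank_bot, add_zero,
        Nat.sub_self, Nat.choose_zero_right] at h1
      rw [Nat.add_zero, Nat.sub_self, Nat.choose_zero_right]
      exact h1.symm
    | succ e ihe =>
      have h1 := F.finrank_KL_succ (d := S.card + 1 + e) hv hS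
      have h2 := ihe (by omega)
      rw [ih hS' (by omega), h2] at h1
      have e1 : n - S.card = m + 1 := by omega
      have e2 : S.card + 1 + e - S.card = e + 1 := by omega
      have e3 : n - (S.card + 1) = m := by omega
      have e4 : S.card + 1 + e - (S.card + 1) = e := by omega
      have e5 : S.card + 1 + (e + 1) - (S.card + 1) = e + 1 := by omega
      rw [e1, e2, e3, e4, Nat.choose_succ_succ', add_mul] at h1
      rw [e3, e5]
      have e6 : S.card + 1 + (e + 1) = S.card + 1 + e + 1 := by omega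
      rw [e6]
      omega

end KL

end Fan

end

end Hr
end Singer
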