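import Pool.Agent.Singer.Hr.Op
import Pool.Agent.Singer.Hr.Clif

/-!
# Singer/Hr: the identities between facet functions and chains

* `bd_chE`, `bd_chL`: the boundary of the chain of the vectors `e_r e_S al_(r ∪ S)(g)` and of its leading part;
* `bd_chE_of_not`, `bd_chL_of_not`: supports; `loc_chE`: local parts;
* `DD_GG`, `DD_DD`, `BB_DD`: the operator `DD` lowers the filtration by one, its square is `|x|^2`, it is symmetric.
-/

set_option autoImplicit false
set_option linter.unusedSectionVars false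
set_option linter.unusedVariables false

namespace Singer
namespace Hr

open Singer.Re Pool.Agent.Helper34.Car

noncomputable section

variable {V : Type} [Fintype V] [DecidableEq V]

/-! ### Signs -/

theorem sg_comb {v : V} {S : Finset V} (hv : v ∉ S) :
    ((sgz rk v S : ℤ) : ℝ) * (-1 : ℝ) ^ (S.filter fun w => rk v < rk w).card = (-1 : ℝ) ^ S.card := by
  unfold sgz
  push_cast
  rw [← pow_add]
  congr 1
  have h : (S.filter fun t => ¬ rk t < rk v) = S.filter fun w => rk v < rk w := by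
    apply Finset.filter_congr
    intro w hw
    have hne : rk w ≠ rk v := fun h => hv (rk_inj h ▸ hw)
    omega
  rw [← h]
  exact Finset.card_filter_add_card_filter_not _

theorem zs_smul {M : Type} [AddCommGroup M] [Module ℝ M] (v : V) (S : Finset V) (x : M) :
    sgz rk v S • x = ((sgz rk v S : ℤ) : ℝ) • x := (Int.cast_smul_eq_zsmul ℝ _ _).symm

/-! ### Products of operators -/

section gen
variable {M : Type} [AddCommGroup M] [Module ℝ M] (a : V → M →ₗ[ℝ] M)

theorem sgz_opP_insert {r S : Finset V} {v : V} (hv : v ∉ S)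
    (hc : ∀ w ∈ S, ∀ x, a v (a w x) = -a w (a v x)) (x : M) :
    sgz rk v S • opP a r (opP a (insert v S) x) = (-1 : ℝ) ^ S.card • opP a r (opP a S (a v x)) := by
  rw [zs_smul, opP_insert a hv hc, map_smul, smul_smul, sg_comb hv]

theorem bd_gen (r S : Finset V) (P : V → Prop) [DecidablePred P] (hP : ∀ v, P v → v ∉ S) (b : V → M)
    (hc : ∀ v, P v → ∀ w ∈ S, ∀ x, a v (a w x) = -a w (a v x)) :
    ∑ v ∈ Sᶜ, sgz rk v S • (if P v then opP a r (opP a (insert v S) (b v)) else 0) =
      (-1 : ℝ) ^ S.card • opP a r (opP a S (∑ v, if P v then a v (b v) else 0)) := by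
  have h1 : ∑ v ∈ Sᶜ, sgz rk v S • (if P v then opP a r (opP a (insert v S) (b v)) else 0) =
      ∑ v, sgz rk v S • (if P v then opP a r (opP a (insert v S) (b v)) else 0) := by
    refine Finset.sum_subset (Finset.subset_univ _) fun v _ hv => ?_
    rw [Finset.mem_compl, not_not] at hv
    rw [if_neg fun h => hP v h hv, smul_zero]
  rw [h1, map_sum, map_sum, Finset.smul_sum]
  refine Finset.sum_congr rfl fun v _ => ?_
  split_ifs with h
  · exact sgz_opP_insert a (hP v h) (hc v h) _
  · rw [smul_zero, map_zero, map_zero, smul_zero]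

/-- the operators of `r ∪ S` are killed by the products -/
theorem opP_kill {r S : Finset V} (hrS : Disjoint S r) (h2 : ∀ v ∈ r ∪ S, ∀ x, a v (a v x) = 0)
    (hc : ∀ v ∈ r ∪ S, ∀ w ∈ r ∪ S, v ≠ w → ∀ x, a v (a w x) = -a w (a v x)) {w : V} (hw : w ∈ r ∪ S) (x : M) :
    opP a r (opP a S (a w x)) = 0 := by
  have hr : r ⊆ r ∪ S := Finset.subset_union_left
  have hS : S ⊆ r ∪ S := Finset.subset_union_right
  by_cases hwS : w ∈ S
  · rw [opP_zero a (fun v hv => h2 v (hS hv)) (fun v hv u hu => hc v (hS hv) u (hS hu)) hwS, map_zero]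
  · have hwr : w ∈ r := (Finset.mem_union.1 hw).resolve_right hwS
    have h3 := opP_comm a (a w) S (fun u hu y => hc w hw u (hS hu) (fun h => hwS (h ▸ hu)) y) x
    have h4 : opP a S (a w x) = (-1 : ℝ) ^ S.card • a w (opP a S x) := by
      rw [h3, smul_smul, ← mul_pow]
      norm_num
    rw [h4, map_smul, opP_zero a (fun v hv => h2 v (hr hv)) (fun v hv u hu => hc v (hr hv) u (hr hu)) hwr, smul_zero]

end gen

/-! ### Linearity in the vector -/

theorem cp_lin {M : Type} [AddCommGroup M] [Module ℝ M] {n : ℕ} (s : Finset V) (b : V → ℝ) (c : V → Fin n → ℝ)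
    (g : Finset (Fin n) → M) :
    cp (fun j => ∑ v ∈ s, b v * c v j) g = ∑ v ∈ s, b v • cp (c v) g := by
  simp only [cp_apply, Finset.sum_smul, Finset.smul_sum, mul_smul]
  rw [Finset.sum_comm]

theorem cm_lin {M : Type} [AddCommGroup M] [Module ℝ M] {n : ℕ} (s : Finset V) (b : V → ℝ) (c : V → Fin n → ℝ)
    (g : Finset (Fin n) → M) :
    cm (fun j => ∑ v ∈ s, b v * c v j) g = ∑ v ∈ s, b v • cm (c v) g := by
  simp only [cm_apply, Finset.sum_smul, Finset.smul_sum, mul_smul]
  rw [Finset.sum_comm]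

theorem gam_lin {M : Type} [AddCommGroup M] [Module ℝ M] {n : ℕ} (s : Finset V) (b : V → ℝ) (c : V → Fin n → ℝ)
    (g : Finset (Fin n) → M) :
    gam (fun j => ∑ v ∈ s, b v * c v j) g = ∑ v ∈ s, b v • gam (c v) g := by
  simp only [gam, LinearMap.add_apply, smul_add, Finset.sum_add_distrib, cp_lin, cm_lin]

/-! ### Faces of links -/

theorem fl_insert_iff {G : SimpleGraph V} {r S : Finset V} {v : V} (hv : v ∉ r) (hS : v ∉ S) :
    Fl G r (insert v S) ↔ Fl G (insert v r) S := by
  have h : r ∪ insert v S = insert v r ∪ S := by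
    rw [Finset.union_insert, Finset.insert_union]
  unfold Fl
  rw [h, Finset.disjoint_insert_left, Finset.disjoint_insert_right]
  constructor
  · rintro ⟨⟨_, h1⟩, h2⟩
    exact ⟨⟨hS, h1⟩, h2⟩
  · rintro ⟨⟨_, h1⟩, h2⟩
    exact ⟨⟨hv, h1⟩, h2⟩

theorem fl_mono {G : SimpleGraph V} {r S T : Finset V} (h : S ⊆ T) (hT : Fl G r T) : Fl G r S :=
  ⟨hT.1.mono_left h, hT.2.subset (Finset.coe_subset.2 (Finset.union_subset_union_right h))⟩

namespace Fan
variable {G : SimpleGraph V} {n p : ℕ} (F : Fan G n p)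

open Classical in
/-- the facets which contain `θ` -/
def fs (G : SimpleGraph V) (n : ℕ) (θ : Finset V) : Finset (Finset V) :=
  Finset.univ.filter fun R => Fac G n R ∧ θ ⊆ R

theorem mem_fs {θ R : Finset V} : R ∈ fs G n θ ↔ Fac G n R ∧ θ ⊆ R := by
  classical
  unfold fs
  simp

/-- the weighted sum with an additional coordinate -/
def bt (g : Finset V → Tp p) (θ : Finset V) (v : V) : Tp p :=
  ∑ R ∈ fs G n θ, (F.om R * (∏ u ∈ θ, F.X u R) * F.X v R) • g R

theorem al_eq (g : Finset V → Tp p) (θ : Finset V) :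
    F.al g θ = ∑ R ∈ fs G n θ, (F.om R * ∏ v ∈ θ, F.X v R) • g R := rfl

theorem al_insert (g : Finset V → Tp p) {θ : Finset V} {v : V} (hv : v ∉ θ) :
    F.al g (insert v θ) = F.bt g θ v := by
  rw [al_eq]
  unfold bt
  have hsub : fs G n (insert v θ) ⊆ fs G n θ := by
    intro R hR
    rw [mem_fs] at hR ⊢
    exact ⟨hR.1, (Finset.subset_insert _ _).trans hR.2⟩
  rw [← Finset.sum_subset hsub]
  · refine Finset.sum_congr rfl fun R _ => ?_
    rw [Finset.prod_insert hv]
    congr 1
    ring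
  · intro R hR hR'
    rw [mem_fs] at hR hR'
    have : v ∉ R := fun h => hR' ⟨hR.1, Finset.insert_subset h hR.2⟩
    rw [F.X0 v R this, mul_zero, zero_smul]

theorem al_of_not_clique (g : Finset V → Tp p) {θ : Finset V} (h : ¬ G.IsClique (θ : Set V)) : F.al g θ = 0 := by
  rw [al_eq]
  refine Finset.sum_eq_zero fun R hR => ?_
  rw [mem_fs] at hR
  exact absurd (hR.1.1.subset (Finset.coe_subset.2 hR.2)) h

/-- the main identity, for a family of linear maps -/
theorem main_id {M : Type} [AddCommGroup M] [Module ℝ M] (Φ : V → Tp p →ₗ[ℝ] M) (Ψ : M → M) (g : Finset V → Tp p)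
    (θ : Finset V) :
    ∑ v, Φ v (F.bt g θ v) = ∑ R ∈ fs G n θ, (F.om R * ∏ u ∈ θ, F.X u R) • ∑ v ∈ R, F.X v R • Φ v (g R) := by
  unfold bt
  simp only [map_sum, map_smul]
  rw [Finset.sum_comm]
  refine Finset.sum_congr rfl fun R _ => ?_
  rw [Finset.smul_sum]
  rw [← Finset.sum_subset (Finset.subset_univ R)]
  · refine Finset.sum_congr rfl fun v _ => ?_
    rw [smul_smul]
  · intro v _ hv
    rw [F.X0 v R hv, mul_zero, zero_smul]

/-- the operators of a vertex on vacuum vectors -/
def Ev (v : V) : Tp p →ₗ[ℝ] Sm n p := F.ev v ∘ₗ vac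

def Lv (v : V) : Tp p →ₗ[ℝ] Sm n p := F.lv (Tp p) v ∘ₗ vac

theorem sum_Ev {R : Finset V} (hR : Fac G n R) (g : Finset V → Tp p) :
    ∑ v ∈ R, F.X v R • F.Ev v (g R) = vac (F.DD g R) + cp F.x (vac (g R)) := by
  have h1 : ∀ v ∈ R, F.X v R • F.Ev v (g R) = F.X v R • vac (gam (M := ℝ) (F.f v) (g R)) +
      F.X v R • cp (F.c v) (vac (g R)) := by
    intro v _
    unfold Ev
    rw [LinearMap.comp_apply, ev_vac, smul_add]
  rw [Finset.sum_congr rfl h1, Finset.sum_add_distrib]
  congr 1
  · have h2 : F.DD g R = gam (M := ℝ) (fun j => ∑ v ∈ R, F.X v R * F.f v j) (g R) := rfl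
    rw [h2, gam_lin, map_sum]
    refine Finset.sum_congr rfl fun v _ => ?_
    rw [map_smul]
  · rw [← cp_lin]
    congr 2
    funext j
    exact F.Xc R hR j

theorem sum_Lv {R : Finset V} (hR : Fac G n R) (g : Finset V → Tp p) :
    ∑ v ∈ R, F.X v R • F.Lv v (g R) = cp F.x (vac (g R)) := by
  have h1 : ∀ v ∈ R, F.X v R • F.Lv v (g R) = F.X v R • cp (F.c v) (vac (g R)) := by
    intro v _
    rfl
  rw [Finset.sum_congr rfl h1, ← cp_lin]
  congr 2
  funext j
  exact F.Xc R hR j

theorem id_E (g : Finset V → Tp p) (θ : Finset V) :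
    ∑ v, F.ev v (vac (F.bt g θ v)) = vac (F.al (F.DD g) θ) + cp F.x (vac (F.al g θ)) := by
  have h := F.main_id F.Ev id g θ
  have h1 : ∑ v, F.ev v (vac (F.bt g θ v)) = ∑ v, F.Ev v (F.bt g θ v) := rfl
  rw [h1, h, al_eq, al_eq]
  simp only [map_sum, map_smul]
  rw [← Finset.sum_add_distrib]
  refine Finset.sum_congr rfl fun R hR => ?_
  rw [F.sum_Ev (mem_fs.1 hR).1, smul_add]

theorem id_L (g : Finset V → Tp p) (θ : Finset V) :
    ∑ v, F.lv (Tp p) v (vac (F.bt g θ v)) = cp F.x (vac (F.al g θ)) := by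
  have h := F.main_id F.Lv id g θ
  have h1 : ∑ v, F.lv (Tp p) v (vac (F.bt g θ v)) = ∑ v, F.Lv v (F.bt g θ v) := rfl
  rw [h1, h, al_eq]
  simp only [map_sum, map_smul]
  refine Finset.sum_congr rfl fun R hR => ?_
  rw [F.sum_Lv (mem_fs.1 hR).1]

theorem lv_anti (u v : V) (x : Sm n p) : F.lv (Tp p) u (F.lv (Tp p) v x) = -F.lv (Tp p) v (F.lv (Tp p) u x) :=
  eq_neg_of_add_eq_zero_left (cp_cp _ _ _)

theorem lv_sq (v : V) (x : Sm n p) : F.lv (Tp p) v (F.lv (Tp p) v x) = 0 := cp_self _ _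

open Classical in
/-- from the sum over the vertices of the link to the sum over all vertices -/
theorem bd_of_id {a : V → Sm n p →ₗ[ℝ] Sm n p} {r S : Finset V} (hS : Fl G r S) (g : Finset V → Tp p)
    (h2 : ∀ v x, a v (a v x) = 0) (hc : ∀ u v, G.Adj u v → ∀ x, a u (a v x) = -a v (a u x)) (m : Sm n p)
    (hid : ∑ v, a v (vac (F.bt g (r ∪ S) v)) = m) :
    ∑ v ∈ Sᶜ, sgz rk v S • (if Fl G r (insert v S) ∧ (insert v S).card = S.card + 1 then
      opP a r (opP a (insert v S) (vac (F.al g (r ∪ insert v S)))) else 0) =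
      (-1 : ℝ) ^ S.card • opP a r (opP a S m) := by
  have hcl : G.IsClique ((r ∪ S : Finset V) : Set V) := hS.2
  have hadj : ∀ v, Fl G r (insert v S) ∧ (insert v S).card = S.card + 1 → v ∉ S ∧ ∀ w ∈ S, G.Adj v w := by
    intro v hv
    have h1 : v ∉ S := by
      intro h
      rw [Finset.insert_eq_of_mem h] at hv
      omega
    refine ⟨h1, fun w hw => ?_⟩
    refine hv.1.2 ?_ ?_ fun h => h1 (h ▸ hw)
    · simp
    · simp [hw]
  rw [bd_gen a r S (fun v => Fl G r (insert v S) ∧ (insert v S).card = S.card + 1) (fun v hv => (hadj v hv).1)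
    (fun v => vac (F.al g (r ∪ insert v S))) (fun v hv w hw x => hc v w ((hadj v hv).2 w hw) x)]
  congr 1
  rw [← hid, map_sum, map_sum, map_sum, map_sum]
  refine Finset.sum_congr rfl fun v _ => ?_
  by_cases hv : v ∈ r ∪ S
  · rw [opP_kill a hS.1 (fun v _ x => h2 v x) (fun u hu w hw huw x => hc u w (hcl hu hw huw) x) hv]
    rw [if_neg]
    · rw [map_zero, map_zero]
    · rintro ⟨h3, h4⟩
      rcases Finset.mem_union.1 hv with h5 | h5
      · exact (Finset.disjoint_left.1 h3.1 (Finset.mem_insert_self v S)) h5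
      · rw [Finset.insert_eq_of_mem h5] at h4
        omega
  · rw [Finset.mem_union, not_or] at hv
    have h5 : r ∪ insert v S = insert v (r ∪ S) := Finset.union_insert _ _ _
    rw [h5, F.al_insert g (by rw [Finset.mem_union, not_or]; exact hv)]
    split_ifs with h6
    · rfl
    · have h7 : F.bt g (r ∪ S) v = 0 := by
        rw [← F.al_insert g (by rw [Finset.mem_union, not_or]; exact hv)]
        apply al_of_not_clique
        intro h8
        apply h6
        refine ⟨⟨?_, by rw [h5]; exact h8⟩, Finset.card_insert_of_notMem hv.2⟩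
        rw [Finset.disjoint_insert_left]
        exact ⟨hv.1, hS.1⟩
      rw [h7]
      simp only [map_zero]

theorem bd_chE (g : Finset V → Tp p) {r S : Finset V} (hS : Fl G r S) :
    bd (F.chE r (S.card + 1) fun T => F.al g (r ∪ T)) S =
      (-1 : ℝ) ^ S.card • (F.opE r S (vac (F.al (F.DD g) (r ∪ S))) + F.opE r S (cp F.x (vac (F.al g (r ∪ S))))) := by
  have h := F.bd_of_id (a := F.ev) hS g F.ev_sq (fun u v h x => F.ev_anti h x) _ (F.id_E g (r ∪ S))
  rw [map_add, map_add] at h
  exact h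

theorem bd_chL (g : Finset V → Tp p) {r S : Finset V} (hS : Fl G r S) :
    bd (F.chL r (S.card + 1) fun T => F.al g (r ∪ T)) S =
      (-1 : ℝ) ^ S.card • F.opL r S (cp F.x (vac (F.al g (r ∪ S)))) :=
  F.bd_of_id (a := F.lv (Tp p)) hS g F.lv_sq (fun u v h x => F.lv_anti u v x) _ (F.id_L g (r ∪ S))

/-- boundaries are supported on the faces of the link of the right size -/
theorem bd_chE_of_not (r : Finset V) (i : ℕ) (a : Finset V → Tp p) {S : Finset V} (hS : ¬ (Fl G r S ∧ S.card = i)) :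
    bd (F.chE r (i + 1) a) S = 0 := by
  unfold bd
  refine Finset.sum_eq_zero fun v hv => ?_
  rw [Finset.mem_compl] at hv
  have : ¬ (Fl G r (insert v S) ∧ (insert v S).card = i + 1) := by
    rintro ⟨h1, h2⟩
    rw [Finset.card_insert_of_notMem hv] at h2
    exact hS ⟨fl_mono (Finset.subset_insert _ _) h1, by omega⟩
  unfold chE
  rw [if_neg this, smul_zero]

theorem bd_chL_of_not (r : Finset V) (i : ℕ) (a : Finset V → Tp p) {S : Finset V} (hS : ¬ (Fl G r S ∧ S.card = i)) :
    bd (F.chL r (i + 1) a) S = 0 := by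
  unfold bd
  refine Finset.sum_eq_zero fun v hv => ?_
  rw [Finset.mem_compl] at hv
  have : ¬ (Fl G r (insert v S) ∧ (insert v S).card = i + 1) := by
    rintro ⟨h1, h2⟩
    rw [Finset.card_insert_of_notMem hv] at h2
    exact hS ⟨fl_mono (Finset.subset_insert _ _) h1, by omega⟩
  unfold chL
  rw [if_neg this, smul_zero]

/-- local parts of the chains `e_r e_S a_S` -/
theorem loc_chE {r : Finset V} {v : V} (hv : v ∉ r) (hr : G.IsClique ((insert v r : Finset V) : Set V)) (i : ℕ)
    (a : Finset V → Tp p) (S : Finset V) :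
    loc v (F.chE r (i + 1) a) S = (-1 : ℝ) ^ (r.filter fun w => rk v < rk w).card •
      F.chE (insert v r) i (fun T => a (insert v T)) S := by
  unfold loc
  split_ifs with h
  · unfold chE
    rw [if_neg, smul_zero]
    rintro ⟨h1, _⟩
    exact (Finset.disjoint_left.1 h1.1 h) (Finset.mem_insert_self v r)
  · unfold chE
    have h1 : (Fl G r (insert v S) ∧ (insert v S).card = i + 1) ↔ (Fl G (insert v r) S ∧ S.card = i) := by
      rw [fl_insert_iff hv h, Finset.card_insert_of_notMem h]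
      constructor
      · rintro ⟨h1, h2⟩
        exact ⟨h1, by omega⟩
      · rintro ⟨h1, h2⟩
        exact ⟨h1, by omega⟩
    by_cases h2 : Fl G (insert v r) S ∧ S.card = i
    · rw [if_pos h2, if_pos (h1.2 h2)]
      have hadjS : ∀ w ∈ S, G.Adj v w := fun w hw =>
        h2.1.2 (by simp) (by simp [hw]) fun e => h (e ▸ hw)
      have hadjr : ∀ w ∈ r, G.Adj v w := fun w hw =>
        hr (by simp) (by simp [hw]) fun e => hv (e ▸ hw)
      unfold opE
      rw [LinearMap.comp_apply, LinearMap.comp_apply,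
        sgz_opP_insert F.ev h (fun w hw x => F.ev_anti (hadjS w hw) x),
        opP_insert F.ev hv (fun w hw x => F.ev_anti (hadjr w hw) x), smul_smul, ← mul_pow,
        opP_comm F.ev (F.ev v) S (fun w hw x => F.ev_anti (hadjS w hw) x), map_smul]
      norm_num
    · rw [if_neg h2, if_neg (fun h3 => h2 (h1.1 h3)), smul_zero, smul_zero]

/-- products of the operators of a clique are injective on the vectors killed by the dual contractions -/
theorem iden_inj {T : Finset V} (hT : G.IsClique (T : Set V)) (S : Finset V) (hST : S ⊆ T) (y : Sm n p)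
    (hy : ∀ v ∈ S, ∀ l : Fin n → ℝ, (∀ u ∈ T, u ≠ v → ∑ j, l j * F.c u j = 0) → cm l y = 0)
    (h : opP F.ev S y = 0) : y = 0 := by
  induction S using Finset.induction_on with
  | empty => rwa [opP_empty] at h
  | insert v S hv ih =>
    have hvT : v ∈ T := hST (Finset.mem_insert_self v S)
    have hS : S ⊆ T := (Finset.subset_insert v S).trans hST
    have hadj : ∀ w ∈ S, G.Adj v w := fun w hw => hT hvT (hS hw) fun e => hv (e ▸ hw)
    obtain ⟨l, hl1, hl0⟩ := F.dual T hT v hvT
    refine ih hS (fun u hu => hy u (Finset.mem_insert_of_mem hu)) ?_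
    rw [opP_insert F.ev hv (fun w hw x => F.ev_anti (hadj w hw) x)] at h
    have h1 := (smul_eq_zero.1 h).resolve_left (pow_ne_zero _ (by norm_num))
    have h2 := opP_comm F.ev (cm l) S (fun w hw x => by
      have h3 := F.cm_ev l w x
      rw [hl0 w (hS hw) (fun e => hv (e ▸ hw)), zero_smul] at h3
      exact eq_neg_of_add_eq_zero_left h3) (F.ev v y)
    rw [h1, map_zero] at h2
    have h4 := (smul_eq_zero.1 h2.symm).resolve_left (pow_ne_zero _ (by norm_num))
    have h5 := F.cm_ev l v y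
    rw [hl1, one_smul, hy v (Finset.mem_insert_self v S) l hl0, map_zero, add_zero] at h5
    rwa [h5] at h4

theorem iden_opE_inj {r S : Finset V} (hS : Fl G r S) {t : Tp p} (h : F.opE r S (vac t) = 0) : t = 0 := by
  have h0 : ∀ l : Fin n → ℝ, cm l (vac (n := n) t) = 0 := fun l => Dg_cm_zero (Dg_vac t) l
  have h1 : opP F.ev S (vac t) = 0 := by
    refine F.iden_inj hS.2 r Finset.subset_union_left _ (fun v hv l hl => ?_) h
    rw [opP_comm F.ev (cm l) S (fun w hw x => by
      have h3 := F.cm_ev l w x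
      rw [hl w (Finset.mem_union_right _ hw) (fun e => Finset.disjoint_left.1 hS.1 hw (e ▸ hv)), zero_smul] at h3
      exact eq_neg_of_add_eq_zero_left h3), h0, map_zero, smul_zero]
  have h2 := F.iden_inj hS.2 S Finset.subset_union_right _ (fun v _ l _ => h0 l) h1
  have h3 := congrFun h2 ∅
  simpa [vac] using h3

theorem DD_ER {r : Finset V} {g : Finset V → Tp p} (hg : g ∈ ER G n p r) : F.DD g ∈ ER G n p r := by
  intro R hR
  have h2 : F.DD g R = gam (M := ℝ) (fun j => ∑ v ∈ R, F.X v R * F.f v j) (g R) := rfl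
  rw [h2, hg R hR, map_zero]

theorem DD_GG {r : Finset V} {d : ℕ} {g : Finset V → Tp p} (hg : g ∈ F.GG r (d + 1)) : F.DD g ∈ F.GG r d := by
  refine ⟨F.DD_ER hg.1, fun S hS hd => ?_⟩
  have h1 := F.bd_chE g hS
  have h2 : bd (F.chE r (S.card + 1) fun T => F.al g (r ∪ T)) S = 0 := by
    unfold bd
    refine Finset.sum_eq_zero fun v hv => ?_
    unfold chE
    split_ifs with h
    · have e : F.al g (r ∪ insert v S) = 0 := hg.2 (insert v S) h.1 (by omega)
      dsimp only
      rw [e, map_zero, map_zero, smul_zero]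
    · rw [smul_zero]
  rw [h2, hg.2 S hS (by omega)] at h1
  rw [map_zero, map_zero, map_zero, add_zero] at h1
  have h3 := (smul_eq_zero.1 h1.symm).resolve_left (pow_ne_zero _ (by norm_num))
  exact F.iden_opE_inj hS h3

theorem DD_DD {g : Finset V → Tp p} {r : Finset V} (hg : g ∈ ER G n p r) :
    F.DD (F.DD g) = (∑ j, F.x j ^ 2) • g := by
  funext R
  by_cases hR : Fac G n R ∧ r ⊆ R
  · have h1 : F.DD (F.DD g) R = gam (M := ℝ) (fun j => ∑ v ∈ R, F.X v R * F.f v j)
        (gam (M := ℝ) (fun j => ∑ v ∈ R, F.X v R * F.f v j) (g R)) := rfl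
    have h2 := gam_gam (fun j => ∑ v ∈ R, F.X v R * F.f v j) (fun j => ∑ v ∈ R, F.X v R * F.f v j) (g R)
    rw [← h1, ← two_smul ℝ, mul_smul] at h2
    have h3 := smul_right_injective (M := Tp p) (two_ne_zero' ℝ) h2
    rw [h3, Pi.smul_apply]
    congr 1
    have h4 : ∀ (m : ℕ) (e : V → Fin m → ℝ), ∑ j, (∑ v ∈ R, F.X v R * e v j) * (∑ v ∈ R, F.X v R * e v j) =
        ∑ u ∈ R, ∑ v ∈ R, F.X u R * F.X v R * ∑ j, e u j * e v j := by
      intro m e
      have h6 : ∀ j, (∑ v ∈ R, F.X v R * e v j) * (∑ v ∈ R, F.X v R * e v j) =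
          ∑ u ∈ R, ∑ v ∈ R, F.X u R * F.X v R * (e u j * e v j) := by
        intro j
        rw [Finset.sum_mul_sum]
        exact Finset.sum_congr rfl fun u _ => Finset.sum_congr rfl fun v _ => by ring
      rw [Finset.sum_congr rfl fun j _ => h6 j, Finset.sum_comm]
      refine Finset.sum_congr rfl fun u _ => ?_
      rw [Finset.sum_comm]
      refine Finset.sum_congr rfl fun v _ => ?_
      rw [Finset.mul_sum]
    rw [h4 p F.f]
    have h5 : ∀ j, F.x j ^ 2 = (∑ v ∈ R, F.X v R * F.c v j) * (∑ v ∈ R, F.X v R * F.c v j) := by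
      intro j
      rw [F.Xc R hR.1 j, sq]
    rw [Finset.sum_congr rfl fun j _ => h5 j, h4 n F.c]
    refine Finset.sum_congr rfl fun u hu => Finset.sum_congr rfl fun v hv => ?_
    congr 1
    apply F.iso
    by_cases huv : u = v
    · exact Or.inl huv
    · exact Or.inr (hR.1.1 hu hv huv)
  · rw [F.DD_ER (F.DD_ER hg) R hR, Pi.smul_apply, hg R hR, smul_zero]

theorem ip_gam (c : Fin p → ℝ) (s t : Tp p) : ip (gam (M := ℝ) c s) t = ip s (gam (M := ℝ) c t) := by
  exact BF_gam (M := ℝ) (B := LinearMap.mul ℝ ℝ) (fun x y => mul_comm x y) c s t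

theorem BB_DD (r : Finset V) (g h : Finset V → Tp p) : F.BB r (F.DD g) h = F.BB r g (F.DD h) := by
  unfold BB
  refine Finset.sum_congr rfl fun R _ => ?_
  congr 1
  exact ip_gam _ _ _

end Fan

end

end Hr
end Singer
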