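import Pool.Agent.Singer.Hr.CM
import Pool.Agent.Singer.Hr.Iden

/-!
# Balanced families come from functions on facets

`Singer.Hr.Fan.exists_al`: if the chain of the leading parts `chL r i a` is a cycle, then `a S = al g (r ∪ S)` for an
element `g` of `GG r i`.
-/

set_option autoImplicit false
set_option linter.unusedSectionVars false
set_option linter.unusedVariables false

namespace Singer
namespace Hr

open Singer.Re Pool.Agent.Helper34.Car

noncomputable section

variable {V : Type} [Fintype V] [DecidableEq V]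

/-- the boundary commutes with linear maps of the coefficients -/
lemma bd_lin {M N : Type} [AddCommGroup M] [Module ℝ M] [AddCommGroup N] [Module ℝ N] (b : M →ₗ[ℝ] N)
    (z : Finset V → M) (S : Finset V) : bd (fun T => b (z T)) S = b (bd z S) := by
  unfold bd
  rw [map_sum]
  exact Finset.sum_congr rfl fun v _ => (map_zsmul b _ _).symm

namespace Fan
variable {G : SimpleGraph V} {n p : ℕ} (F : Fan G n p)

lemma cp_lv (b : Fin n → ℝ) (v : V) (x : Sm n p) : cp b (F.lv (Tp p) v x) = -F.lv (Tp p) v (cp b x) :=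
  eq_neg_of_add_eq_zero_left (cp_cp b (F.c v) x)

lemma opP_lv_comm (b : Fin n → ℝ) (S : Finset V) (x : Sm n p) :
    cp b (opP (F.lv (Tp p)) S x) = (-1 : ℝ) ^ S.card • opP (F.lv (Tp p)) S (cp b x) :=
  opP_comm (F.lv (Tp p)) (cp b) S (fun w _ x => F.cp_lv b w x) x

lemma opL_comm (b : Fin n → ℝ) (r S : Finset V) (x : Sm n p) :
    cp b (F.opL r S x) = (-1 : ℝ) ^ (r.card + S.card) • F.opL r S (cp b x) := by
  show cp b (opP (F.lv (Tp p)) r (opP (F.lv (Tp p)) S x)) = _ • opP (F.lv (Tp p)) r (opP (F.lv (Tp p)) S (cp b x))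
  rw [F.opP_lv_comm, F.opP_lv_comm, map_smul, smul_smul, ← pow_add]

lemma opP_lv_insert {S : Finset V} {v : V} (hv : v ∉ S) (x : Sm n p) :
    opP (F.lv (Tp p)) (insert v S) x =
      (-1 : ℝ) ^ (S.filter fun w => rk v < rk w).card • opP (F.lv (Tp p)) S (cp (F.c v) x) :=
  opP_insert (F.lv (Tp p)) hv (fun w _ x => F.lv_anti v w x) x

lemma opP_lv_dg (S : Finset V) : ∀ (d : ℕ) (x : Sm n p), Dg d x → Dg (d + S.card) (opP (F.lv (Tp p)) S x) := by
  induction S using Finset.induction_on with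
  | empty =>
    intro d x hx
    rw [opP_empty]
    exact hx
  | insert v S hv ih =>
    intro d x hx
    rw [F.opP_lv_insert hv, Finset.card_insert_of_notMem hv]
    have h1 := ih (d + 1) (cp (F.c v) x) (Dg_cp hx _)
    rw [show d + (S.card + 1) = d + 1 + S.card by omega]
    exact Dg_smul h1 _

lemma cp_opP_mem {S : Finset V} {v : V} (hv : v ∈ S) (x : Sm n p) : cp (F.c v) (opP (F.lv (Tp p)) S x) = 0 := by
  have h := opP_mem (F.lv (Tp p)) (S := S) (fun v _ x => F.lv_sq v x) (fun v _ w _ _ x => F.lv_anti v w x) x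
  unfold kr at h
  simp only [Submodule.mem_iInf] at h
  exact h v hv

lemma opL_dg (r S : Finset V) (t : Tp p) : Dg (r.card + S.card) (F.opL r S (vac t)) := by
  have h1 := F.opP_lv_dg S 0 (vac t) (Dg_vac t)
  have h2 := F.opP_lv_dg r _ _ h1
  rw [show 0 + S.card + r.card = r.card + S.card by omega] at h2
  exact h2

lemma cp_opL_mem {r S : Finset V} {v : V} (hv : v ∈ r ∪ S) (x : Sm n p) : cp (F.c v) (F.opL r S x) = 0 := by
  show cp (F.c v) (opP (F.lv (Tp p)) r (opP (F.lv (Tp p)) S x)) = 0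
  rcases Finset.mem_union.1 hv with h | h
  · exact F.cp_opP_mem h _
  · rw [F.opP_lv_comm, F.cp_opP_mem h, map_zero, smul_zero]

lemma cp_opL_mem_KL (b : Fin n → ℝ) (r S : Finset V) (t : Tp p) :
    cp b (F.opL r S (vac t)) ∈ F.KL (Tp p) (r.card + (S.card + 1)) (r ∪ S) := by
  rw [F.mem_KL (Tp p)]
  refine ⟨?_, fun v hv => ?_⟩
  · rw [← add_assoc]
    exact Dg_cp (F.opL_dg r S t) b
  · have h := cp_cp (F.c v) b (F.opL r S (vac t))
    rw [F.cp_opL_mem hv, map_zero, add_zero] at h
    exact h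

/-- the elements of lowest degree -/
lemma top_P (S : Finset V) : G.IsClique (S : Set V) → ∀ y ∈ F.KL (Tp p) S.card S,
    ∃ t, opP (F.lv (Tp p)) S (vac t) = y := by
  induction S using Finset.induction_on with
  | empty =>
    intro _ y hy
    rw [F.mem_KL (Tp p)] at hy
    refine ⟨y ∅, ?_⟩
    rw [opP_empty]
    funext J
    show (if J = ∅ then y ∅ else 0) = y J
    split_ifs with h
    · rw [h]
    · exact (hy.1 J (by rw [Finset.card_empty]; exact fun h1 => h (Finset.card_eq_zero.1 h1))).symm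
  | insert v S hv ih =>
    intro hS y hy
    rw [Finset.card_insert_of_notMem hv] at hy
    obtain ⟨y', hy', h1⟩ := F.free_KL (Tp p) hv hS hy
    obtain ⟨t, ht⟩ := ih (hS.subset (by simp)) y' hy'
    refine ⟨((-1 : ℝ) ^ S.card * (-1 : ℝ) ^ (S.filter fun w => rk v < rk w).card) • t, ?_⟩
    rw [F.opP_lv_insert hv, map_smul, map_smul, map_smul, smul_smul, ← h1, ← ht, F.opP_lv_comm]
    congr 1
    rw [mul_comm, mul_assoc, ← pow_add, ← two_mul, pow_mul]
    norm_num

lemma top_L {r : Finset V} (T : Finset V) : Fl G r T → ∀ y ∈ F.KL (Tp p) (r.card + T.card) (r ∪ T),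
    ∃ t, F.opL r T (vac t) = y := by
  induction T using Finset.induction_on with
  | empty =>
    intro hT y hy
    rw [Finset.card_empty, add_zero, Finset.union_empty] at hy
    obtain ⟨t, ht⟩ := F.top_P r (by simpa using hT.2) y hy
    refine ⟨t, ?_⟩
    show opP (F.lv (Tp p)) r (opP (F.lv (Tp p)) ∅ (vac t)) = y
    rw [opP_empty, ht]
  | insert v T hv ih =>
    intro hT y hy
    have hvr : v ∉ r := Finset.disjoint_left.1 hT.1 (Finset.mem_insert_self v T)
    have hvT : v ∉ r ∪ T := fun h => (Finset.mem_union.1 h).elim hvr hv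
    have hu : r ∪ insert v T = insert v (r ∪ T) := Finset.union_insert v r T
    have h2 := hT.2
    rw [hu] at h2 hy
    rw [Finset.card_insert_of_notMem hv, ← add_assoc] at hy
    obtain ⟨y', hy', h1⟩ := F.free_KL (Tp p) hvT h2 hy
    obtain ⟨t, ht⟩ := ih ⟨hT.1.mono_left (Finset.subset_insert v T), h2.subset (by simp)⟩ y' hy'
    refine ⟨((-1 : ℝ) ^ (r.card + T.card) * (-1 : ℝ) ^ (T.filter fun w => rk v < rk w).card) • t, ?_⟩
    rw [map_smul, map_smul, ← h1, ← ht, F.opL_comm]
    show _ • opP (F.lv (Tp p)) r (opP (F.lv (Tp p)) (insert v T) (vac t)) =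
      _ • opP (F.lv (Tp p)) r (opP (F.lv (Tp p)) T (cp (F.c v) (vac t)))
    rw [F.opP_lv_insert hv, map_smul, smul_smul]
    congr 1
    rw [mul_assoc, ← pow_add, ← two_mul, pow_mul]
    norm_num

/-- wedge products of independent vectors are not zero -/
lemma opP_lv_inj {T : Finset V} (hT : G.IsClique (T : Set V)) (S : Finset V) (hST : S ⊆ T) (y : Sm n p)
    (hy : ∀ v ∈ S, ∀ l : Fin n → ℝ, (∀ u ∈ T, u ≠ v → ∑ j, l j * F.c u j = 0) → cm l y = 0)
    (h : opP (F.lv (Tp p)) S y = 0) : y = 0 := by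
  have hcm : ∀ (l : Fin n → ℝ) (v : V) (x : Sm n p),
      cm l (cp (F.c v) x) + cp (F.c v) (cm l x) = (∑ j, l j * F.c v j) • x := by
    intro l v x
    rw [add_comm, cp_cm]
    congr 1
    exact Finset.sum_congr rfl fun j _ => mul_comm _ _
  induction S using Finset.induction_on with
  | empty => rwa [opP_empty] at h
  | insert v S hv ih =>
    have hvT : v ∈ T := hST (Finset.mem_insert_self v S)
    have hS : S ⊆ T := (Finset.subset_insert v S).trans hST
    obtain ⟨l, hl1, hl0⟩ := F.dual T hT v hvT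
    refine ih hS (fun u hu => hy u (Finset.mem_insert_of_mem hu)) ?_
    rw [F.opP_lv_insert hv] at h
    have h1 := (smul_eq_zero.1 h).resolve_left (pow_ne_zero _ (by norm_num))
    have h2 := opP_comm (F.lv (Tp p)) (cm l) S (fun w hw x => by
      have h3 := hcm l w x
      rw [hl0 w (hS hw) (fun e => hv (e ▸ hw)), zero_smul] at h3
      exact eq_neg_of_add_eq_zero_left h3) (cp (F.c v) y)
    rw [h1, map_zero] at h2
    have h4 := (smul_eq_zero.1 h2.symm).resolve_left (pow_ne_zero _ (by norm_num))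
    have h5 := hcm l v y
    rw [hl1, one_smul, hy v (Finset.mem_insert_self v S) l hl0, map_zero, add_zero] at h5
    rwa [h5] at h4

/-- a functional which separates `x` from the span of a face -/
lemma exists_sep {T : Finset V} (hT : G.IsClique (T : Set V)) (hn : T.card < n) :
    ∃ l : Fin n → ℝ, ∑ j, l j * F.x j ≠ 0 ∧ ∀ v ∈ T, ∑ j, l j * F.c v j = 0 := by
  have hx : F.x ∉ Submodule.span ℝ ((fun v => F.c v) '' (T : Set V)) := by
    intro h
    rw [Submodule.mem_span_image_finset_iff_exists_fun] at h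
    obtain ⟨b, hb⟩ := h
    refine F.gen T hT hn (fun v => if hv : v ∈ T then b ⟨v, hv⟩ else 0) fun j => ?_
    rw [← hb, Finset.sum_apply, ← Finset.sum_coe_sort T]
    refine Finset.sum_congr rfl fun v _ => ?_
    rw [dif_pos v.2]
    rfl
  obtain ⟨φ, hφ1, hφ2⟩ := Submodule.exists_le_ker_of_notMem hx
  have hφ : ∀ y : Fin n → ℝ, φ y = ∑ j, φ (Pi.single j 1) * y j := by
    intro y
    conv_lhs => rw [← Finset.univ_sum_single y]
    rw [map_sum]
    refine Finset.sum_congr rfl fun j _ => ?_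
    have : (Pi.single j (y j) : Fin n → ℝ) = y j • Pi.single j 1 := by
      rw [← Pi.single_smul', smul_eq_mul, mul_one]
    rw [this, map_smul, smul_eq_mul, mul_comm]
  refine ⟨fun j => φ (Pi.single j 1), ?_, fun v hv => ?_⟩
  · rw [← hφ]
    exact hφ1
  · rw [← hφ]
    exact hφ2 (Submodule.subset_span ⟨v, hv, rfl⟩)

lemma ext_inj {r S : Finset V} (hS : Fl G r S) (hn : r.card + S.card < n) {t : Tp p}
    (h : F.opL r S (cp F.x (vac t)) = 0) : t = 0 := by
  have hc : (r ∪ S).card < n := by rwa [Finset.card_union_of_disjoint hS.1.symm]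
  obtain ⟨l, hl1, hl0⟩ := F.exists_sep hS.2 hc
  have hcm : ∀ (l : Fin n → ℝ) (b : Fin n → ℝ) (x : Sm n p),
      cm l (cp b x) + cp b (cm l x) = (∑ j, l j * b j) • x := by
    intro l b x
    rw [add_comm, cp_cm]
    congr 1
    exact Finset.sum_congr rfl fun j _ => mul_comm _ _
  have hanti : ∀ l : Fin n → ℝ, ∀ w, ∑ j, l j * F.c w j = 0 → ∀ x : Sm n p,
      cm l (F.lv (Tp p) w x) = -F.lv (Tp p) w (cm l x) := fun l w hw x => by
    have h3 := hcm l (F.c w) x
    rw [hw, zero_smul] at h3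
    exact eq_neg_of_add_eq_zero_left h3
  have h0 : ∀ l : Fin n → ℝ, cm l (vac (n := n) t) = 0 := fun l => Dg_cm_zero (Dg_vac t) l
  have h1 : F.opL r S (vac t) = 0 := by
    have h2 : cm l (F.opL r S (cp F.x (vac t))) = 0 := by rw [h, map_zero]
    have h3 : cm l (opP (F.lv (Tp p)) r (opP (F.lv (Tp p)) S (cp F.x (vac t)))) = 0 := h2
    rw [opP_comm (F.lv (Tp p)) (cm l) r fun w hw x => hanti l w (hl0 w (Finset.mem_union_left _ hw)) x,
      opP_comm (F.lv (Tp p)) (cm l) S fun w hw x => hanti l w (hl0 w (Finset.mem_union_right _ hw)) x,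
      map_smul, smul_smul] at h3
    have h4 := (smul_eq_zero.1 h3).resolve_left
      (mul_ne_zero (pow_ne_zero _ (by norm_num)) (pow_ne_zero _ (by norm_num)))
    have h5 := hcm l F.x (vac t)
    rw [h0, map_zero, add_zero] at h5
    rw [h5, map_smul, map_smul] at h4
    exact (smul_eq_zero.1 h4).resolve_left hl1
  have h2 : opP (F.lv (Tp p)) S (vac t) = 0 := by
    refine F.opP_lv_inj hS.2 r Finset.subset_union_left _ (fun v hv l hl => ?_) h1
    rw [opP_comm (F.lv (Tp p)) (cm l) S (fun w hw x => hanti l w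
      (hl w (Finset.mem_union_right _ hw) (fun e => Finset.disjoint_left.1 hS.1 hw (e ▸ hv))) x),
      h0, map_zero, smul_zero]
  have h3 := F.opP_lv_inj hS.2 S Finset.subset_union_right _ (fun v _ l _ => h0 l) h2
  have h4 := congrFun h3 ∅
  simpa [vac] using h4

/-- the chain of the leading parts, in another form -/
lemma chL_of {r S : Finset V} {i : ℕ} (a : Finset V → Tp p) (hS : Fl G r S) (hi : S.card = i) :
    F.chL r i a S = F.opL r S (vac (a S)) := if_pos ⟨hS, hi⟩

lemma chL_of_not {r S : Finset V} {i : ℕ} (a : Finset V → Tp p) (h : ¬ (Fl G r S ∧ S.card = i)) :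
    F.chL r i a S = 0 := if_neg h

lemma chL_congr {r : Finset V} {i : ℕ} {a b : Finset V → Tp p} (h : ∀ S, Fl G r S → S.card = i → a S = b S) :
    F.chL r i a = F.chL r i b := by
  funext S
  by_cases hS : Fl G r S ∧ S.card = i
  · rw [F.chL_of a hS.1 hS.2, F.chL_of b hS.1 hS.2, h S hS.1 hS.2]
  · rw [F.chL_of_not a hS, F.chL_of_not b hS]

/-- one step of the descent -/
lemma step (hG : Sp G n) {r : Finset V} (hr : G.IsClique (r : Set V)) {i : ℕ} {a : Finset V → Tp p}
    (h : ∀ S, cp F.x (bd (F.chL r i a) S) = 0) :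
    ∃ a' : Finset V → Tp p, ∀ S, bd (F.chL r (i + 1) a') S = (-1 : ℝ) ^ r.card • cp F.x (F.chL r i a S) := by
  have hz : ChP (lkP G (F.KL (Tp p) (r.card + (i + 1))) r) i (fun S => cp F.x (F.chL r i a S)) := by
    intro S
    by_cases hS : Fl G r S ∧ S.card = i
    · refine ⟨?_, fun _ => hS.2⟩
      unfold lkP
      rw [if_pos hS.1]
      show cp F.x (F.chL r i a S) ∈ _
      rw [F.chL_of a hS.1 hS.2, ← hS.2]
      exact F.cp_opL_mem_KL F.x r S (a S)
    · have h0 : cp F.x (F.chL r i a S) = 0 := by rw [F.chL_of_not a hS, map_zero]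
      refine ⟨?_, fun hne => absurd h0 hne⟩
      show cp F.x (F.chL r i a S) ∈ _
      rw [h0]
      exact Submodule.zero_mem _
  obtain ⟨y, hy, hyz⟩ := F.exL (Tp p) hG hr (Nat.lt_add_one i) _ hz (fun S => by
    rw [bd_lin (cp F.x) (F.chL r i a) S, h S])
  have hy' : ∀ S, ∃ t : Tp p, (Fl G r S ∧ S.card = i + 1 → F.opL r S (vac t) = y S) := by
    intro S
    by_cases hS : Fl G r S ∧ S.card = i + 1
    · have h1 := (hy S).1
      unfold lkP at h1
      rw [if_pos hS.1, ← hS.2] at h1
      obtain ⟨t, ht⟩ := F.top_L S hS.1 (y S) h1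
      exact ⟨t, fun _ => ht⟩
    · exact ⟨0, fun h => absurd h hS⟩
  choose t ht using hy'
  refine ⟨fun S => (-1 : ℝ) ^ r.card • t S, fun S => ?_⟩
  have hch : F.chL r (i + 1) (fun S => (-1 : ℝ) ^ r.card • t S) = fun S =>
      ((-1 : ℝ) ^ r.card • (LinearMap.id : Sm n p →ₗ[ℝ] Sm n p)) (y S) := by
    funext S
    show _ = (-1 : ℝ) ^ r.card • y S
    by_cases hS : Fl G r S ∧ S.card = i + 1
    · rw [F.chL_of _ hS.1 hS.2, map_smul, map_smul, ht S hS]
    · rw [F.chL_of_not _ hS]
      have : y S = 0 := by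
        by_contra hne
        have h2 := (hy S).2 hne
        refine hS ⟨?_, h2⟩
        by_contra hF
        have h1 := (hy S).1
        unfold lkP at h1
        rw [if_neg hF] at h1
        exact hne ((Submodule.mem_bot ℝ).1 h1)
      rw [this, smul_zero]
  rw [hch, bd_lin, hyz]
  rfl

open Classical in
/-- facets: every family of values is a sum over facets -/
lemma al_top {r : Finset V} {i : ℕ} (hi : r.card + i = n) (a : Finset V → Tp p) :
    ∃ g ∈ ER G n p r, ∀ S, Fl G r S → S.card = i → F.al g (r ∪ S) = a S := by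
  refine ⟨fun R => if Fac G n R ∧ r ⊆ R then (F.w R)⁻¹ • a (R \ r) else 0, fun R hR => if_neg hR, ?_⟩
  intro S hS hSi
  have hc : (r ∪ S).card = n := by
    rw [Finset.card_union_of_disjoint hS.1.symm, hSi, hi]
  have hF : Fac G n (r ∪ S) := ⟨hS.2, hc⟩
  unfold al
  rw [Finset.sum_eq_single (r ∪ S)]
  · show _ • (if Fac G n (r ∪ S) ∧ r ⊆ r ∪ S then (F.w (r ∪ S))⁻¹ • a ((r ∪ S) \ r) else 0) = a S
    rw [if_pos ⟨hF, Finset.subset_union_left⟩, smul_smul]
    have h1 : (r ∪ S) \ r = S := by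
      rw [Finset.union_sdiff_left, Finset.sdiff_eq_self_of_disjoint hS.1]
    have h2 : F.om (r ∪ S) * ∏ v ∈ r ∪ S, F.X v (r ∪ S) = F.w (r ∪ S) := by
      unfold om
      exact div_mul_cancel₀ _ (Finset.prod_ne_zero_iff.2 fun v hv => F.Xne _ hF v hv)
    rw [h1, h2, mul_inv_cancel₀ (F.wpos _).ne', one_smul]
  · intro R hR hne
    exfalso
    rw [Finset.mem_filter] at hR
    exact hne (Finset.eq_of_subset_of_card_le hR.2.2 (by rw [hR.2.1.2, hc])).symm
  · intro h
    exact absurd (Finset.mem_filter.2 ⟨Finset.mem_univ _, hF, subset_rfl⟩) h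

/-- the descent -/
lemma exists_ER (hG : Sp G n) {r : Finset V} (hr : G.IsClique (r : Set V)) (k : ℕ) : ∀ (i : ℕ) (a : Finset V → Tp p),
    r.card + i + k = n → (∀ S, cp F.x (bd (F.chL r i a) S) = 0) →
      ∃ g ∈ ER G n p r, ∀ S, Fl G r S → S.card = i → F.al g (r ∪ S) = a S := by
  induction k with
  | zero =>
    intro i a hi _
    exact F.al_top (by omega) a
  | succ k ih =>
    intro i a hi h
    obtain ⟨a', ha'⟩ := F.step hG hr h
    obtain ⟨g, hg, hg'⟩ := ih (i + 1) a' (by omega) (fun S => by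
      rw [ha' S, map_smul, cp_self, smul_zero])
    refine ⟨g, hg, fun S hS hSi => ?_⟩
    have h1 := F.bd_chL g hS
    rw [F.chL_congr (b := a') (fun T hT hTc => hg' T hT (by rw [hTc, hSi])), hSi, ha' S, F.chL_of a hS hSi,
      F.opL_comm, smul_smul, ← pow_add] at h1
    have h2 : (-1 : ℝ) ^ (r.card + (r.card + S.card)) = (-1 : ℝ) ^ i := by
      rw [← add_assoc, ← two_mul, pow_add, pow_mul, hSi]
      norm_num
    rw [h2] at h1
    have h3 := smul_right_injective (Sm n p) (pow_ne_zero i (by norm_num : (-1 : ℝ) ≠ 0)) h1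
    have h4 : F.opL r S (cp F.x (vac (F.al g (r ∪ S) - a S))) = 0 := by
      rw [map_sub, map_sub, map_sub, ← h3, sub_self]
    exact sub_eq_zero.1 (F.ext_inj hS (by omega) h4)

/-- the values below the degree are zero -/
lemma al_zero {r : Finset V} {g : Finset V → Tp p} {i : ℕ} (hi : r.card + i ≤ n)
    (h : ∀ S, bd (F.chL r i fun T => F.al g (r ∪ T)) S = 0) (k : ℕ) : ∀ S, Fl G r S → S.card + k + 1 = i →
      F.al g (r ∪ S) = 0 := by
  induction k with
  | zero =>
    intro S hS hSi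
    have h1 := F.bd_chL g hS
    rw [show S.card + 1 = i by omega, h S] at h1
    exact F.ext_inj hS (by omega) ((smul_eq_zero.1 h1.symm).resolve_left (pow_ne_zero _ (by norm_num)))
  | succ k ih =>
    intro S hS hSi
    have h1 := F.bd_chL g hS
    have h2 : F.chL r (S.card + 1) (fun T => F.al g (r ∪ T)) = F.chL r (S.card + 1) (fun _ => 0) :=
      F.chL_congr fun T hT hTc => ih T hT (by omega)
    have h3 : F.chL r (S.card + 1) (fun _ => (0 : Tp p)) = fun _ => 0 := by
      funext T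
      by_cases hT : Fl G r T ∧ T.card = S.card + 1
      · rw [F.chL_of _ hT.1 hT.2, map_zero, map_zero]
      · exact F.chL_of_not _ hT
    rw [h2, h3] at h1
    have h4 : bd (fun _ : Finset V => (0 : Sm n p)) S = 0 := by
      unfold bd
      simp
    rw [h4] at h1
    exact F.ext_inj hS (by omega) ((smul_eq_zero.1 h1.symm).resolve_left (pow_ne_zero _ (by norm_num)))

theorem exists_al (hG : Sp G n) {r : Finset V} (hr : G.IsClique (r : Set V)) {i : ℕ} {a : Finset V → Tp p}
    (h : ∀ S, bd (F.chL r i a) S = 0) :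
    ∃ g ∈ F.GG r i, ∀ S, Fl G r S → S.card = i → F.al g (r ∪ S) = a S := by
  by_cases hi : r.card + i ≤ n
  · obtain ⟨g, hg, hg'⟩ := F.exists_ER hG hr (n - (r.card + i)) i a (by omega) (fun S => by rw [h S, map_zero])
    refine ⟨g, ⟨hg, fun S hS hSi => ?_⟩, hg'⟩
    refine F.al_zero hi ?_ (i - S.card - 1) S hS (by omega)
    rw [F.chL_congr hg']
    exact h
  · refine ⟨0, (F.GG r i).zero_mem, fun S hS hSi => ?_⟩
    exfalso
    have h1 := hG.cx.dim _ hS.2
    rw [Finset.card_union_of_disjoint hS.1.symm] at h1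
    omega

end Fan
end
end Hr
end Singer
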