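import Pool.Agent.Singer.Hr.CM
import Pool.Agent.Singer.Hr.Iden
import Pool.Agent.Helper34.Car.Lead

/-!
# Singer/Hr: leading terms

Every cycle with coefficients in `KE` is homologous to a cycle of the form `e_r e_S a_S`, and the leading terms
of the vectors `e_r e_S a_S` are `c_r c_S a_S`.
-/

set_option autoImplicit false
set_option linter.unusedSectionVars false
set_option linter.unusedVariables false

namespace Singer
namespace Hr

open Singer.Re Pool.Agent.Helper34 Pool.Agent.Helper34.Car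

noncomputable section

variable {V : Type} [Fintype V] [DecidableEq V]

namespace Fan
variable {G : SimpleGraph V} {n p : ℕ} (F : Fan G n p)

theorem ev_eo (v : V) (x : Sm n p) : F.ev v x = Ch.eo (gam (M := ℝ) (F.f v)) (F.c v) x := rfl

theorem clq : Ch.Clq (fun S : Finset V => G.IsClique (S : Set V)) F.c (fun v => gam (M := ℝ) (F.f v)) := by
  refine ⟨down G, ?_, F.dual'⟩
  intro u v huv x
  have h1 : u = v ∨ G.Adj u v := by
    by_cases h : u = v
    · exact Or.inl h
    · exact Or.inr (huv (by simp) (by simp) h)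
  rw [gam_gam, F.iso u v h1]

theorem mem_Ke {S : Finset V} {x : Sm n p} : x ∈ Ch.Ke F.c (fun v => gam (M := ℝ) (F.f v)) S ↔ x ∈ F.KE S := by
  rw [F.mem_KE]
  exact Iff.rfl

theorem clq_adj {S : Finset V} {v : V} (hv : v ∉ S) (hS : G.IsClique ((insert v S : Finset V) : Set V)) :
    ∀ w ∈ S, G.Adj v w := fun w hw =>
  hS (by simp) (by simp [hw]) fun e => hv (e ▸ hw)

/-! ### Degrees -/

theorem lead_opP (S : Finset V) (hS : G.IsClique (S : Set V)) {d : ℕ} {y : Sm n p} (hy : Ch.Le d y) :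
    Ch.Le (d + S.card) (opP F.ev S y) ∧ cmp (d + S.card) (opP F.ev S y) = opP (F.lv (Tp p)) S (cmp d y) := by
  induction S using Finset.induction_on generalizing d y with
  | empty =>
    rw [opP_empty, opP_empty, Finset.card_empty]
    exact ⟨hy, rfl⟩
  | insert v S hv ih =>
    have hadj := clq_adj hv hS
    have hS' : G.IsClique (S : Set V) := down G _ _ (Finset.subset_insert v S) hS
    have h1 : Ch.Le (d + 1) (F.ev v y) := hy.eo _ _
    have h2 : cmp (d + 1) (F.ev v y) = F.lv (Tp p) v (cmp d y) := Ch.cmp_eo hy _ _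
    obtain ⟨h3, h4⟩ := ih hS' h1
    have h5 : d + 1 + S.card = d + (insert v S).card := by
      rw [Finset.card_insert_of_notMem hv]
      ring
    rw [h5] at h3 h4
    rw [opP_insert F.ev hv (fun w hw x => F.ev_anti (hadj w hw) x),
      opP_insert (F.lv (Tp p)) hv (fun w hw x => F.lv_anti v w x)]
    refine ⟨h3.smul _, ?_⟩
    rw [map_smul, h4, h2]

theorem lead_opE {r S : Finset V} (hS : Fl G r S) (t : Tp p) :
    Ch.Le (r.card + S.card) (F.opE r S (vac t)) ∧
      cmp (r.card + S.card) (F.opE r S (vac t)) = F.opL r S (vac t) := by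
  have hSc : G.IsClique (S : Set V) := down G _ _ Finset.subset_union_right hS.2
  have hrc : G.IsClique (r : Set V) := down G _ _ Finset.subset_union_left hS.2
  obtain ⟨h1, h2⟩ := F.lead_opP S hSc (Ch.Le.of_Dg (Dg_vac t))
  rw [cmp_of_Dg (Dg_vac t)] at h2
  obtain ⟨h3, h4⟩ := F.lead_opP r hrc h1
  rw [h2] at h4
  have h5 : 0 + S.card + r.card = r.card + S.card := by ring
  rw [h5] at h3 h4
  exact ⟨h3, h4⟩

/-- peeling off the operators of `S` -/
theorem peel (S Q : Finset V) (hd : Disjoint S Q) (hS : G.IsClique ((Q ∪ S : Finset V) : Set V)) {d : ℕ} {x : Sm n p}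
    (hx : x ∈ F.KE (Q ∪ S)) (hxd : Ch.Le (d + S.card) x) :
    ∃ y ∈ F.KE Q, Ch.Le d y ∧ opP F.ev S y = x := by
  induction S using Finset.induction_on generalizing x with
  | empty =>
    rw [Finset.union_empty] at hx
    rw [Finset.card_empty] at hxd
    exact ⟨x, hx, hxd, opP_empty _ _⟩
  | insert v S hv ih =>
    rw [Finset.disjoint_insert_left] at hd
    rw [Finset.union_insert] at hS hx
    have hvQ : v ∉ Q ∪ S := by
      rw [Finset.mem_union, not_or]
      exact ⟨hd.1, hv⟩
    have hadj := clq_adj hvQ hS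
    obtain ⟨l, hl1, hl2⟩ := F.dual' (Q ∪ S) v hvQ hS
    obtain ⟨h1, h2⟩ := F.clq.contract hl1 hl2 (F.mem_Ke.2 hx)
    rw [Finset.card_insert_of_notMem hv] at hxd
    have h3 : Ch.Le (d + S.card) (cm l x) := Ch.Le.cm (by rwa [add_assoc]) l
    obtain ⟨y, hy1, hy2, hy3⟩ := ih hd.2 (down G _ _ (Finset.subset_insert v _) hS) (F.mem_Ke.1 h1) h3
    have h4 : F.ev v (cm l x) = x := h2
    have hc : ∀ w ∈ S, ∀ x, F.ev v (F.ev w x) = -F.ev w (F.ev v x) := fun w hw x =>
      F.ev_anti (hadj w (Finset.mem_union_right _ hw)) x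
    rw [← hy3, opP_comm F.ev (F.ev v) S hc] at h4
    have h5 := opP_insert F.ev hv hc y
    have h6 : opP F.ev S (F.ev v y) = (-1 : ℝ) ^ (S.filter fun w => rk v < rk w).card • opP F.ev (insert v S) y := by
      rw [h5, smul_smul, ← mul_pow]
      norm_num
    rw [h6, smul_smul, ← map_smul] at h4
    exact ⟨_, Submodule.smul_mem _ _ hy1, hy2.smul _, h4⟩

theorem eq_vac {y : Sm n p} (hy : Ch.Le 0 y) : y = vac (y ∅) := by
  funext J
  show y J = if J = ∅ then y ∅ else 0
  split_ifs with h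
  · rw [h]
  · exact hy J (Finset.card_pos.2 (Finset.nonempty_iff_ne_empty.2 h))

/-- the elements of lowest degree in the common kernel -/
theorem eq_opE {r S : Finset V} (hS : Fl G r S) {x : Sm n p} (hx : x ∈ F.KE (r ∪ S))
    (hxd : Ch.Le (r.card + S.card) x) : ∃ t : Tp p, x = F.opE r S (vac t) := by
  obtain ⟨hd, hc⟩ := hS
  rw [Finset.union_comm] at hx hc
  rw [add_comm] at hxd
  obtain ⟨y, hy1, hy2, hy3⟩ := F.peel r S hd.symm hc hx hxd
  have hSc : G.IsClique (S : Set V) := down G _ _ Finset.subset_union_left hc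
  obtain ⟨y', -, hy5, hy6⟩ := F.peel S ∅ (Finset.disjoint_empty_right S) (by rwa [Finset.empty_union])
    (x := y) (d := 0) (by rwa [Finset.empty_union]) (by rwa [zero_add])
  refine ⟨y' ∅, ?_⟩
  rw [← eq_vac hy5]
  show x = opP F.ev r (opP F.ev S y')
  rw [hy6, hy3]

/-! ### Injectivity -/

theorem opE_inj {r S : Finset V} (hS : Fl G r S) {t : Tp p} (h : F.opE r S (vac t) = 0) : t = 0 :=
  F.iden_opE_inj hS h

theorem cm_lv (l : Fin n → ℝ) (v : V) (x : Sm n p) :
    cm l (F.lv (Tp p) v x) + F.lv (Tp p) v (cm l x) = (∑ j, l j * F.c v j) • x := by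
  have h := cp_cm (F.c v) l x
  have e : ∑ j, F.c v j * l j = ∑ j, l j * F.c v j := Finset.sum_congr rfl fun j _ => mul_comm _ _
  rw [e] at h
  rw [← h, add_comm]
  rfl

/-- products of the leading parts are injective on the vectors killed by the dual contractions -/
theorem lead_inj {T : Finset V} (hT : G.IsClique (T : Set V)) (S : Finset V) (hST : S ⊆ T) (y : Sm n p)
    (hy : ∀ v ∈ S, ∀ l : Fin n → ℝ, (∀ u ∈ T, u ≠ v → ∑ j, l j * F.c u j = 0) → cm l y = 0)
    (h : opP (F.lv (Tp p)) S y = 0) : y = 0 := by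
  induction S using Finset.induction_on with
  | empty => rwa [opP_empty] at h
  | insert v S hv ih =>
    have hvT : v ∈ T := hST (Finset.mem_insert_self v S)
    have hS : S ⊆ T := (Finset.subset_insert v S).trans hST
    obtain ⟨l, hl1, hl0⟩ := F.dual T hT v hvT
    refine ih hS (fun u hu => hy u (Finset.mem_insert_of_mem hu)) ?_
    rw [opP_insert (F.lv (Tp p)) hv (fun w hw x => F.lv_anti v w x)] at h
    have h1 := (smul_eq_zero.1 h).resolve_left (pow_ne_zero _ (by norm_num))
    have h2 := opP_comm (F.lv (Tp p)) (cm l) S (fun w hw x => by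
      have h3 := F.cm_lv l w x
      rw [hl0 w (hS hw) (fun e => hv (e ▸ hw)), zero_smul] at h3
      exact eq_neg_of_add_eq_zero_left h3) (F.lv (Tp p) v y)
    rw [h1, map_zero] at h2
    have h4 := (smul_eq_zero.1 h2.symm).resolve_left (pow_ne_zero _ (by norm_num))
    have h5 := F.cm_lv l v y
    rw [hl1, one_smul, hy v (Finset.mem_insert_self v S) l hl0, map_zero, add_zero] at h5
    rwa [h5] at h4

theorem opL_inj {r S : Finset V} (hS : Fl G r S) {t : Tp p} (h : F.opL r S (vac t) = 0) : t = 0 := by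
  have h0 : ∀ l : Fin n → ℝ, cm l (vac (n := n) t) = 0 := fun l => Dg_cm_zero (Dg_vac t) l
  have h1 : opP (F.lv (Tp p)) S (vac t) = 0 := by
    refine F.lead_inj hS.2 r Finset.subset_union_left _ (fun v hv l hl => ?_) h
    rw [opP_comm (F.lv (Tp p)) (cm l) S (fun w hw x => by
      have h3 := F.cm_lv l w x
      rw [hl w (Finset.mem_union_right _ hw) (fun e => Finset.disjoint_left.1 hS.1 hw (e ▸ hv)), zero_smul] at h3
      exact eq_neg_of_add_eq_zero_left h3), h0, map_zero, smul_zero]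
  have h2 := F.lead_inj hS.2 S Finset.subset_union_right _ (fun v _ l _ => h0 l) h1
  have h3 := congrFun h2 ∅
  simpa [vac] using h3

/-- a functional which is 1 at `x` and 0 on a clique -/
theorem exists_fn {T : Finset V} (hT : G.IsClique (T : Set V)) (hn : T.card < n) :
    ∃ l : Fin n → ℝ, ∑ j, l j * F.x j = 1 ∧ ∀ w ∈ T, ∑ j, l j * F.c w j = 0 := by
  classical
  have hx : F.x ∉ Submodule.span ℝ (F.c '' (T : Set V)) := by
    intro hx
    rw [Submodule.mem_span_image_finset_iff_exists_fun] at hx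
    obtain ⟨b, hb⟩ := hx
    refine F.gen T hT hn (fun v => if h : v ∈ T then b ⟨v, h⟩ else 0) fun j => ?_
    have h1 := congrFun hb j
    rw [Finset.sum_apply] at h1
    rw [← h1, ← Finset.sum_coe_sort]
    refine Finset.sum_congr rfl fun v _ => ?_
    rw [dif_pos v.2]
    rfl
  obtain ⟨φ, h1, h2⟩ := Submodule.exists_dual_map_eq_bot_of_notMem hx inferInstance
  have h3 : ∀ y : Fin n → ℝ, ∑ j, (φ F.x)⁻¹ * φ (Pi.single j 1) * y j = (φ F.x)⁻¹ * φ y := by
    intro y
    have h4 : y = ∑ j, y j • (Pi.single j (1 : ℝ) : Fin n → ℝ) := by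
      funext k
      simp [Finset.sum_apply, Pi.single_apply]
    conv_rhs => rw [h4]
    rw [map_sum, Finset.mul_sum]
    refine Finset.sum_congr rfl fun j _ => ?_
    rw [map_smul, smul_eq_mul]
    ring
  refine ⟨fun j => (φ F.x)⁻¹ * φ (Pi.single j 1), ?_, fun w hw => ?_⟩
  · rw [h3, inv_mul_cancel₀ h1]
  · rw [h3]
    have h5 : φ (F.c w) ∈ (Submodule.span ℝ (F.c '' (T : Set V))).map φ :=
      Submodule.mem_map_of_mem (Submodule.subset_span ⟨w, hw, rfl⟩)
    rw [h2, Submodule.mem_bot] at h5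
    rw [h5, mul_zero]

theorem opL_x_inj {r S : Finset V} (hS : Fl G r S) (hn : r.card + S.card < n) {t : Tp p}
    (h : F.opL r S (cp F.x (vac t)) = 0) : t = 0 := by
  have hc : (r ∪ S).card < n := lt_of_le_of_lt (Finset.card_union_le r S) hn
  obtain ⟨l, hl1, hl2⟩ := F.exists_fn hS.2 hc
  have h1 : cm l (cp F.x (vac (n := n) t)) = vac t := by
    have h2 := cp_cm F.x l (vac (n := n) t)
    rw [Dg_cm_zero (Dg_vac t), map_zero, zero_add] at h2
    rw [h2]
    have e : ∑ j, F.x j * l j = ∑ j, l j * F.x j := Finset.sum_congr rfl fun j _ => mul_comm _ _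
    rw [e, hl1, one_smul]
  have hcm : ∀ T : Finset V, T ⊆ r ∪ S → ∀ w ∈ T, ∀ x, cm l (F.lv (Tp p) w x) = -F.lv (Tp p) w (cm l x) := by
    intro T hT w hw x
    have h3 := F.cm_lv l w x
    rw [hl2 w (hT hw), zero_smul] at h3
    exact eq_neg_of_add_eq_zero_left h3
  have h4 : cm l (F.opL r S (cp F.x (vac t))) = 0 := by rw [h, map_zero]
  have h5 : cm l (F.opL r S (cp F.x (vac t))) = (-1 : ℝ) ^ r.card • (-1 : ℝ) ^ S.card • F.opL r S (vac t) := by
    show cm l (opP (F.lv (Tp p)) r (opP (F.lv (Tp p)) S (cp F.x (vac t)))) = _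
    rw [opP_comm (F.lv (Tp p)) (cm l) r (hcm r Finset.subset_union_left),
      opP_comm (F.lv (Tp p)) (cm l) S (hcm S Finset.subset_union_right), h1, map_smul]
    rfl
  rw [h5] at h4
  have h6 := (smul_eq_zero.1 h4).resolve_left (pow_ne_zero _ (by norm_num))
  have h7 := (smul_eq_zero.1 h6).resolve_left (pow_ne_zero _ (by norm_num))
  exact F.opL_inj hS h7

/-! ### Chains -/

theorem opE_mem {r S : Finset V} (hS : Fl G r S) (y : Sm n p) : F.opE r S y ∈ F.KE (r ∪ S) := by
  rw [F.mem_KE]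
  have hadj : ∀ u ∈ r ∪ S, ∀ w ∈ r ∪ S, u ≠ w → ∀ x, F.ev u (F.ev w x) = -F.ev w (F.ev u x) :=
    fun u hu w hw huw x => F.ev_anti (hS.2 (by exact_mod_cast hu) (by exact_mod_cast hw) huw) x
  intro w hw
  show F.ev w (opP F.ev r (opP F.ev S y)) = 0
  rcases Finset.mem_union.1 hw with hwr | hwS
  · have h1 := opP_mem F.ev (S := r) (fun v _ x => F.ev_sq v x) (fun u hu w hw huw x =>
      hadj u (Finset.mem_union_left _ hu) w (Finset.mem_union_left _ hw) huw x) (opP F.ev S y)
    exact mem_kr.1 h1 w hwr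
  · have h1 := opP_mem F.ev (S := S) (fun v _ x => F.ev_sq v x) (fun u hu w hw huw x =>
      hadj u (Finset.mem_union_right _ hu) w (Finset.mem_union_right _ hw) huw x) y
    rw [opP_comm F.ev (F.ev w) r (fun u hu x => hadj w hw u (Finset.mem_union_left _ hu)
      (fun e => Finset.disjoint_left.1 hS.1 hwS (e ▸ hu)) x), mem_kr.1 h1 w hwS, map_zero, smul_zero]

theorem chE_mem {r : Finset V} (hr : G.IsClique (r : Set V)) (i : ℕ) (a : Finset V → Tp p) :
    ChP (lkP G F.KE r) i (F.chE r i a) := by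
  intro S
  unfold chE
  by_cases h : Fl G r S ∧ S.card = i
  · rw [if_pos h]
    refine ⟨?_, fun _ => h.2⟩
    unfold lkP
    rw [if_pos h.1]
    exact F.opE_mem h.1 _
  · rw [if_neg h]
    exact ⟨Submodule.zero_mem _, fun h0 => absurd rfl h0⟩

/-- the leading part of the chain `e_r e_S a_S` -/
theorem chL_eq (r : Finset V) (i : ℕ) (a : Finset V → Tp p) (S : Finset V) :
    F.chL r i a S = cmp (r.card + i) (F.chE r i a S) := by
  unfold chL chE
  by_cases h : Fl G r S ∧ S.card = i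
  · rw [if_pos h, if_pos h, ← h.2, (F.lead_opE h.1 (a S)).2]
  · rw [if_neg h, if_neg h, map_zero]

theorem chE_le (r : Finset V) (i : ℕ) (a : Finset V → Tp p) (S : Finset V) :
    Ch.Le (r.card + i) (F.chE r i a S) := by
  unfold chE
  by_cases h : Fl G r S ∧ S.card = i
  · rw [if_pos h, ← h.2]
    exact (F.lead_opE h.1 (a S)).1
  · rw [if_neg h]
    exact fun a _ => rfl

theorem bd_chL_eq (r : Finset V) (i : ℕ) (a : Finset V → Tp p) (S : Finset V) :
    Re.bd (F.chL r i a) S = cmp (r.card + i) (Re.bd (F.chE r i a) S) := by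
  have e1 : F.chL r i a = fun S => (cmp (r.card + i) : Sm n p →ₗ[ℝ] Sm n p).toAddMonoidHom (F.chE r i a S) :=
    funext fun S => F.chL_eq r i a S
  rw [e1, bd_eq', bd_eq', Ch.bd_map]
  rfl

/-- a chain whose boundary has low degree is, up to a boundary, of the form `e_r e_S a_S` -/
theorem exists_low (hG : Sp G n) {r : Finset V} (hr : G.IsClique (r : Set V)) {i : ℕ} {z : Finset V → Sm n p}
    (hz : ChP (lkP G F.KE r) i z) (hb : ∀ S, Ch.Le (r.card + i) (Re.bd z S)) :
    ∃ (y : Finset V → Sm n p) (a : Finset V → Tp p), ChP (lkP G F.KE r) (i + 1) y ∧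
      ∀ S, z S = Re.bd y S + F.chE r i a S := by
  obtain ⟨h1, h2⟩ := (chP_iff' G _ r i z).1 hz
  obtain ⟨y, hy1, hy2, -, hy4⟩ := F.clq.lower rk_inj' (sphN_of hG (Sm n p)) n (m := r) (i := i) h1
    (fun S => F.mem_Ke.2 (h2 S)) (fun S => (Ch.Le.top (z S)).mono (by omega))
    (fun S => by rw [← bd_eq']; exact hb S)
  have hyC : ChP (lkP G F.KE r) (i + 1) y := (chP_iff' G _ r (i + 1) y).2 ⟨hy1, fun S => F.mem_Ke.1 (hy2 S)⟩
  have hbS : Ch.Spt (fun S : Finset V => G.IsClique (S : Set V)) r i (Ch.bd rk y) := hy1.bd (down G)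
  have hK : ∀ S, (z - Ch.bd rk y) S ∈ F.KE (r ∪ S) := by
    intro S
    rw [Pi.sub_apply, ← bd_eq']
    refine Submodule.sub_mem _ (h2 S) ?_
    unfold Re.bd
    refine Submodule.sum_mem _ fun v _ => zsmul_mem (F.KE_anti ?_ (F.mem_Ke.1 (hy2 (insert v S)))) _
    exact Finset.union_subset_union_right (Finset.subset_insert v S)
  have hex : ∀ S, ∃ t : Tp p, Fl G r S ∧ S.card = i → (z - Ch.bd rk y) S = F.opE r S (vac t) := by
    intro S
    by_cases h : Fl G r S ∧ S.card = i
    · have h3 := hy4 S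
      rw [← h.2] at h3
      obtain ⟨t, ht⟩ := F.eq_opE h.1 (hK S) h3
      exact ⟨t, fun _ => ht⟩
    · exact ⟨0, fun h' => absurd h' h⟩
  choose a ha using hex
  refine ⟨y, a, hyC, fun S => ?_⟩
  rw [bd_eq']
  unfold chE
  by_cases h : Fl G r S ∧ S.card = i
  · rw [if_pos h, ← ha S h, Pi.sub_apply]
    abel
  · rw [if_neg h, add_zero]
    have h3 : z S = 0 := by
      by_contra h0
      exact h (((spt_iff G r i z).1 h1) S h0)
    have h4 : Ch.bd rk y S = 0 := by
      by_contra h0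
      exact h (((spt_iff G r i _).1 hbS) S h0)
    rw [h3, h4]

theorem bd_chE_low {r : Finset V} {i : ℕ} {z y : Finset V → Sm n p} {a : Finset V → Tp p}
    (h : ∀ S, z S = Re.bd y S + F.chE r i a S) (S : Finset V) : Re.bd (F.chE r i a) S = Re.bd z S := by
  have e : F.chE r i a = z - Ch.bd rk y := by
    funext S
    rw [Pi.sub_apply, ← bd_eq', h S]
    abel
  rw [bd_eq', bd_eq', e, map_sub, Ch.bd_bd rk_inj', sub_zero]

/-- every cycle is homologous to a cycle of the form `e_r e_S a_S` with balanced `a` -/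
theorem exists_lead (hG : Sp G n) {r : Finset V} (hr : G.IsClique (r : Set V)) {i : ℕ} {z : Finset V → Sm n p}
    (hz : ChP (lkP G F.KE r) i z) (hz0 : ∀ S, bd z S = 0) :
    ∃ (y : Finset V → Sm n p) (a : Finset V → Tp p), ChP (lkP G F.KE r) (i + 1) y ∧
      (∀ S, z S = bd y S + F.chE r i a S) ∧ ∀ S, bd (F.chL r i a) S = 0 := by
  obtain ⟨y, a, h1, h2⟩ := F.exists_low hG hr hz (fun S => by rw [hz0 S]; exact fun _ _ => rfl)
  refine ⟨y, a, h1, h2, fun S => ?_⟩
  rw [F.bd_chL_eq, F.bd_chE_low h2, hz0, map_zero]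

/-- a chain `e_r e_S a_S` which is a boundary is the boundary of such a chain -/
theorem exists_lead_bd (hG : Sp G n) {r : Finset V} (hr : G.IsClique (r : Set V)) {i : ℕ} {y : Finset V → Sm n p}
    {a : Finset V → Tp p} (hy : ChP (lkP G F.KE r) (i + 1) y) (h : ∀ S, bd y S = F.chE r i a S) :
    ∃ a' : Finset V → Tp p, (∀ S, bd (F.chE r (i + 1) a') S = F.chE r i a S) ∧
      ∀ S, bd (F.chL r (i + 1) a') S = 0 := by
  obtain ⟨y', a', h1, h2⟩ := F.exists_low hG hr hy (fun S => by
    rw [h S]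
    exact (F.chE_le r i a S).mono (by omega))
  refine ⟨a', fun S => ?_, fun S => ?_⟩
  · rw [F.bd_chE_low h2, h]
  · rw [F.bd_chL_eq, F.bd_chE_low h2, h]
    funext J
    rw [cmp_apply]
    split_ifs with hJ
    · exact F.chE_le r i a S J (by omega)
    · rfl

end Fan

end

end Hr
end Singer
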