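import Pool.Agent.Singer.Hr.Iden
import Pool.Agent.Singer.Hr.Lead
import Pool.Agent.Singer.Hr.Ext

/-!
# Singer/Hr: comparison of the chain complex and the facet functions

* `split_of_exact`: if the complex of the link of `r` is exact in degree `i`, every `g` with `g` and `DD g` in
  `GG r i` is a sum of an element of `GG r (i + 1)` and the image under `DD` of another one;
* `exists_rep`: every cycle is homologous to the chain of the vectors `e_r e_S al_(r ∪ S)(g)` of such a `g`;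
* `bdry_of_split`: for the sums above these chains are boundaries.

(note B6 of MP_984acc_REAL_h16.md)
-/

set_option autoImplicit false
set_option linter.unusedSectionVars false
set_option linter.unusedVariables false

namespace Singer
namespace Hr

open Singer.Re Pool.Agent.Helper34.Car

noncomputable section

variable {V : Type} [Fintype V] [DecidableEq V]

theorem comp_bd_bd {M : Type} [AddCommGroup M] (y : Finset V → M) (S : Finset V) : bd (bd y) S = 0 := by
  unfold bd
  simp only [Finset.smul_sum]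
  rw [Finset.sum_sigma']
  refine Finset.sum_involution (fun x _ => ⟨x.2, x.1⟩) ?_ ?_ ?_ ?_
  · rintro ⟨v, w⟩ h
    simp only [Finset.mem_sigma, Finset.mem_compl, Finset.mem_insert, not_or] at h
    obtain ⟨hv, hwv, hw⟩ := h
    have h1 := sgz_anti (r := rk) rk_inj hv hw (fun e => hwv e.symm)
    simp only
    rw [smul_smul, smul_smul, Finset.insert_comm v w S, ← add_smul, h1, neg_add_cancel, zero_smul]
  · rintro ⟨v, w⟩ h _ h2
    simp only [Finset.mem_sigma, Finset.mem_compl, Finset.mem_insert, not_or] at h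
    have h3 : w = v := congrArg Sigma.fst h2
    exact h.2.1 h3
  · rintro ⟨v, w⟩ h
    simp only [Finset.mem_sigma, Finset.mem_compl, Finset.mem_insert, not_or] at h ⊢
    exact ⟨h.2.2, fun e => h.2.1 e.symm, h.1⟩
  · rintro ⟨v, w⟩ _
    rfl

theorem comp_bd_smul {M : Type} [AddCommGroup M] [Module ℝ M] (a : ℝ) (y : Finset V → M) (S : Finset V) :
    bd (fun T => a • y T) S = a • bd y S := by
  unfold bd
  rw [Finset.smul_sum]
  exact Finset.sum_congr rfl fun v _ => smul_comm _ _ _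

theorem comp_bd_sub {M : Type} [AddCommGroup M] (y z : Finset V → M) (S : Finset V) :
    bd (fun T => y T - z T) S = bd y S - bd z S := by
  unfold bd
  rw [← Finset.sum_sub_distrib]
  exact Finset.sum_congr rfl fun v _ => smul_sub _ _ _

theorem comp_ChP_smul {M : Type} [AddCommGroup M] [Module ℝ M] {P : Finset V → Submodule ℝ M} {i : ℕ}
    {y : Finset V → M} (a : ℝ) (hy : ChP P i y) : ChP P i fun T => a • y T := by
  intro S
  refine ⟨(P S).smul_mem a (hy S).1, fun h => (hy S).2 fun h' => h ?_⟩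
  dsimp only
  rw [h', smul_zero]

namespace Fan
variable {G : SimpleGraph V} {n p : ℕ} (F : Fan G n p)

theorem comp_al_add (g h : Finset V → Tp p) (θ : Finset V) : F.al (g + h) θ = F.al g θ + F.al h θ := by
  unfold al
  rw [← Finset.sum_add_distrib]
  exact Finset.sum_congr rfl fun R _ => by rw [Pi.add_apply, smul_add]

theorem comp_al_smul (a : ℝ) (g : Finset V → Tp p) (θ : Finset V) : F.al (a • g) θ = a • F.al g θ := by
  unfold al
  rw [Finset.smul_sum]
  exact Finset.sum_congr rfl fun R _ => by rw [Pi.smul_apply, smul_comm]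

theorem comp_al_sub (g h : Finset V → Tp p) (θ : Finset V) : F.al (g - h) θ = F.al g θ - F.al h θ := by
  unfold al
  rw [← Finset.sum_sub_distrib]
  exact Finset.sum_congr rfl fun R _ => by rw [Pi.sub_apply, smul_sub]

theorem comp_GG_mono {r : Finset V} {d e : ℕ} (h : d ≤ e) {g : Finset V → Tp p} (hg : g ∈ F.GG r e) : g ∈ F.GG r d :=
  ⟨hg.1, fun S hS hd => hg.2 S hS (hd.trans_le h)⟩

/-- the boundary of the chain of `g ∈ GG r (i + 1)` in degree `i + 1` -/
theorem comp_bd_top {r : Finset V} {i : ℕ} {g : Finset V → Tp p} (hg : g ∈ F.GG r (i + 1)) (S : Finset V) :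
    bd (F.chE r (i + 1) fun T => F.al g (r ∪ T)) S =
      (-1 : ℝ) ^ i • F.chE r i (fun T => F.al (F.DD g) (r ∪ T)) S := by
  by_cases hS : Fl G r S ∧ S.card = i
  · obtain ⟨hS, rfl⟩ := hS
    rw [F.bd_chE g hS, hg.2 S hS (by omega)]
    unfold chE
    rw [if_pos ⟨hS, rfl⟩]
    simp only [map_zero, add_zero]
  · rw [F.bd_chE_of_not r i _ hS]
    unfold chE
    rw [if_neg hS, smul_zero]

theorem comp_chE_congr {r : Finset V} {i : ℕ} {a b : Finset V → Tp p} (h : ∀ S, Fl G r S → S.card = i → a S = b S)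
    (S : Finset V) : F.chE r i a S = F.chE r i b S := by
  unfold chE
  split_ifs with hS
  · rw [h S hS.1 hS.2]
  · rfl

theorem comp_chE_inj {r : Finset V} {i : ℕ} {a b : Finset V → Tp p} (h : ∀ S, F.chE r i a S = F.chE r i b S)
    {S : Finset V} (hS : Fl G r S) (hc : S.card = i) : a S = b S := by
  have h1 := h S
  unfold chE at h1
  rw [if_pos ⟨hS, hc⟩, if_pos ⟨hS, hc⟩] at h1
  have h2 : F.opE r S (vac (a S - b S)) = 0 := by
    rw [_root_.map_sub, _root_.map_sub, h1, sub_self]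
  exact sub_eq_zero.1 (F.iden_opE_inj hS h2)

theorem comp_chE_smul (r : Finset V) (i : ℕ) (s : ℝ) (a : Finset V → Tp p) (S : Finset V) :
    s • F.chE r i a S = F.chE r i (fun T => s • a T) S := by
  unfold chE
  split_ifs with hS
  · rw [map_smul, map_smul]
  · rw [smul_zero]

/-- the chain of `g` is a cycle if `g` and `DD g` are in `GG r i` -/
theorem comp_cycle {r : Finset V} {i : ℕ} {g : Finset V → Tp p} (hg : g ∈ F.GG r i) (hg' : F.DD g ∈ F.GG r i)
    (S : Finset V) : bd (F.chE r i fun T => F.al g (r ∪ T)) S = 0 := by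
  rcases i with _ | i
  · unfold bd
    refine Finset.sum_eq_zero fun v hv => ?_
    unfold chE
    rw [if_neg, smul_zero]
    rintro ⟨_, h2⟩
    rw [Finset.card_eq_zero] at h2
    exact absurd h2 (Finset.insert_ne_empty v S)
  · rw [F.comp_bd_top hg]
    unfold chE
    split_ifs with hS
    · dsimp only
      rw [hg'.2 S hS.1 (by omega), map_zero, map_zero, smul_zero]
    · rw [smul_zero]

/-- conversely, `DD g ∈ GG r i` if `g ∈ GG r i` and the chain of `g` is a cycle -/
theorem comp_DD_mem {r : Finset V} {i : ℕ} {g : Finset V → Tp p} (hg : g ∈ F.GG r i)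
    (h : ∀ S, bd (F.chE r i fun T => F.al g (r ∪ T)) S = 0) : F.DD g ∈ F.GG r i := by
  rcases i with _ | i
  · exact ⟨F.DD_ER hg.1, fun S _ hd => absurd hd (Nat.not_lt_zero _)⟩
  · refine ⟨F.DD_ER hg.1, fun S hS hd => ?_⟩
    rcases Nat.lt_succ_iff_lt_or_eq.1 hd with h1 | h1
    · exact (F.DD_GG hg).2 S hS h1
    · have h2 : ∀ T, F.chE r i (fun T => F.al (F.DD g) (r ∪ T)) T = F.chE r i (fun _ => 0) T := by
        intro T
        have h3 := h T
        rw [F.comp_bd_top hg] at h3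
        rw [(smul_eq_zero.1 h3).resolve_left (pow_ne_zero _ (by norm_num))]
        unfold chE
        split_ifs
        · rw [map_zero, map_zero]
        · rfl
      exact F.comp_chE_inj h2 hS h1

theorem split_of_exact (hG : Sp G n) {r : Finset V} (hr : G.IsClique (r : Set V)) {i : ℕ} (hex : ExP (lkP G F.KE r) i)
    {g : Finset V → Tp p} (hg : g ∈ F.GG r i) (hg' : F.DD g ∈ F.GG r i) :
    ∃ g₁ ∈ F.GG r (i + 1), ∃ g₂ ∈ F.GG r (i + 1), g = g₁ + F.DD g₂ := by
  obtain ⟨y, hy, hyz⟩ := hex _ (F.chE_mem hr i fun T => F.al g (r ∪ T)) (F.comp_cycle hg hg')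
  obtain ⟨a, ha, ha'⟩ := F.exists_lead_bd hG hr hy hyz
  obtain ⟨g₂, hg₂, hga⟩ := F.exists_al hG hr ha'
  have h1 : ∀ T, F.chE r (i + 1) (fun T => F.al g₂ (r ∪ T)) T = F.chE r (i + 1) a T := F.comp_chE_congr hga
  have h2 : ∀ S, F.chE r i (fun T => (-1 : ℝ) ^ i • F.al (F.DD g₂) (r ∪ T)) S =
      F.chE r i (fun T => F.al g (r ∪ T)) S := by
    intro S
    rw [← ha S, ← F.comp_chE_smul, ← F.comp_bd_top hg₂ S]
    congr 1
    funext T
    exact h1 T
  have h3 : F.DD ((-1 : ℝ) ^ i • g₂) = (-1 : ℝ) ^ i • F.DD g₂ := map_smul _ _ _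
  have h4 : (-1 : ℝ) ^ i • g₂ ∈ F.GG r (i + 1) := (F.GG r (i + 1)).smul_mem _ hg₂
  refine ⟨g - F.DD ((-1 : ℝ) ^ i • g₂), ⟨?_, fun S hS hd => ?_⟩, (-1 : ℝ) ^ i • g₂, h4, ?_⟩
  · exact (ER G n p r).sub_mem hg.1 (F.DD_GG h4).1
  · rw [F.comp_al_sub]
    rcases Nat.lt_succ_iff_lt_or_eq.1 hd with h5 | h5
    · rw [hg.2 S hS h5, (F.DD_GG h4).2 S hS h5, sub_zero]
    · have h6 := F.comp_chE_inj h2 hS h5
      rw [h3, F.comp_al_smul, h6, sub_self]
  · rw [sub_add_cancel]

theorem exists_rep (hG : Sp G n) {r : Finset V} (hr : G.IsClique (r : Set V)) {i : ℕ} {z : Finset V → Sm n p}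
    (hz : ChP (lkP G F.KE r) i z) (hz0 : ∀ S, bd z S = 0) :
    ∃ (y : Finset V → Sm n p), ∃ g ∈ F.GG r i, F.DD g ∈ F.GG r i ∧ ChP (lkP G F.KE r) (i + 1) y ∧
      ∀ S, z S = bd y S + F.chE r i (fun T => F.al g (r ∪ T)) S := by
  obtain ⟨y, a, hy, hya, ha⟩ := F.exists_lead hG hr hz hz0
  obtain ⟨g, hg, hga⟩ := F.exists_al hG hr ha
  have h1 : ∀ T, F.chE r i (fun T => F.al g (r ∪ T)) T = F.chE r i a T := F.comp_chE_congr hga
  refine ⟨y, g, hg, F.comp_DD_mem hg fun S => ?_, hy, fun S => by rw [h1, hya S]⟩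
  have h2 : (F.chE r i fun T => F.al g (r ∪ T)) = fun T => z T - bd y T := by
    funext T
    rw [h1 T, hya T, add_sub_cancel_left]
  rw [h2, comp_bd_sub, hz0 S, comp_bd_bd, sub_zero]

theorem bdry_of_split {r : Finset V} (hr : G.IsClique (r : Set V)) {i : ℕ} {g g₁ g₂ : Finset V → Tp p}
    (h₁ : g₁ ∈ F.GG r (i + 1)) (h₂ : g₂ ∈ F.GG r (i + 1)) (hg : g = g₁ + F.DD g₂) :
    ∃ y, ChP (lkP G F.KE r) (i + 1) y ∧ ∀ S, bd y S = F.chE r i (fun T => F.al g (r ∪ T)) S := by
  refine ⟨fun T => (-1 : ℝ) ^ i • F.chE r (i + 1) (fun T => F.al g₂ (r ∪ T)) T,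
    comp_ChP_smul _ (F.chE_mem hr (i + 1) _), fun S => ?_⟩
  rw [comp_bd_smul, F.comp_bd_top h₂ S, smul_smul, ← mul_pow]
  have h3 : ((-1 : ℝ) * -1) ^ i = 1 := by norm_num
  rw [h3, one_smul]
  refine F.comp_chE_congr (fun T hT hi => ?_) S
  rw [hg, F.comp_al_add, h₁.2 T hT (by omega), zero_add]

end Fan

end

end Hr
end Singer
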