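import Pool.Agent.Singer.Hr.Local
import Pool.Agent.Helper34.Car.Mixed

/-!
# Singer/Hr: exactness of the leading parts below the diagonal
-/

set_option autoImplicit false
set_option linter.unusedSectionVars false
set_option linter.unusedVariables false

namespace Singer
namespace Hr

open Singer.Re Pool.Agent.Helper34 Pool.Agent.Helper34.Car

noncomputable section

variable {V : Type} [Fintype V] [DecidableEq V]

/-- support conditions -/
theorem spt_iff (G : SimpleGraph V) {M : Type} [AddCommGroup M] [Module ℝ M] (r : Finset V) (i : ℕ)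
    (z : Finset V → M) : Ch.Spt (fun S : Finset V => G.IsClique (S : Set V)) r i z ↔
      ∀ S, z S ≠ 0 → Fl G r S ∧ S.card = i :=
  ⟨fun h S hS => ⟨⟨(h S hS).2.1.symm, (h S hS).1⟩, (h S hS).2.2⟩,
    fun h S hS => ⟨(h S hS).1.2, (h S hS).1.1.symm, (h S hS).2⟩⟩

theorem chP_iff' (G : SimpleGraph V) {M : Type} [AddCommGroup M] [Module ℝ M] (K : Finset V → Submodule ℝ M)
    (r : Finset V) (i : ℕ) (z : Finset V → M) : ChP (lkP G K r) i z ↔
      Ch.Spt (fun S : Finset V => G.IsClique (S : Set V)) r i z ∧ ∀ S, z S ∈ K (r ∪ S) := by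
  rw [chP_iff]
  constructor
  · rintro ⟨h1, h2⟩
    exact ⟨fun S hS => ⟨(h1 S hS).1, (h1 S hS).2.1, (h1 S hS).2.2.2⟩, h2⟩
  · rintro ⟨h1, h2⟩
    exact ⟨fun S hS => ⟨(h1 S hS).1, (h1 S hS).2.1, Finset.disjoint_empty_left S, (h1 S hS).2.2⟩, h2⟩

/-- the sphere condition -/
theorem sphN_of {G : SimpleGraph V} {n : ℕ} (hG : Sp G n) (M : Type) [AddCommGroup M] [Module ℝ M] :
    Ch.SphN M rk (fun S : Finset V => G.IsClique (S : Set V)) n := by
  intro m i hi z hz hb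
  by_cases hm : G.IsClique (m : Set V)
  · obtain ⟨y, hy, hyz⟩ := hG.acy m hm M ⊤ i (by omega) z
      ((chP_iff' G (fun _ => (⊤ : Submodule ℝ M)) m i z).2 ⟨hz, fun S => Submodule.mem_top⟩) (bd_zero_iff.2 hb)
    exact ⟨y, ((chP_iff' G (fun _ => (⊤ : Submodule ℝ M)) m (i + 1) y).1 hy).1, bd_eq_iff.1 hyz⟩
  · refine ⟨0, fun S hS => absurd rfl hS, ?_⟩
    rw [map_zero]
    funext S
    by_contra h0
    exact hm (down G _ _ Finset.subset_union_left (hz S (Ne.symm h0)).1)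

namespace Fan
variable {G : SimpleGraph V} {n p : ℕ} (F : Fan G n p)

theorem dual' (T : Finset V) (v : V) (hv : v ∉ T) (hT : G.IsClique ((insert v T : Finset V) : Set V)) :
    ∃ l : Fin n → ℝ, (∑ j, F.c v j * l j = 1) ∧ ∀ w ∈ T, ∑ j, F.c w j * l j = 0 := by
  obtain ⟨l, h1, h2⟩ := F.dual (insert v T) hT v (Finset.mem_insert_self v T)
  refine ⟨l, ?_, fun w hw => ?_⟩
  · rw [← h1]
    exact Finset.sum_congr rfl fun j _ => mul_comm _ _
  · rw [← h2 w (Finset.mem_insert_of_mem hw) (fun h => hv (h ▸ hw))]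
    exact Finset.sum_congr rfl fun j _ => mul_comm _ _

section KL
variable (T : Type) [AddCommGroup T] [Module ℝ T]

theorem mem_KL_iff {d : ℕ} {S : Finset V} {x : Finset (Fin n) → T} : x ∈ F.KL T d S ↔ x ∈ Ch.Kx F.c S d := by
  unfold KL kr
  rw [Submodule.mem_inf, Submodule.mem_iInf]
  constructor
  · rintro ⟨h1, h2⟩
    refine ⟨fun w hw => ?_, h1⟩
    have h3 := h2 w
    rw [Submodule.mem_iInf] at h3
    exact h3 hw
  · rintro ⟨h1, h2⟩
    refine ⟨h2, fun w => ?_⟩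
    rw [Submodule.mem_iInf]
    exact fun hw => h1 w hw

theorem exL (hG : Sp G n) {r : Finset V} (hr : G.IsClique (r : Set V)) {i d : ℕ} (hid : i < d) :
    ExP (lkP G (F.KL T (r.card + d)) r) i := by
  intro z hz hb
  obtain ⟨h1, h2⟩ := (chP_iff' G _ r i z).1 hz
  obtain ⟨y, hy1, hy2, hy3⟩ := Ch.ex_full (N := T) rk_inj' (down G) (sphN_of hG (Finset (Fin n) → T)) F.dual' r
    hid z h1 (fun S => (F.mem_KL_iff T).1 (h2 S)) (bd_zero_iff.1 hb)
  exact ⟨y, (chP_iff' G _ r (i + 1) y).2 ⟨hy1, fun S => (F.mem_KL_iff T).2 (hy2 S)⟩, bd_eq_iff.2 hy3⟩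

end KL

end Fan

end

end Hr
end Singer
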