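import Pool.Agent.Singer.Hr.DimA
import Pool.Agent.Singer.Hr.Iden
import Pool.Agent.Singer.Hr.CM
import Pool.Agent.Singer.Hr.Ext

/-!
# Singer/Hr: dimensions of the filtration

* `dim_finrank_chs`, `finrank_zs`: chains and cycles with coefficients in the leading parts;
* `finrank_GG`: the quotient of `GG r d` by `GG r (d + 1)` has dimension `nn r d * dim (Tp p)`.
-/

set_option autoImplicit false
set_option linter.unusedSectionVars false
set_option linter.unusedVariables false

namespace Singer
namespace Hr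

open Singer.Re Pool.Agent.Helper34.Car

noncomputable section

variable {V : Type} [Fintype V] [DecidableEq V]

/-! ### The boundary of a boundary -/

theorem dim_sgz_insert {v w : V} {S : Finset V} (hv : v ∉ S) :
    sgz rk w (insert v S) = sgz rk w S * (if rk v < rk w then -1 else 1) := by
  unfold sgz
  rw [Finset.filter_insert]
  split_ifs with h
  · rw [Finset.card_insert_of_notMem (fun h' => hv (Finset.mem_filter.1 h').1), pow_succ]
  · rw [mul_one]

section bdbd
variable {M : Type} [AddCommGroup M] [Module ℝ M]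

theorem dim_bd_bd (z : Finset V → M) (S : Finset V) : bd (fun R => bd z R) S = 0 := by
  set f : V → V → M := fun v w => if v ∉ S ∧ w ∉ S ∧ v ≠ w then
    (sgz rk v S * sgz rk w (insert v S)) • z (insert w (insert v S)) else 0 with hf
  have h1 : bd (fun R => bd z R) S = ∑ v, ∑ w, f v w := by
    unfold bd
    rw [← Finset.sum_subset (Finset.subset_univ Sᶜ)]
    · refine Finset.sum_congr rfl fun v hv => ?_
      have hv' := Finset.mem_compl.1 hv
      rw [← Finset.sum_subset (Finset.subset_univ (insert v S)ᶜ), Finset.smul_sum]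
      · refine Finset.sum_congr rfl fun w hw => ?_
        rw [Finset.mem_compl, Finset.mem_insert, not_or] at hw
        rw [hf]
        dsimp only
        rw [if_pos ⟨hv', hw.2, fun e => hw.1 e.symm⟩, mul_smul]
      · intro w _ hw
        rw [Finset.mem_compl, not_not, Finset.mem_insert] at hw
        rw [hf]
        dsimp only
        rw [if_neg]
        rintro ⟨_, h2, h3⟩
        rcases hw with hw | hw
        · exact h3 hw.symm
        · exact h2 hw
    · intro v _ hv
      rw [Finset.mem_compl, not_not] at hv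
      refine Finset.sum_eq_zero fun w _ => ?_
      rw [hf]
      dsimp only
      rw [if_neg]
      rintro ⟨h2, _⟩
      exact h2 hv
  have h2 : ∀ v w, f w v = -f v w := by
    intro v w
    rw [hf]
    dsimp only
    by_cases h : v ∉ S ∧ w ∉ S ∧ v ≠ w
    · rw [if_pos h, if_pos ⟨h.2.1, h.1, fun e => h.2.2 e.symm⟩, dim_sgz_insert h.1, dim_sgz_insert h.2.1,
        Finset.insert_comm v w, ← neg_smul]
      congr 1
      have hne : rk v ≠ rk w := fun e => h.2.2 (rk_inj e)
      rcases lt_or_gt_of_ne hne with h3 | h3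
      · rw [if_pos h3, if_neg (by omega)]
        ring
      · rw [if_pos h3, if_neg (by omega)]
        ring
    · rw [if_neg h, if_neg, neg_zero]
      rintro ⟨h3, h4, h5⟩
      exact h ⟨h4, h3, fun e => h5 e.symm⟩
  have h3 : ∑ v, ∑ w, f v w = -∑ v, ∑ w, f v w := by
    conv_lhs => rw [Finset.sum_comm]
    rw [← Finset.sum_neg_distrib]
    refine Finset.sum_congr rfl fun v _ => ?_
    rw [← Finset.sum_neg_distrib]
    exact Finset.sum_congr rfl fun w _ => h2 v w
  have h4 : (2 : ℝ) • ∑ v, ∑ w, f v w = 0 := by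
    rw [two_smul]
    nth_rewrite 2 [h3]
    exact add_neg_cancel _
  rw [h1]
  exact (smul_eq_zero.1 h4).resolve_left two_ne_zero

/-- the space of chains -/
def dim_chs (P : Finset V → Submodule ℝ M) (i : ℕ) : Submodule ℝ (Finset V → M) where
  carrier := {z | ChP P i z}
  zero_mem' := fun S => ⟨(P S).zero_mem, fun h => absurd rfl h⟩
  add_mem' := by
    intro z w hz hw S
    refine ⟨(P S).add_mem (hz S).1 (hw S).1, fun h => ?_⟩
    by_cases h1 : z S = 0
    · refine (hw S).2 fun h2 => h ?_
      rw [Pi.add_apply, h1, h2, add_zero]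
    · exact (hz S).2 h1
  smul_mem' := by
    intro c z hz S
    refine ⟨(P S).smul_mem c (hz S).1, fun h => ?_⟩
    refine (hz S).2 fun h2 => h ?_
    rw [Pi.smul_apply, h2, smul_zero]

theorem dim_mem_chs {P : Finset V → Submodule ℝ M} {i : ℕ} {z : Finset V → M} : z ∈ dim_chs P i ↔ ChP P i z := Iff.rfl

theorem dim_bd_mem {G : SimpleGraph V} {K : Finset V → Submodule ℝ M} (hK : ∀ S T, S ⊆ T → K T ≤ K S)
    {r : Finset V} {i : ℕ} {z : Finset V → M} (hz : ChP (lkP G K r) (i + 1) z) : ChP (lkP G K r) i fun S => bd z S := by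
  intro S
  constructor
  · unfold bd
    refine Submodule.sum_mem _ fun v hv => ?_
    refine zsmul_mem ?_ _
    have h1 := (hz (insert v S)).1
    unfold lkP at h1 ⊢
    split_ifs at h1 with h2
    · rw [if_pos (fl_mono (Finset.subset_insert v S) h2)]
      exact hK _ _ (Finset.union_subset_union_right (Finset.subset_insert v S)) h1
    · rw [Submodule.mem_bot] at h1
      rw [h1]
      exact Submodule.zero_mem _
  · intro h
    unfold bd at h
    obtain ⟨v, hv, h1⟩ := Finset.exists_ne_zero_of_sum_ne_zero h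
    have h2 : z (insert v S) ≠ 0 := fun h2 => h1 (by rw [h2, smul_zero])
    have h3 := (hz (insert v S)).2 h2
    rw [Finset.card_insert_of_notMem (Finset.mem_compl.1 hv)] at h3
    omega

open Classical in
/-- the dimension of the space of chains -/
theorem dim_finrank_chs [FiniteDimensional ℝ M] (G : SimpleGraph V) (K : Finset V → Submodule ℝ M) (r : Finset V) (i m : ℕ)
    (hm : ∀ S, Fl G r S → S.card = i → Module.finrank ℝ (K (r ∪ S)) = m) :
    Module.finrank ℝ (dim_chs (lkP G K r) i) = nf G r i * m := by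
  have hmem : ∀ z : Finset V → M, ChP (lkP G K r) i z → ∀ S, Fl G r S → z S ∈ K (r ∪ S) := by
    intro z hz S hS
    have h1 := (hz S).1
    unfold lkP at h1
    rwa [if_pos hS] at h1
  let φ : dim_chs (lkP G K r) i →ₗ[ℝ] ((S : {S : Finset V // Fl G r S ∧ S.card = i}) → K (r ∪ S.1)) :=
    LinearMap.pi fun S => LinearMap.codRestrict (K (r ∪ S.1)) ((LinearMap.proj S.1).comp (dim_chs (lkP G K r) i).subtype)
      fun z => hmem z.1 z.2 S.1 S.2.1
  have hφ : ∀ (z : dim_chs (lkP G K r) i) (S : {S : Finset V // Fl G r S ∧ S.card = i}), ((φ z S : K (r ∪ S.1)) : M) = z.1 S.1 :=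
    fun z S => rfl
  have hz0 : ∀ z : Finset V → M, ChP (lkP G K r) i z → ∀ S, ¬ (Fl G r S ∧ S.card = i) → z S = 0 := by
    intro z hz S hS
    by_contra h
    have h1 := (hz S).1
    unfold lkP at h1
    split_ifs at h1 with h2
    · exact hS ⟨h2, (hz S).2 h⟩
    · exact h h1
  have hinj : Function.Injective φ := by
    intro z w hzw
    apply Subtype.ext
    funext S
    by_cases hS : Fl G r S ∧ S.card = i
    · have h1 := congrFun hzw ⟨S, hS⟩
      have h2 := congrArg Subtype.val h1
      exact h2
    · rw [hz0 z.1 z.2 S hS, hz0 w.1 w.2 S hS]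
  have hsurj : Function.Surjective φ := by
    intro u
    refine ⟨⟨fun S => if h : Fl G r S ∧ S.card = i then (u ⟨S, h⟩ : M) else 0, fun S => ?_⟩, ?_⟩
    · by_cases h : Fl G r S ∧ S.card = i
      · dsimp only
        rw [dif_pos h]
        refine ⟨?_, fun _ => h.2⟩
        unfold lkP
        rw [if_pos h.1]
        exact (u ⟨S, h⟩).2
      · dsimp only
        rw [dif_neg h]
        exact ⟨Submodule.zero_mem _, fun h' => absurd rfl h'⟩
    · funext S
      apply Subtype.ext
      rw [hφ]
      dsimp only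
      rw [dif_pos S.2]
  rw [(LinearEquiv.ofBijective φ ⟨hinj, hsurj⟩).finrank_eq, Module.finrank_pi_fintype]
  have h1 : ∀ S : {S : Finset V // Fl G r S ∧ S.card = i}, Module.finrank ℝ (K (r ∪ S.1)) = m :=
    fun S => hm S.1 S.2.1 S.2.2
  rw [Finset.sum_congr rfl fun S _ => h1 S, Finset.sum_const, Finset.card_univ, Fintype.card_subtype, smul_eq_mul]
  rfl

/-- the space of cycles -/
def dim_zs (P : Finset V → Submodule ℝ M) (i : ℕ) : Submodule ℝ (Finset V → M) := dim_chs P i ⊓ LinearMap.ker (bdL ℝ)

theorem dim_mem_zs {P : Finset V → Submodule ℝ M} {i : ℕ} {z : Finset V → M} :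
    z ∈ dim_zs P i ↔ ChP P i z ∧ ∀ S, bd z S = 0 := by
  unfold dim_zs
  rw [Submodule.mem_inf, dim_mem_chs, LinearMap.mem_ker, bdL_apply]
  constructor
  · rintro ⟨h1, h2⟩
    exact ⟨h1, fun S => congrFun h2 S⟩
  · rintro ⟨h1, h2⟩
    exact ⟨h1, funext h2⟩

theorem dim_zs_zero (P : Finset V → Submodule ℝ M) : dim_zs P 0 = dim_chs P 0 := by
  refine le_antisymm (fun z hz => (dim_mem_zs.1 hz).1) fun z hz => dim_mem_zs.2 ⟨hz, fun S => ?_⟩
  unfold bd
  refine Finset.sum_eq_zero fun v _ => ?_
  by_cases h : z (insert v S) = 0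
  · rw [h, smul_zero]
  · have h1 := (hz (insert v S)).2 h
    rw [Finset.card_eq_zero] at h1
    exact absurd h1 (Finset.insert_ne_empty _ _)

theorem dim_finrank_zs_succ [FiniteDimensional ℝ M] {G : SimpleGraph V} {K : Finset V → Submodule ℝ M}
    (hK : ∀ S T, S ⊆ T → K T ≤ K S) {r : Finset V} {i : ℕ} (hex : ExP (lkP G K r) i) :
    Module.finrank ℝ (dim_zs (lkP G K r) (i + 1)) + Module.finrank ℝ (dim_zs (lkP G K r) i) =
      Module.finrank ℝ (dim_chs (lkP G K r) (i + 1)) := by
  rw [add_comm]
  refine (finrank_split (bdL ℝ) (dim_chs (lkP G K r) (i + 1)) (dim_zs (lkP G K r) (i + 1)) (dim_zs (lkP G K r) i) ?_ ?_).symm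
  · intro x
    unfold dim_zs
    rw [Submodule.mem_inf, LinearMap.mem_ker]
  · intro x
    rw [dim_mem_zs]
    constructor
    · rintro ⟨h1, h2⟩
      obtain ⟨y, hy1, hy2⟩ := hex x h1 h2
      exact ⟨y, hy1, funext hy2⟩
    · rintro ⟨y, hy1, rfl⟩
      exact ⟨dim_bd_mem hK hy1, fun S => dim_bd_bd y S⟩

/-- rank and nullity on a submodule -/
theorem dim_finrank_split2 {N : Type} [AddCommGroup N] [Module ℝ N] [FiniteDimensional ℝ M] (a : M →ₗ[ℝ] N)
    (A B : Submodule ℝ M) (C : Submodule ℝ N) (hB : ∀ x, x ∈ B ↔ x ∈ A ∧ a x = 0) (hC : ∀ x, x ∈ C ↔ ∃ y ∈ A, a y = x) :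
    Module.finrank ℝ A = Module.finrank ℝ C + Module.finrank ℝ B := by
  have h1 := LinearMap.finrank_range_add_finrank_ker (a.comp A.subtype)
  have h2 : LinearMap.range (a.comp A.subtype) = C := by
    ext x
    rw [LinearMap.mem_range, hC]
    constructor
    · rintro ⟨y, rfl⟩
      exact ⟨y, y.2, rfl⟩
    · rintro ⟨y, hy, rfl⟩
      exact ⟨⟨y, hy⟩, rfl⟩
  have h3 : (LinearMap.ker (a.comp A.subtype)).map A.subtype = B := by
    ext x
    rw [hB]
    constructor
    · rintro ⟨y, hy, rfl⟩
      exact ⟨y.2, hy⟩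
    · rintro ⟨hx, h⟩
      exact ⟨⟨x, hx⟩, h, rfl⟩
  rw [← h1, h2, ← h3, Submodule.finrank_map_subtype_eq]

end bdbd

/-! ### Arithmetic -/

theorem dim_choose_id {m d i j : ℕ} (hji : j ≤ i) (hid : i ≤ d) (hdm : d ≤ m) :
    (m - j).choose (m - i) * (m - i).choose (d - i) = (m - j).choose (m - d) * (d - j).choose (d - i) := by
  have h1 := Nat.choose_mul (n := m - j) (k := m - i) (s := m - d) (by omega)
  have h2 : (m - i).choose (m - d) = (m - i).choose (d - i) := by
    rw [← Nat.choose_symm (by omega : m - d ≤ m - i)]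
    congr 1
    omega
  have h3 : (m - j - (m - d)).choose (m - i - (m - d)) = (d - j).choose (d - i) := by
    congr 1
    · omega
    · omega
  rw [h2, h3] at h1
  exact h1

namespace Fan
variable {G : SimpleGraph V} {n p : ℕ} (F : Fan G n p)

/-! ### Products of the leading parts -/

theorem dim_cm_lv (l : Fin n → ℝ) (v : V) (x : Sm n p) :
    cm l (F.lv (Tp p) v x) + F.lv (Tp p) v (cm l x) = (∑ j, l j * F.c v j) • x := by
  have h := cp_cm (F.c v) l x
  have e : ∑ j, F.c v j * l j = ∑ j, l j * F.c v j := Finset.sum_congr rfl fun j _ => mul_comm _ _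
  rw [e, add_comm] at h
  exact h

theorem dim_lv_inj {T : Finset V} (hT : G.IsClique (T : Set V)) (S : Finset V) (hST : S ⊆ T) (y : Sm n p)
    (hy : ∀ v ∈ S, ∀ l : Fin n → ℝ, (∀ u ∈ T, u ≠ v → ∑ j, l j * F.c u j = 0) → cm l y = 0)
    (h : opP (F.lv (Tp p)) S y = 0) : y = 0 := by
  induction S using Finset.induction_on with
  | empty => rwa [opP_empty] at h
  | insert v S hv ih =>
    have hvT : v ∈ T := hST (Finset.mem_insert_self v S)
    have hS : S ⊆ T := (Finset.subset_insert v S).trans hST
    obtain ⟨l, hl1, hl0⟩ := F.dual T hT v hvT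
    refine ih hS (fun u hu => hy u (Finset.mem_insert_of_mem hu)) ?_
    rw [opP_insert (F.lv (Tp p)) hv (fun w hw x => F.lv_anti v w x)] at h
    have h1 := (smul_eq_zero.1 h).resolve_left (pow_ne_zero _ (by norm_num))
    have h2 := opP_comm (F.lv (Tp p)) (cm l) S (fun w hw x => by
      have h3 := F.dim_cm_lv l w x
      rw [hl0 w (hS hw) (fun e => hv (e ▸ hw)), zero_smul] at h3
      exact eq_neg_of_add_eq_zero_left h3) (F.lv (Tp p) v y)
    rw [h1, map_zero] at h2
    have h4 := (smul_eq_zero.1 h2.symm).resolve_left (pow_ne_zero _ (by norm_num))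
    have h5 := F.dim_cm_lv l v y
    rw [hl1, one_smul, hy v (Finset.mem_insert_self v S) l hl0, map_zero, add_zero] at h5
    rwa [h5] at h4

theorem dim_opL_inj {r S : Finset V} (hS : Fl G r S) {t : Tp p} (h : F.opL r S (vac t) = 0) : t = 0 := by
  have h0 : ∀ l : Fin n → ℝ, cm l (vac (n := n) t) = 0 := fun l => Dg_cm_zero (Dg_vac t) l
  have h1 : opP (F.lv (Tp p)) S (vac t) = 0 := by
    refine F.dim_lv_inj hS.2 r Finset.subset_union_left _ (fun v hv l hl => ?_) h
    rw [opP_comm (F.lv (Tp p)) (cm l) S (fun w hw x => by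
      have h3 := F.dim_cm_lv l w x
      rw [hl w (Finset.mem_union_right _ hw) (fun e => Finset.disjoint_left.1 hS.1 hw (e ▸ hv)), zero_smul] at h3
      exact eq_neg_of_add_eq_zero_left h3), h0, map_zero, smul_zero]
  have h2 := F.dim_lv_inj hS.2 S Finset.subset_union_right _ (fun v _ l _ => h0 l) h1
  have h3 := congrFun h2 ∅
  simpa [vac] using h3

theorem dim_opP_Dg (S : Finset V) : ∀ (e : ℕ) (y : Sm n p), Dg e y → Dg (e + S.card) (opP (F.lv (Tp p)) S y) := by
  induction S using Finset.induction_on with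
  | empty =>
    intro e y hy
    rwa [opP_empty, Finset.card_empty, add_zero]
  | insert v S hv ih =>
    intro e y hy
    rw [opP_insert (F.lv (Tp p)) hv (fun w hw x => F.lv_anti v w x), Finset.card_insert_of_notMem hv]
    have h := ih (e + 1) (F.lv (Tp p) v y) (Dg_cp hy _)
    rw [show e + (S.card + 1) = e + 1 + S.card by ring]
    exact Dg_smul h _

theorem dim_opL_mem (r S : Finset V) (t : Tp p) : F.opL r S (vac t) ∈ F.KL (Tp p) (r.card + S.card) (r ∪ S) := by
  rw [F.mem_KL]
  constructor
  · have h1 := F.dim_opP_Dg S 0 _ (Dg_vac t)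
    have h2 := F.dim_opP_Dg r _ _ h1
    rw [zero_add, add_comm] at h2
    exact h2
  · intro v hv
    by_cases hvr : v ∈ r
    · have h1 := opP_mem (F.lv (Tp p)) (S := r) (fun v _ x => F.lv_sq v x) (fun v _ w _ _ x => F.lv_anti v w x)
        (opP (F.lv (Tp p)) S (vac t))
      exact mem_kr.1 h1 v hvr
    · have hvS : v ∈ S := (Finset.mem_union.1 hv).resolve_left hvr
      have h1 := opP_mem (F.lv (Tp p)) (S := S) (fun v _ x => F.lv_sq v x) (fun v _ w _ _ x => F.lv_anti v w x) (vac t)
      have h2 := opP_comm (F.lv (Tp p)) (F.lv (Tp p) v) r (fun w _ x => F.lv_anti v w x)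
        (opP (F.lv (Tp p)) S (vac t))
      rw [mem_kr.1 h1 v hvS, map_zero, smul_zero] at h2
      exact h2

/-- the extreme leading parts are the products applied to vacuum vectors -/
theorem dim_exists_opL {r S : Finset V} (hS : Fl G r S) {x : Sm n p} (hx : x ∈ F.KL (Tp p) (r.card + S.card) (r ∪ S)) :
    ∃ t, F.opL r S (vac t) = x := by
  have hcard : (r ∪ S).card = r.card + S.card := Finset.card_union_of_disjoint hS.1.symm
  let φ : Tp p →ₗ[ℝ] Sm n p := F.opL r S ∘ₗ vac
  have h1 : LinearMap.range φ ≤ F.KL (Tp p) (r.card + S.card) (r ∪ S) := by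
    rintro _ ⟨t, rfl⟩
    exact F.dim_opL_mem r S t
  have hinj : Function.Injective φ := by
    rw [← LinearMap.ker_eq_bot, LinearMap.ker_eq_bot']
    intro t ht
    exact F.dim_opL_inj hS ht
  have h2 : Module.finrank ℝ (LinearMap.range φ) = Module.finrank ℝ (Tp p) := LinearMap.finrank_range_of_inj hinj
  have h3 := F.finrank_KL (d := r.card + S.card) hS.2 (by rw [hcard])
  rw [hcard, Nat.sub_self, Nat.choose_zero_right, one_mul] at h3
  have h4 := Submodule.eq_of_le_of_finrank_le h1 (by rw [h2, h3])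
  rw [← h4] at hx
  exact hx

/-! ### The leading chains of the facet functions -/

theorem dim_al_add (g h : Finset V → Tp p) (θ : Finset V) : F.al (g + h) θ = F.al g θ + F.al h θ := by
  unfold al
  rw [← Finset.sum_add_distrib]
  exact Finset.sum_congr rfl fun R _ => by rw [Pi.add_apply, smul_add]

theorem dim_al_smul (a : ℝ) (g : Finset V → Tp p) (θ : Finset V) : F.al (a • g) θ = a • F.al g θ := by
  unfold al
  rw [Finset.smul_sum]
  exact Finset.sum_congr rfl fun R _ => by rw [Pi.smul_apply, smul_comm]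

open Classical in
/-- the leading chain of a facet function -/
def dim_chLl (r : Finset V) (d : ℕ) : (Finset V → Tp p) →ₗ[ℝ] (Finset V → Sm n p) where
  toFun g := F.chL r d fun T => F.al g (r ∪ T)
  map_add' g h := by
    funext S
    unfold chL
    rw [Pi.add_apply]
    split_ifs
    · dsimp only
      rw [dim_al_add, map_add, map_add]
    · rw [add_zero]
  map_smul' a g := by
    funext S
    unfold chL
    rw [Pi.smul_apply]
    split_ifs
    · dsimp only
      rw [dim_al_smul, map_smul, map_smul]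
      rfl
    · rw [smul_zero]

theorem dim_chLl_apply (r : Finset V) (d : ℕ) (g : Finset V → Tp p) :
    F.dim_chLl r d g = F.chL r d fun T => F.al g (r ∪ T) := rfl

theorem dim_chL_ChP (r : Finset V) (d : ℕ) (a : Finset V → Tp p) :
    ChP (lkP G (F.KL (Tp p) (r.card + d)) r) d (F.chL r d a) := by
  intro S
  unfold chL
  split_ifs with h
  · refine ⟨?_, fun _ => h.2⟩
    unfold lkP
    rw [if_pos h.1, ← h.2]
    exact F.dim_opL_mem r S (a S)
  · exact ⟨Submodule.zero_mem _, fun h' => absurd rfl h'⟩

theorem dim_finrank_zs_GG (hG : Sp G n) {r : Finset V} (hr : G.IsClique (r : Set V)) (d : ℕ) :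
    Module.finrank ℝ (F.GG r d) = Module.finrank ℝ (dim_zs (lkP G (F.KL (Tp p) (r.card + d)) r) d) +
      Module.finrank ℝ (F.GG r (d + 1)) := by
  refine dim_finrank_split2 (F.dim_chLl r d) (F.GG r d) (F.GG r (d + 1)) (dim_zs (lkP G (F.KL (Tp p) (r.card + d)) r) d) ?_ ?_
  · intro g
    constructor
    · intro hg
      refine ⟨⟨hg.1, fun S hS hd => hg.2 S hS (by omega)⟩, ?_⟩
      rw [dim_chLl_apply]
      funext S
      unfold chL
      split_ifs with h
      · dsimp only
        rw [hg.2 S h.1 (by omega), map_zero, map_zero]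
        rfl
      · rfl
    · rintro ⟨hg, h0⟩
      refine ⟨hg.1, fun S hS hd => ?_⟩
      rcases Nat.lt_or_ge S.card d with h1 | h1
      · exact hg.2 S hS h1
      · have h2 : S.card = d := by omega
        have h3 := congrFun h0 S
        rw [dim_chLl_apply] at h3
        unfold chL at h3
        rw [if_pos ⟨hS, h2⟩] at h3
        exact F.dim_opL_inj hS h3
  · intro z
    rw [dim_mem_zs]
    constructor
    · rintro ⟨hz, hz0⟩
      have h1 : ∀ S, ∃ t : Tp p, (Fl G r S ∧ S.card = d) → F.opL r S (vac t) = z S := by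
        intro S
        by_cases h : Fl G r S ∧ S.card = d
        · have h2 := (hz S).1
          unfold lkP at h2
          rw [if_pos h.1, ← h.2] at h2
          obtain ⟨t, ht⟩ := F.dim_exists_opL h.1 h2
          exact ⟨t, fun _ => ht⟩
        · exact ⟨0, fun h' => absurd h' h⟩
      choose a ha using h1
      have h2 : F.chL r d a = z := by
        funext S
        unfold chL
        split_ifs with h
        · exact ha S h
        · by_contra h3
          have h4 := (hz S).1
          unfold lkP at h4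
          split_ifs at h4 with h5
          · exact h ⟨h5, (hz S).2 (fun e => h3 e.symm)⟩
          · exact h3 h4.symm
      obtain ⟨g, hg, hga⟩ := F.exists_al hG hr (i := d) (a := a) (by rw [h2]; exact hz0)
      refine ⟨g, hg, ?_⟩
      rw [dim_chLl_apply, ← h2]
      funext S
      unfold chL
      split_ifs with h
      · dsimp only
        rw [hga S h.1 h.2]
      · rfl
    · rintro ⟨g, hg, rfl⟩
      rw [dim_chLl_apply]
      refine ⟨F.dim_chL_ChP r d _, fun S => ?_⟩
      rcases Nat.eq_zero_or_pos d with rfl | hd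
      · have h1 : F.chL r 0 (fun T => F.al g (r ∪ T)) ∈ dim_zs (lkP G (F.KL (Tp p) (r.card + 0)) r) 0 := by
          rw [dim_zs_zero]
          exact F.dim_chL_ChP r 0 _
        exact (dim_mem_zs.1 h1).2 S
      · obtain ⟨e, rfl⟩ : ∃ e, d = e + 1 := ⟨d - 1, by omega⟩
        by_cases h : Fl G r S ∧ S.card = e
        · have h1 := F.bd_chL g h.1
          rw [h.2, hg.2 S h.1 (by omega), map_zero, map_zero, map_zero, smul_zero] at h1
          exact h1
        · exact F.bd_chL_of_not r e _ h

/-- the quotient of two steps of the filtration -/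
theorem finrank_GG (hG : Sp G n) {r : Finset V} (hr : G.IsClique (r : Set V)) {d : ℕ} (hd : r.card + d ≤ n) :
    Module.finrank ℝ (F.GG r d) = Module.finrank ℝ (F.GG r (d + 1)) + F.nn r d * Module.finrank ℝ (Tp p) := by
  rw [F.dim_finrank_zs_GG hG hr d, add_comm]
  congr 1
  obtain ⟨m, hm⟩ : ∃ m, m = n - r.card := ⟨_, rfl⟩
  set t := Module.finrank ℝ (Tp p) with ht
  have hc : ∀ i ≤ d, Module.finrank ℝ (dim_chs (lkP G (F.KL (Tp p) (r.card + d)) r) i) =
      nf G r i * ((m - i).choose (d - i) * t) := by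
    intro i hi
    refine dim_finrank_chs G _ r i _ fun S hS hSi => ?_
    have hcard : (r ∪ S).card = r.card + i := by rw [Finset.card_union_of_disjoint hS.1.symm, hSi]
    rw [F.finrank_KL hS.2 (by rw [hcard]; omega), hcard]
    congr 2
    · omega
    · omega
  have h1 := alt_sum d (fun j => F.nn r j * ((m - j).choose (m - d) * t))
    (fun i => Module.finrank ℝ (dim_zs (lkP G (F.KL (Tp p) (r.card + d)) r) i))
    (fun i => Module.finrank ℝ (dim_chs (lkP G (F.KL (Tp p) (r.card + d)) r) i)) ?_ ?_ ?_
  · rw [h1, Nat.choose_self, one_mul]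
  · intro i hi
    rw [hc i hi, F.card_faces hr (i := i) (by omega), ← hm]
    have h2 : ∑ j ∈ Finset.range (m + 1), F.nn r j * (m - j).choose (m - i) =
        ∑ j ∈ Finset.range (d + 1), F.nn r j * (m - j).choose (m - i) := by
      refine (Finset.sum_subset (Finset.range_subset_range.2 (by omega)) fun j hj hj' => ?_).symm
      rw [Finset.mem_range] at hj hj'
      rw [Nat.choose_eq_zero_of_lt (by omega), mul_zero]
    rw [h2, Finset.sum_mul]
    refine Finset.sum_congr rfl fun j hj => ?_
    rw [Finset.mem_range] at hj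
    rcases Nat.lt_or_ge i j with h3 | h3
    · rw [Nat.choose_eq_zero_of_lt (show m - j < m - i by omega), Nat.choose_eq_zero_of_lt (show d - j < d - i by omega)]
      ring
    · have h4 := dim_choose_id h3 hi (show d ≤ m by omega)
      calc F.nn r j * (m - j).choose (m - i) * ((m - i).choose (d - i) * t) =
          F.nn r j * ((m - j).choose (m - i) * (m - i).choose (d - i)) * t := by ring
        _ = _ := by
          rw [h4]
          ring
  · rw [dim_zs_zero]
  · intro i hi
    exact dim_finrank_zs_succ (fun S T h => F.KL_anti (Tp p) _ h) (F.exL (Tp p) hG hr hi)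

end Fan

end

end Hr
end Singer
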