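import Pool.Agent.Singer.Hr.Res
import Pool.Agent.Singer.Hr.Dim

/-!
# Singer/Hr: duality

* `mem_GG_of_orth`: a function which is orthogonal to `GG r e` is in `GG r d`, `d + e = n + 1 - |r|` (residue theorem);
* `BB_GG`: `GG r d` and `GG r e` are orthogonal (dimensions).
-/

set_option autoImplicit false
set_option linter.unusedSectionVars false
set_option linter.unusedVariables false

namespace Singer
namespace Hr

open Singer.Re Pool.Agent.Helper34.Car

noncomputable section

variable {V : Type} [Fintype V] [DecidableEq V]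

namespace Fan
variable {G : SimpleGraph V} {n p : ℕ} (F : Fan G n p)

theorem dual_GG_anti {r : Finset V} {d e : ℕ} (h : d ≤ e) : F.GG r e ≤ F.GG r d :=
  fun _ hg => ⟨hg.1, fun S hS hd => hg.2 S hS (hd.trans_le h)⟩

theorem dual_GG_zero (r : Finset V) : F.GG r 0 = ER G n p r :=
  le_antisymm (fun _ hg => hg.1) fun _ hg => ⟨hg, fun _ _ h => absurd h (Nat.not_lt_zero _)⟩

theorem dual_ip_smul_left (a : ℝ) (s t : Tp p) : ip (a • s) t = a * ip s t := by
  unfold ip
  rw [Finset.mul_sum]
  exact Finset.sum_congr rfl fun J _ => by rw [Pi.smul_apply, smul_eq_mul, mul_assoc]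

theorem dual_ip_smul_right (a : ℝ) (s t : Tp p) : ip s (a • t) = a * ip s t := by
  unfold ip
  rw [Finset.mul_sum]
  exact Finset.sum_congr rfl fun J _ => by
    rw [Pi.smul_apply, smul_eq_mul]
    ring

theorem dual_ip_add_left (s s' t : Tp p) : ip (s + s') t = ip s t + ip s' t := by
  unfold ip
  rw [← Finset.sum_add_distrib]
  exact Finset.sum_congr rfl fun J _ => by rw [Pi.add_apply, add_mul]

theorem dual_ip_add_right (s t t' : Tp p) : ip s (t + t') = ip s t + ip s t' := by
  unfold ip
  rw [← Finset.sum_add_distrib]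
  exact Finset.sum_congr rfl fun J _ => by rw [Pi.add_apply, mul_add]

theorem dual_ip_sum_left {ι : Type*} (s : Finset ι) (f : ι → Tp p) (t : Tp p) :
    ip (∑ i ∈ s, f i) t = ∑ i ∈ s, ip (f i) t := by
  classical
  induction s using Finset.induction_on with
  | empty => simp [ip]
  | insert a s ha ih => rw [Finset.sum_insert ha, Finset.sum_insert ha, dual_ip_add_left, ih]

theorem dual_eq_zero_of_ip {s : Tp p} (h : ∀ t, ip s t = 0) : s = 0 := by
  funext J
  have h1 := h (fun K => if K = J then 1 else 0)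
  unfold ip at h1
  simpa using h1

open Classical in
/-- the monomial function of the face `S` -/
def dual_mono (r S : Finset V) (t : Tp p) (R : Finset V) : Tp p :=
  if Fac G n R ∧ r ⊆ R then (∏ v ∈ S, F.X v R) • t else 0

theorem dual_mono_ER (r S : Finset V) (t : Tp p) : F.dual_mono r S t ∈ ER G n p r := fun _ hR => if_neg hR

theorem dual_mono_GG (hG : Cx G n) {r S : Finset V} (t : Tp p) {d : ℕ} (hd : r.card + d + S.card ≤ n) :
    F.dual_mono r S t ∈ F.GG r d := by
  classical
  refine ⟨F.dual_mono_ER r S t, fun T hT hTd => ?_⟩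
  have h1 := F.residue hG hT.2 (fun v => if v ∈ S then 1 else 0) (by
    have h2 : ∑ v, (if v ∈ S then 1 else 0) = S.card := by simp
    have h3 : (r ∪ T).card ≤ r.card + T.card := Finset.card_union_le _ _
    rw [h2]
    omega)
  have h2 : F.al (F.dual_mono r S t) (r ∪ T) = (∑ R ∈ Finset.univ.filter (fun R => Fac G n R),
      F.om R * (∏ v ∈ r ∪ T, F.X v R) * ∏ v, F.X v R ^ (if v ∈ S then 1 else 0)) • t := by
    unfold al
    rw [Finset.sum_smul]
    have hsub : Finset.univ.filter (fun R => Fac G n R ∧ r ∪ T ⊆ R) ⊆ Finset.univ.filter (fun R => Fac G n R) := by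
      intro R hR
      rw [Finset.mem_filter] at hR ⊢
      exact ⟨hR.1, hR.2.1⟩
    rw [← Finset.sum_subset hsub]
    · refine Finset.sum_congr rfl fun R hR => ?_
      have hR' := (Finset.mem_filter.1 hR).2
      unfold dual_mono
      rw [if_pos ⟨hR'.1, Finset.subset_union_left.trans hR'.2⟩, smul_smul]
      congr 2
      have h3 : ∀ v, F.X v R ^ (if v ∈ S then 1 else 0) = if v ∈ S then F.X v R else 1 := by
        intro v
        split_ifs
        · rw [pow_one]
        · rw [pow_zero]
      rw [Finset.prod_congr rfl fun v _ => h3 v, Finset.prod_ite_mem, Finset.univ_inter]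
    · intro R hR hR'
      rw [Finset.mem_filter] at hR hR'
      have h3 : ¬ r ∪ T ⊆ R := fun h => hR' ⟨hR.1, hR.2, h⟩
      obtain ⟨v, hv, hvR⟩ := Finset.not_subset.1 h3
      rw [Finset.prod_eq_zero hv (F.X0 v R hvR), mul_zero, zero_mul, zero_smul]
  rw [h2, h1, zero_smul]

theorem dual_BB_mono {r S : Finset V} (hrS : Disjoint S r) (g : Finset V → Tp p) (t : Tp p) :
    F.BB r g (F.dual_mono r S t) = ip (F.al g (r ∪ S)) t := by
  classical
  unfold BB al
  rw [dual_ip_sum_left]
  have hsub : Finset.univ.filter (fun R => Fac G n R ∧ r ∪ S ⊆ R) ⊆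
      Finset.univ.filter (fun R => Fac G n R ∧ r ⊆ R) := by
    intro R hR
    rw [Finset.mem_filter] at hR ⊢
    exact ⟨hR.1, hR.2.1, Finset.subset_union_left.trans hR.2.2⟩
  rw [← Finset.sum_subset hsub]
  · refine Finset.sum_congr rfl fun R hR => ?_
    have hR' := (Finset.mem_filter.1 hR).2
    unfold dual_mono
    rw [if_pos ⟨hR'.1, Finset.subset_union_left.trans hR'.2⟩, dual_ip_smul_right, dual_ip_smul_left,
      Finset.prod_union hrS.symm]
    ring
  · intro R hR hR'
    rw [Finset.mem_filter] at hR hR'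
    have h3 : ¬ S ⊆ R := fun h => hR' ⟨hR.1, hR.2.1, Finset.union_subset hR.2.2 h⟩
    obtain ⟨v, hv, hvR⟩ := Finset.not_subset.1 h3
    unfold dual_mono
    rw [if_pos hR.2, dual_ip_smul_right, Finset.prod_eq_zero hv (F.X0 v R hvR), zero_mul, mul_zero]

theorem mem_GG_of_orth (hG : Sp G n) {r : Finset V} (hr : G.IsClique (r : Set V)) {d e : ℕ}
    (hde : r.card + d + e = n + 1) {g : Finset V → Tp p} (hg : g ∈ ER G n p r)
    (h : ∀ h ∈ F.GG r e, F.BB r g h = 0) : g ∈ F.GG r d := by
  refine ⟨hg, fun S hS hd => dual_eq_zero_of_ip fun t => ?_⟩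
  rw [← F.dual_BB_mono hS.1]
  exact h _ (F.dual_mono_GG hG.cx t (by omega))

/-- the bilinear form, as a bilinear map -/
def dual_BBl (r : Finset V) : (Finset V → Tp p) →ₗ[ℝ] (Finset V → Tp p) →ₗ[ℝ] ℝ :=
  LinearMap.mk₂ ℝ (F.BB r)
    (fun g g' h => by
      unfold BB
      rw [← Finset.sum_add_distrib]
      exact Finset.sum_congr rfl fun R _ => by rw [Pi.add_apply, dual_ip_add_left, mul_add])
    (fun a g h => by
      unfold BB
      rw [smul_eq_mul, Finset.mul_sum]
      exact Finset.sum_congr rfl fun R _ => by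
        rw [Pi.smul_apply, dual_ip_smul_left]
        ring)
    (fun g h h' => by
      unfold BB
      rw [← Finset.sum_add_distrib]
      exact Finset.sum_congr rfl fun R _ => by rw [Pi.add_apply, dual_ip_add_right, mul_add])
    (fun a g h => by
      unfold BB
      rw [smul_eq_mul, Finset.mul_sum]
      exact Finset.sum_congr rfl fun R _ => by
        rw [Pi.smul_apply, dual_ip_smul_right]
        ring)

theorem dual_BBl_apply (r : Finset V) (g h : Finset V → Tp p) : F.dual_BBl r g h = F.BB r g h := rfl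

/-- dimension of the filtration -/
theorem dual_finrank_GG_eq (hG : Sp G n) {r : Finset V} (hr : G.IsClique (r : Set V)) (k : ℕ) :
    ∀ d, r.card + d + k = n + 1 → Module.finrank ℝ (F.GG r d) =
      (∑ j ∈ Finset.Ico d (d + k), F.nn r j) * Module.finrank ℝ (Tp p) := by
  induction k with
  | zero =>
    intro d hd
    rw [F.GG_top hr (by omega), finrank_bot, add_zero, Finset.Ico_self, Finset.sum_empty, zero_mul]
  | succ k ih =>
    intro d hd
    rw [F.finrank_GG hG hr (by omega), ih (d + 1) (by omega)]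
    have h1 : d + 1 + k = d + (k + 1) := by ring
    rw [h1, Finset.sum_eq_sum_Ico_succ_bot (by omega : d < d + (k + 1)), add_mul, add_comm]

theorem dual_finrank_dual (hG : Sp G n) {r : Finset V} (hr : G.IsClique (r : Set V)) {d e : ℕ}
    (hde : r.card + d + e = n + 1) :
    Module.finrank ℝ (F.GG r d) + Module.finrank ℝ (F.GG r e) = Module.finrank ℝ (ER G n p r) := by
  rw [← F.dual_GG_zero r, F.dual_finrank_GG_eq hG hr e d (by omega), F.dual_finrank_GG_eq hG hr d e (by omega),
    F.dual_finrank_GG_eq hG hr (d + e) 0 (by omega), ← add_mul]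
  congr 1
  have h1 : ∑ j ∈ Finset.Ico e (e + d), F.nn r j = ∑ j ∈ Finset.Ico 0 d, F.nn r j := by
    refine Finset.sum_nbij' (fun j => n - r.card - j) (fun j => n - r.card - j) ?_ ?_ ?_ ?_ ?_
    · intro j hj
      rw [Finset.mem_Ico] at hj ⊢
      omega
    · intro j hj
      rw [Finset.mem_Ico] at hj ⊢
      omega
    · intro j hj
      rw [Finset.mem_Ico] at hj
      omega
    · intro j hj
      rw [Finset.mem_Ico] at hj
      omega
    · intro j hj
      rw [Finset.mem_Ico] at hj
      exact F.nn_symm hG.cx hr (by omega)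
  rw [h1, add_comm, Finset.sum_Ico_consecutive _ (Nat.zero_le d) (by omega : d ≤ d + e), zero_add]

theorem BB_GG (hG : Sp G n) {r : Finset V} (hr : G.IsClique (r : Set V)) {d e : ℕ} (hde : r.card + d + e = n + 1)
    {g h : Finset V → Tp p} (hg : g ∈ F.GG r d) (hh : h ∈ F.GG r e) : F.BB r g h = 0 := by
  let Θ : ER G n p r →ₗ[ℝ] Module.Dual ℝ (F.GG r e) :=
    (F.dual_BBl r).compl₁₂ (ER G n p r).subtype (F.GG r e).subtype
  have h1 := LinearMap.finrank_range_add_finrank_ker Θ
  have h2 : Module.finrank ℝ (LinearMap.range Θ) ≤ Module.finrank ℝ (F.GG r e) := by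
    rw [← Subspace.dual_finrank_eq (K := ℝ) (V := F.GG r e)]
    exact Submodule.finrank_le _
  have h3 := F.dual_finrank_dual hG hr hde
  have h4 : (LinearMap.ker Θ).map (ER G n p r).subtype ≤ F.GG r d := by
    rintro _ ⟨g', hg', rfl⟩
    refine F.mem_GG_of_orth hG hr hde g'.2 fun h' hh' => ?_
    have h5 := LinearMap.congr_fun (LinearMap.mem_ker.1 hg') ⟨h', hh'⟩
    exact h5
  have h5 : Module.finrank ℝ ((LinearMap.ker Θ).map (ER G n p r).subtype) = Module.finrank ℝ (LinearMap.ker Θ) :=
    Submodule.finrank_map_subtype_eq _ _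
  have h6 : (LinearMap.ker Θ).map (ER G n p r).subtype = F.GG r d :=
    Submodule.eq_of_le_of_finrank_le h4 (by rw [h5]; omega)
  rw [← h6] at hg
  obtain ⟨g', hg', rfl⟩ := hg
  exact LinearMap.congr_fun (LinearMap.mem_ker.1 hg') ⟨h, hh⟩

end Fan

end

end Hr
end Singer
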