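import Pool.Agent.Singer.Hr.Dim
import Pool.Agent.Singer.Hr.Dual
import Pool.Agent.Singer.Hr.Comp
import Pool.Agent.Singer.Hr.Iden

/-!
# Singer/Hr: definiteness in even dimension
-/

set_option autoImplicit false
set_option linter.unusedSectionVars false
set_option linter.unusedVariables false

namespace Singer
namespace Hr

open Singer.Re Pool.Agent.Helper34.Car

noncomputable section

variable {V : Type} [Fintype V] [DecidableEq V]

namespace EvenAux

/-- functions with support in `A` -/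
def sp (T : Type) [AddCommGroup T] [Module ℝ T] {I : Type} (A : Finset I) : Submodule ℝ (I → T) where
  carrier := {g | ∀ R, R ∉ A → g R = 0}
  zero_mem' := fun _ _ => rfl
  add_mem' := fun h k R hR => by rw [Pi.add_apply, h R hR, k R hR, add_zero]
  smul_mem' := fun a _ h R hR => by rw [Pi.smul_apply, h R hR, smul_zero]

lemma finrank_sp (T : Type) [AddCommGroup T] [Module ℝ T] [Module.Finite ℝ T] {I : Type} (A : Finset I) :
    Module.finrank ℝ (sp T A) = A.card * Module.finrank ℝ T := by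
  classical
  have e : sp T A ≃ₗ[ℝ] (A → T) :=
    { toFun := fun g i => g.1 i.1
      map_add' := fun g h => rfl
      map_smul' := fun a g => rfl
      invFun := fun f => ⟨fun i => if h : i ∈ A then f ⟨i, h⟩ else 0, fun R hR => dif_neg hR⟩
      left_inv := by
        intro g
        apply Subtype.ext
        funext i
        show (if h : i ∈ A then g.1 i else 0) = g.1 i
        by_cases h : i ∈ A
        · rw [dif_pos h]
        · rw [dif_neg h, g.2 i h]
      right_inv := by
        intro f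
        funext i
        show (if h : i.1 ∈ A then f ⟨i.1, h⟩ else 0) = f i
        rw [dif_pos i.2] }
  rw [e.finrank_eq, Module.finrank_pi_fintype]
  simp

end EvenAux

open EvenAux

namespace Fan
variable {G : SimpleGraph V} {n p : ℕ} (F : Fan G n p)

lemma GG_mono (r : Finset V) {d e : ℕ} (h : d ≤ e) : F.GG r e ≤ F.GG r d := fun g hg =>
  ⟨hg.1, fun S hS hd => hg.2 S hS (lt_of_lt_of_le hd h)⟩

/-- the number of negative coordinates -/
def ngE (r R : Finset V) : ℕ := by
  classical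
  exact (Finset.univ.filter fun v => v ∈ R ∧ v ∉ r ∧ F.X v R < 0).card

open Classical in
/-- the facets which contain `r` -/
def fcE (_ : Fan G n p) (r : Finset V) : Finset (Finset V) := Finset.univ.filter (fun R => Fac G n R ∧ r ⊆ R)

lemma nn_eqE (r : Finset V) (j : ℕ) : F.nn r j = ((F.fcE r).filter fun R => F.ngE r R = j).card := by
  classical
  unfold nn fcE ngE
  rw [Finset.filter_filter]

lemma mem_fcE {r R : Finset V} : R ∈ F.fcE r ↔ Fac G n R ∧ r ⊆ R := by
  classical
  unfold fcE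
  simp

lemma ngE_le {r R : Finset V} (hR : R ∈ F.fcE r) : F.ngE r R ≤ n - r.card := by
  classical
  unfold fcE at hR
  obtain ⟨⟨h1, h2⟩, h3⟩ := (Finset.mem_filter.1 hR).2
  have h4 : F.ngE r R ≤ (R \ r).card := by
    unfold ngE
    refine Finset.card_le_card fun v hv => ?_
    obtain ⟨-, h5, h6, -⟩ := Finset.mem_filter.1 hv
    exact Finset.mem_sdiff.2 ⟨h5, h6⟩
  rwa [Finset.card_sdiff_of_subset h3, h2] at h4

/-- the sign of the weights -/
lemma sgn_om {r R : Finset V} (hR : R ∈ F.fcE r) :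
    ∃ c : ℝ, 0 < c ∧ F.om R * (∏ v ∈ r, F.X v R) = (-1) ^ F.ngE r R * c := by
  classical
  unfold fcE at hR
  obtain ⟨hF, h3⟩ := (Finset.mem_filter.1 hR).2
  refine ⟨F.w R / |∏ v ∈ R \ r, F.X v R|, ?_, ?_⟩
  · refine div_pos (F.wpos R) (abs_pos.2 (Finset.prod_ne_zero_iff.2 fun v hv => F.Xne R hF v (Finset.mem_sdiff.1 hv).1))
  · have h1 : ∏ v ∈ R, F.X v R = (∏ v ∈ R \ r, F.X v R) * ∏ v ∈ r, F.X v R := (Finset.prod_sdiff h3).symm
    have h2 : ∏ v ∈ r, F.X v R ≠ 0 := Finset.prod_ne_zero_iff.2 fun v hv => F.Xne R hF v (h3 hv)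
    have h4 : ∏ v ∈ R \ r, F.X v R ≠ 0 := Finset.prod_ne_zero_iff.2 fun v hv => F.Xne R hF v (Finset.mem_sdiff.1 hv).1
    have h5 : ∏ v ∈ R \ r, F.X v R = (-1) ^ F.ngE r R * |∏ v ∈ R \ r, F.X v R| := by
      rw [Finset.abs_prod]
      have h6 : F.ngE r R = ((R \ r).filter fun v => F.X v R < 0).card := by
        unfold ngE
        congr 1
        ext v
        simp only [Finset.mem_filter, Finset.mem_univ, true_and, Finset.mem_sdiff]
        tauto
      rw [h6, ← Finset.prod_const, Finset.prod_filter, ← Finset.prod_mul_distrib]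
      refine Finset.prod_congr rfl fun v hv => ?_
      split_ifs with h7
      · rw [abs_of_neg h7]; ring
      · rw [abs_of_nonneg (not_lt.1 h7)]; ring
    unfold om
    rw [h1]
    have h8 : (-1 : ℝ) ^ F.ngE r R * (-1) ^ F.ngE r R = 1 := by
      rw [← mul_pow]; norm_num
    have h9 : |∏ v ∈ R \ r, F.X v R| ≠ 0 := abs_ne_zero.2 h4
    have h10 : F.w R / ((∏ v ∈ R \ r, F.X v R) * ∏ v ∈ r, F.X v R) * ∏ v ∈ r, F.X v R =
        F.w R / ∏ v ∈ R \ r, F.X v R := by
      field_simp
    rw [h10, div_eq_iff h4]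
    calc F.w R = ((-1 : ℝ) ^ F.ngE r R * (-1) ^ F.ngE r R) * (F.w R / |∏ v ∈ R \ r, F.X v R| *
          |∏ v ∈ R \ r, F.X v R|) := by rw [h8, div_mul_cancel₀ _ h9, one_mul]
      _ = (-1) ^ F.ngE r R * (F.w R / |∏ v ∈ R \ r, F.X v R|) *
          ((-1) ^ F.ngE r R * |∏ v ∈ R \ r, F.X v R|) := by ring
      _ = _ := by rw [← h5]

/-! ### the form -/

lemma BB_eq (r : Finset V) (g h : Finset V → Tp p) :
    F.BB r g h = ∑ R ∈ F.fcE r, F.om R * (∏ v ∈ r, F.X v R) * ip (g R) (h R) := rfl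

lemma ip_add_right (s t u : Tp p) : ip s (t + u) = ip s t + ip s u := by
  unfold ip
  rw [← Finset.sum_add_distrib]
  exact Finset.sum_congr rfl fun J _ => by rw [Pi.add_apply]; ring

lemma ip_comm (s t : Tp p) : ip s t = ip t s := by
  unfold ip
  exact Finset.sum_congr rfl fun J _ => mul_comm _ _

lemma ip_self_nonneg (s : Tp p) : 0 ≤ ip s s := Finset.sum_nonneg fun J _ => mul_self_nonneg _

lemma ip_self_eq_zero {s : Tp p} (h : ip s s = 0) : s = 0 := by
  funext J
  have h1 := (Finset.sum_eq_zero_iff_of_nonneg (fun J _ => mul_self_nonneg (s J))).1 h J (Finset.mem_univ J)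
  exact mul_self_eq_zero.1 h1

lemma BB_add_right (r : Finset V) (g h k : Finset V → Tp p) : F.BB r g (h + k) = F.BB r g h + F.BB r g k := by
  rw [BB_eq, BB_eq, BB_eq, ← Finset.sum_add_distrib]
  refine Finset.sum_congr rfl fun R _ => ?_
  rw [Pi.add_apply, ip_add_right]
  ring

lemma BB_comm (r : Finset V) (g h : Finset V → Tp p) : F.BB r g h = F.BB r h g := by
  rw [BB_eq, BB_eq]
  exact Finset.sum_congr rfl fun R _ => by rw [ip_comm]

lemma BB_add_left (r : Finset V) (g h k : Finset V → Tp p) : F.BB r (g + h) k = F.BB r g k + F.BB r h k := by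
  rw [F.BB_comm r (g + h) k, BB_add_right, F.BB_comm r k g, F.BB_comm r k h]

lemma BB_smul_right (r : Finset V) (a : ℝ) (g h : Finset V → Tp p) : F.BB r g (a • h) = a * F.BB r g h := by
  rw [BB_eq, BB_eq, Finset.mul_sum]
  refine Finset.sum_congr rfl fun R _ => ?_
  have : ip (g R) ((a • h) R) = a * ip (g R) (h R) := by
    unfold ip
    rw [Finset.mul_sum]
    exact Finset.sum_congr rfl fun J _ => by rw [Pi.smul_apply, Pi.smul_apply, smul_eq_mul]; ring
  rw [this]
  ring

/-- functions on the facets with the right sign -/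
def Rt (r : Finset V) (m : ℕ) : Submodule ℝ (Finset V → Tp p) :=
  sp (Tp p) ((F.fcE r).filter fun R => F.ngE r R % 2 = m % 2)

lemma ER_eq (r : Finset V) : ER G n p r = sp (Tp p) (F.fcE r) := by
  classical
  ext g
  have h : ∀ R, R ∉ F.fcE r ↔ ¬ (Fac G n R ∧ r ⊆ R) := fun R => by
    unfold fcE
    simp
  constructor
  · intro hg R hR
    exact hg R ((h R).1 hR)
  · intro hg R hR
    exact hg R ((h R).2 hR)

lemma Rt_le (r : Finset V) (m : ℕ) : F.Rt r m ≤ ER G n p r := by
  rw [F.ER_eq r]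
  intro g hg R hR
  exact hg R fun h => hR (Finset.mem_filter.1 h).1

/-- positivity -/
lemma pos_Rt {r : Finset V} {m : ℕ} {g : Finset V → Tp p} (hg : g ∈ F.Rt r m) :
    0 ≤ (-1 : ℝ) ^ m * F.BB r g g ∧ (F.BB r g g = 0 → g = 0) := by
  classical
  have key : ∀ R ∈ F.fcE r, 0 ≤ (-1 : ℝ) ^ m * (F.om R * (∏ v ∈ r, F.X v R) * ip (g R) (g R)) ∧
      ((-1 : ℝ) ^ m * (F.om R * (∏ v ∈ r, F.X v R) * ip (g R) (g R)) = 0 → g R = 0) := by
    intro R hR
    obtain ⟨c, hc, h1⟩ := F.sgn_om hR
    rw [h1]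
    by_cases h2 : F.ngE r R % 2 = m % 2
    · have h3 : (-1 : ℝ) ^ m * (-1) ^ F.ngE r R = 1 := by
        rw [← pow_add]
        exact Even.neg_one_pow (Nat.even_iff.2 (by omega))
      have h4 : (-1 : ℝ) ^ m * ((-1) ^ F.ngE r R * c * ip (g R) (g R)) = c * ip (g R) (g R) := by
        calc _ = ((-1 : ℝ) ^ m * (-1) ^ F.ngE r R) * (c * ip (g R) (g R)) := by ring
          _ = _ := by rw [h3, one_mul]
      rw [h4]
      refine ⟨mul_nonneg hc.le (ip_self_nonneg _), fun h5 => ip_self_eq_zero ?_⟩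
      exact (mul_eq_zero.1 h5).resolve_left hc.ne'
    · have h3 : g R = 0 := hg R fun h => h2 (Finset.mem_filter.1 h).2
      rw [h3]
      have h4 : ip (0 : Tp p) 0 = 0 := by simp [ip]
      rw [h4]
      simp
  have hsum : (-1 : ℝ) ^ m * F.BB r g g =
      ∑ R ∈ F.fcE r, (-1 : ℝ) ^ m * (F.om R * (∏ v ∈ r, F.X v R) * ip (g R) (g R)) := by
    rw [BB_eq, Finset.mul_sum]
  refine ⟨by rw [hsum]; exact Finset.sum_nonneg fun R hR => (key R hR).1, fun h0 => ?_⟩
  rw [h0, mul_zero] at hsum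
  have h1 := (Finset.sum_eq_zero_iff_of_nonneg (fun R hR => (key R hR).1)).1 hsum.symm
  funext R
  by_cases hR : R ∈ F.fcE r
  · exact (key R hR).2 (h1 R hR)
  · exact hg R fun h => hR (Finset.mem_filter.1 h).1

/-! ### dimensions -/

/-- the number of facets with the wrong sign -/
lemma card_wrong (hG : Sp G n) {r : Finset V} (hr : G.IsClique (r : Set V)) {m : ℕ} (hm : r.card + 2 * m = n) :
    ((F.fcE r).filter fun R => ¬ F.ngE r R % 2 = m % 2).card =
      2 * ∑ j ∈ Finset.range m, if j % 2 = 0 then F.nn r (m + 1 + j) else 0 := by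
  classical
  set f : ℕ → ℕ := fun j => if (j + m) % 2 = 1 then F.nn r j else 0 with hf
  have h1 : ((F.fcE r).filter fun R => ¬ F.ngE r R % 2 = m % 2).card = ∑ j ∈ Finset.range (m + (1 + m)), f j := by
    rw [Finset.card_eq_sum_card_fiberwise (f := fun R => F.ngE r R) (t := Finset.range (m + (1 + m)))]
    · refine Finset.sum_congr rfl fun j _ => ?_
      rw [hf]
      dsimp only
      split_ifs with h2
      · rw [nn_eqE, Finset.filter_filter]
        congr 1
        ext R
        simp only [Finset.mem_filter]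
        constructor
        · rintro ⟨h3, h4, h5⟩
          exact ⟨h3, h5⟩
        · rintro ⟨h3, h5⟩
          exact ⟨h3, by omega, h5⟩
      · rw [Finset.card_eq_zero, Finset.filter_filter]
        rw [Finset.filter_eq_empty_iff]
        rintro R hR ⟨h4, h5⟩
        omega
    · intro R hR
      have h3 := F.ngE_le (Finset.mem_filter.1 (Finset.mem_coe.1 hR)).1
      refine Finset.mem_coe.2 (Finset.mem_range.2 ?_)
      show F.ngE r R < m + (1 + m)
      omega
  rw [h1, Finset.sum_range_add, Finset.sum_range_add]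
  have h2 : ∑ x ∈ Finset.range 1, f (m + x) = 0 := by
    rw [Finset.sum_range_one, hf]
    dsimp only
    rw [if_neg (by omega)]
  have h3 : ∑ x ∈ Finset.range m, f (m + (1 + x)) =
      ∑ j ∈ Finset.range m, if j % 2 = 0 then F.nn r (m + 1 + j) else 0 := by
    refine Finset.sum_congr rfl fun j _ => ?_
    rw [hf]
    dsimp only
    by_cases h4 : j % 2 = 0
    · rw [if_pos h4, if_pos (by omega), add_assoc]
    · rw [if_neg h4, if_neg (by omega)]
  have h4 : ∑ x ∈ Finset.range m, f x =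
      ∑ j ∈ Finset.range m, if j % 2 = 0 then F.nn r (m + 1 + j) else 0 := by
    rw [← Finset.sum_range_reflect]
    refine Finset.sum_congr rfl fun j hj => ?_
    rw [Finset.mem_range] at hj
    rw [hf]
    dsimp only
    by_cases h4 : j % 2 = 0
    · rw [if_pos h4, if_pos (by omega)]
      exact F.nn_symm hG.cx hr (by omega)
    · rw [if_neg h4, if_neg (by omega)]
  rw [h2, h3, h4]
  ring

/-- `J i` -/
def JJ (r : Finset V) (i : ℕ) : Submodule ℝ (Finset V → Tp p) := F.GG r i ⊔ (F.GG r i).map F.DD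

lemma x_ne (hn : 0 < n) (hG : Sp G n) : (∑ j, F.x j ^ 2) ≠ 0 := by
  intro h0
  have h1 := F.gen ∅ (by simp) (by simpa using hn) (fun _ => 0)
  apply h1
  intro j
  rw [Finset.sum_empty]
  have h2 := (Finset.sum_eq_zero_iff_of_nonneg (fun j _ => sq_nonneg (F.x j))).1 h0 j (Finset.mem_univ j)
  exact (pow_eq_zero_iff two_ne_zero |>.1 h2).symm

lemma finrank_map (hx : (∑ j, F.x j ^ 2) ≠ 0) (r : Finset V) (i : ℕ) :
    Module.finrank ℝ ((F.GG r i).map F.DD) = Module.finrank ℝ (F.GG r i) := by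
  apply le_antisymm (Submodule.finrank_map_le _ _)
  have h1 : F.GG r i ≤ ((F.GG r i).map F.DD).map F.DD := by
    intro g hg
    refine ⟨(∑ j, F.x j ^ 2)⁻¹ • F.DD g, Submodule.smul_mem _ _ (Submodule.mem_map_of_mem hg), ?_⟩
    rw [map_smul, F.DD_DD hg.1, smul_smul, inv_mul_cancel₀ hx, one_smul]
  exact (Submodule.finrank_mono h1).trans (Submodule.finrank_map_le _ _)

lemma JJ_succ (hG : Sp G n) {r : Finset V} (hr : G.IsClique (r : Set V)) (hV : F.Van r)
    (hx : (∑ j, F.x j ^ 2) ≠ 0) {i : ℕ} (hi : n < r.card + 2 * i) :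
    F.JJ r (i + 1) = F.GG r i ⊓ (F.GG r i).map F.DD := by
  apply le_antisymm
  · refine sup_le ?_ ?_
    · intro g hg
      refine ⟨F.GG_mono r (Nat.le_succ i) hg, ⟨(∑ j, F.x j ^ 2)⁻¹ • F.DD g, Submodule.smul_mem _ _ (F.DD_GG hg), ?_⟩⟩
      rw [map_smul, F.DD_DD hg.1, smul_smul, inv_mul_cancel₀ hx, one_smul]
    · rintro _ ⟨g, hg, rfl⟩
      exact ⟨F.DD_GG hg, Submodule.mem_map_of_mem (F.GG_mono r (Nat.le_succ i) hg)⟩
  · rintro g ⟨hg, ⟨h, hh, hgh⟩⟩
    have h1 : F.DD g ∈ F.GG r i := by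
      rw [← hgh, F.DD_DD hh.1]
      exact Submodule.smul_mem _ _ hh
    obtain ⟨g₁, h₁, g₂, h₂, h3⟩ := F.split_of_exact hG hr (hV i hi) hg h1
    rw [h3]
    exact Submodule.add_mem_sup h₁ (Submodule.mem_map_of_mem h₂)

lemma finrank_JJ_add (hG : Sp G n) {r : Finset V} (hr : G.IsClique (r : Set V)) (hV : F.Van r)
    (hx : (∑ j, F.x j ^ 2) ≠ 0) {i : ℕ} (hi : n < r.card + 2 * i) :
    Module.finrank ℝ (F.JJ r i) + Module.finrank ℝ (F.JJ r (i + 1)) = 2 * Module.finrank ℝ (F.GG r i) := by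
  rw [F.JJ_succ hG hr hV hx hi]
  unfold JJ
  rw [Submodule.finrank_sup_add_finrank_inf_eq, F.finrank_map hx]
  ring

lemma JJ_top {r : Finset V} (hr : G.IsClique (r : Set V)) {i : ℕ} (hi : n < r.card + i) : F.JJ r i = ⊥ := by
  unfold JJ
  rw [F.GG_top hr hi, Submodule.map_bot, sup_bot_eq]

lemma finrank_GG' (hG : Sp G n) {r : Finset V} (hr : G.IsClique (r : Set V)) (d : ℕ) :
    Module.finrank ℝ (F.GG r d) = Module.finrank ℝ (F.GG r (d + 1)) + F.nn r d * Module.finrank ℝ (Tp p) := by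
  by_cases hd : r.card + d ≤ n
  · exact F.finrank_GG hG hr hd
  · have h1 : F.nn r d = 0 := by
      rw [nn_eqE, Finset.card_eq_zero, Finset.filter_eq_empty_iff]
      intro R hR h2
      have h3 := F.ngE_le hR
      have h4 : r.card ≤ n := by
        obtain ⟨h5, h6⟩ := F.mem_fcE.1 hR
        rw [← h5.2]
        exact Finset.card_le_card h6
      omega
    rw [h1, F.GG_top hr (by omega), F.GG_top hr (by omega), finrank_bot]
    ring

lemma finrank_JJ (hG : Sp G n) {r : Finset V} (hr : G.IsClique (r : Set V)) (hV : F.Van r)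
    (hx : (∑ j, F.x j ^ 2) ≠ 0) (t : ℕ) : ∀ i : ℕ, n < r.card + 2 * i → n < r.card + i + t →
    Module.finrank ℝ (F.JJ r i) = 2 * (∑ j ∈ Finset.range t, if j % 2 = 0 then F.nn r (i + j) else 0) *
      Module.finrank ℝ (Tp p) := by
  induction t using Nat.strong_induction_on with
  | _ t ih =>
    intro i hi ht
    match t, ih with
    | 0, _ =>
      rw [F.JJ_top hr (by omega), finrank_bot]
      simp
    | 1, _ =>
      have h1 := F.finrank_JJ_add hG hr hV hx hi
      rw [F.JJ_top hr (i := i + 1) (by omega), finrank_bot, F.finrank_GG' hG hr i,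
        F.GG_top hr (d := i + 1) (by omega), finrank_bot] at h1
      simp only [Finset.range_one, Finset.sum_singleton, Nat.zero_mod, if_true, add_zero, zero_add] at h1 ⊢
      rw [h1]
      ring
    | t + 2, ih =>
      have h1 := F.finrank_JJ_add hG hr hV hx hi
      have h2 := F.finrank_JJ_add hG hr hV hx (i := i + 1) (by omega)
      have h3 := ih t (by omega) (i + 2) (by omega) (by omega)
      have h4 : ∑ j ∈ Finset.range (t + 2), (if j % 2 = 0 then F.nn r (i + j) else 0) =
          F.nn r i + ∑ j ∈ Finset.range t, (if j % 2 = 0 then F.nn r (i + 2 + j) else 0) := by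
        rw [Finset.sum_range_succ', Finset.sum_range_succ']
        have h5 : ∀ j, (if (j + 1 + 1) % 2 = 0 then F.nn r (i + (j + 1 + 1)) else 0) =
            (if j % 2 = 0 then F.nn r (i + 2 + j) else 0) := by
          intro j
          by_cases h6 : j % 2 = 0
          · rw [if_pos h6, if_pos (by omega)]
            congr 1
            omega
          · rw [if_neg h6, if_neg (by omega)]
        simp only [h5]
        simp
        ring
      rw [h4]
      rw [F.finrank_GG' hG hr i] at h1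
      have h7 : Module.finrank ℝ (F.JJ r (i + 1 + 1)) = Module.finrank ℝ (F.JJ r (i + 2)) := rfl
      rw [h7, h3] at h2
      linarith [h1, h2]

/-! ### the theorem -/

lemma isotropic (hG : Sp G n) {r : Finset V} (hr : G.IsClique (r : Set V)) {m : ℕ} (hm : r.card + 2 * m = n)
    {g h : Finset V → Tp p} (hg : g ∈ F.GG r m) (hg' : F.DD g ∈ F.GG r m) (hh : h ∈ F.JJ r (m + 1)) :
    F.BB r g h = 0 := by
  obtain ⟨h₁, k1, _, ⟨h₂, k2, rfl⟩, rfl⟩ := Submodule.mem_sup.1 hh
  rw [BB_add_right, F.BB_GG hG hr (d := m) (e := m + 1) (by omega) hg k1, ← BB_DD,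
    F.BB_GG hG hr (d := m) (e := m + 1) (by omega) hg' k2, add_zero]

theorem hr_of_van (hG : Sp G n) {r : Finset V} (hr : G.IsClique (r : Set V)) (hV : F.Van r) : F.HR r := by
  classical
  intro m hm g hg hg'
  rcases Nat.eq_zero_or_pos n with hn | hn
  · -- `n = 0`
    have h1 : g ∈ F.Rt r m := by
      intro R hR
      by_cases h2 : R ∈ F.fcE r
      · exfalso
        apply hR
        refine Finset.mem_filter.2 ⟨h2, ?_⟩
        have := F.ngE_le h2
        have h3 : F.ngE r R = 0 := by omega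
        have h4 : m = 0 := by omega
        rw [h3, h4]
      · have h3 := hg.1
        rw [F.ER_eq r] at h3
        exact h3 R h2
    have h2 := F.pos_Rt h1
    refine ⟨h2.1, fun h3 => ⟨0, Submodule.zero_mem _, 0, Submodule.zero_mem _, ?_⟩⟩
    rw [h2.2 h3, map_zero, add_zero]
  · have hx := F.x_ne hn hG
    set J := F.JJ r (m + 1) with hJ
    -- `J` and the right functions span everything
    have hJle : J ≤ ER G n p r := by
      refine sup_le (fun g hg => hg.1) ?_
      rintro _ ⟨k, hk, rfl⟩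
      exact (F.DD_GG hk).1
    have hJC : ∀ k ∈ J, k ∈ F.GG r m ∧ F.DD k ∈ F.GG r m := by
      intro k hk
      obtain ⟨h₁, k1, _, ⟨h₂, k2, rfl⟩, rfl⟩ := Submodule.mem_sup.1 hk
      refine ⟨Submodule.add_mem _ (F.GG_mono r (Nat.le_succ m) k1) (F.DD_GG k2), ?_⟩
      rw [map_add, F.DD_DD k2.1]
      exact Submodule.add_mem _ (F.DD_GG k1) (Submodule.smul_mem _ _ (F.GG_mono r (Nat.le_succ m) k2))
    have hinf : J ⊓ F.Rt r m = ⊥ := by
      rw [eq_bot_iff]
      rintro k ⟨k1, k2⟩
      have h1 := F.isotropic hG hr hm (hJC k k1).1 (hJC k k1).2 k1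
      exact (F.pos_Rt k2).2 h1
    have hsup : J ⊔ F.Rt r m = ER G n p r := by
      apply Submodule.eq_of_le_of_finrank_eq (sup_le hJle (F.Rt_le r m))
      have h1 := Submodule.finrank_sup_add_finrank_inf_eq J (F.Rt r m)
      rw [hinf, finrank_bot, add_zero] at h1
      rw [h1, F.ER_eq r, finrank_sp, hJ, F.finrank_JJ hG hr hV hx m (m + 1) (by omega) (by omega),
        ← F.card_wrong hG hr hm]
      unfold Rt
      rw [finrank_sp, ← Finset.card_filter_add_card_filter_not (s := F.fcE r) (fun R => F.ngE r R % 2 = m % 2)]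
      ring
    have hgE : g ∈ J ⊔ F.Rt r m := by
      rw [hsup]
      exact hg.1
    obtain ⟨j, hj, e, he, rfl⟩ := Submodule.mem_sup.1 hgE
    have h1 : F.BB r (j + e) j = 0 := F.isotropic hG hr hm hg hg' hj
    have h2 : F.BB r j j = 0 := F.isotropic hG hr hm (hJC j hj).1 (hJC j hj).2 hj
    have h3 : F.BB r e j = 0 := by
      rw [BB_add_left, h2, zero_add] at h1
      exact h1
    have h4 : F.BB r (j + e) (j + e) = F.BB r e e := by
      rw [BB_add_right, h1, zero_add, BB_add_left, F.BB_comm r j e, h3, zero_add]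
    rw [h4]
    have h5 := F.pos_Rt he
    refine ⟨h5.1, fun h6 => ?_⟩
    have h7 := h5.2 h6
    rw [h7, add_zero]
    obtain ⟨h₁, k1, _, ⟨h₂, k2, rfl⟩, h8⟩ := Submodule.mem_sup.1 hj
    exact ⟨h₁, k1, h₂, k2, h8.symm⟩

end Fan

end

end Hr
end Singer
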