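import Pool.Agent.Singer.Hr.Defs
import Mathlib.GroupTheory.CosetCover
import Mathlib.LinearAlgebra.Determinant

/-! # Singer/Hr: the fan of a positive configuration with a generic point and weights -/

set_option autoImplicit false
set_option linter.unusedSectionVars false
set_option linter.unusedVariables false

namespace Singer
namespace Hr
namespace Fx

open Finset Singer.Re

variable {V : Type} [Fintype V] [DecidableEq V] {n p : ℕ}

/-- the standard basis -/
noncomputable def sb (n : ℕ) : Module.Basis (Fin n) ℝ (EuclideanSpace ℝ (Fin n)) :=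
  (EuclideanSpace.basisFun (Fin n) ℝ).toBasis

open Classical in
/-- the volume of the parallelepiped of the vectors of `R` -/
noncomputable def vol (c : V → EuclideanSpace ℝ (Fin n)) (R : Finset V) : ℝ :=
  if h : R.card = n then |(sb n).det fun i => c ((Fintype.equivFinOfCardEq (α := R) (by rw [Fintype.card_coe, h])).symm i)| else 1

lemma vol_eq (c : V → EuclideanSpace ℝ (Fin n)) {R : Finset V} (h : R.card = n) (e : Fin n ≃ R) :
    vol c R = |(sb n).det fun i => c (e i)| := by
  rw [vol, dif_pos h]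
  set e' : Fin n ≃ R := (Fintype.equivFinOfCardEq (α := R) (by rw [Fintype.card_coe, h])).symm with he'
  have h1 : (fun i => c (e i)) = (fun i => c (e' i)) ∘ (e.trans e'.symm) := by
    funext i
    simp
  rw [h1, AlternatingMap.map_perm]
  rcases Int.units_eq_one_or (Equiv.Perm.sign (e.trans e'.symm)) with h2 | h2
  · rw [h2, one_smul]
  · rw [h2, Units.neg_smul, one_smul, abs_neg]

lemma vol_pos {G : SimpleGraph V} {c : V → EuclideanSpace ℝ (Fin n)} {f : V → EuclideanSpace ℝ (Fin p)} (hG : Cx G n)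
    (h : Cf G c f) {R : Finset V} (hR : G.IsClique (R : Set V)) (hc : R.card = n) : 0 < vol c R := by
  let e : Fin n ≃ R := (Fintype.equivFinOfCardEq (α := R) (by rw [Fintype.card_coe, hc])).symm
  rw [vol_eq c hc e, abs_pos]
  have hli : LinearIndependent ℝ (fun v : R => c v) := by
    rw [Fintype.linearIndependent_iff]
    intro g hg i
    have h1 : ∑ v ∈ R, (if hv : v ∈ R then g ⟨v, hv⟩ else 0) • c v = 0 := by
      rw [← sum_coe_sort R]
      rw [← hg]
      refine sum_congr rfl fun v _ => ?_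
      rw [dif_pos v.2]
    have h2 := h.indep hG hR hc _ h1 i.1 i.2
    rwa [dif_pos i.2] at h2
  have hli2 : LinearIndependent ℝ (fun i => c (e i)) := hli.comp e e.injective
  have h3 : Submodule.span ℝ (Set.range fun i => c (e i)) = ⊤ :=
    hli2.span_eq_top_of_card_eq_finrank' (by simp)
  exact ((sb n).is_basis_iff_det.1 ⟨hli2, h3⟩).ne_zero

lemma vol_ridge (c : V → EuclideanSpace ℝ (Fin n)) {S : Finset V} (hS : S.card + 1 = n) {u v : V} (hu : u ∉ S)
    (hv : v ∉ S) (b : V → ℝ) (β : ℝ) (h : c u = β • c v + ∑ w ∈ S, b w • c w) :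
    vol c (insert u S) = |β| * vol c (insert v S) := by
  classical
  let eS : Fin n ≃ Option S := (Fintype.equivFinOfCardEq (α := Option S) (by
    rw [Fintype.card_option, Fintype.card_coe, hS])).symm
  let g0 : Fin n → EuclideanSpace ℝ (Fin n) := fun i => (eS i).elim 0 fun s => c s
  let L : EuclideanSpace ℝ (Fin n) →ₗ[ℝ] ℝ := (sb n).det.toMultilinearMap.toLinearMap g0 (eS.symm none)
  have hL : ∀ y, L y = (sb n).det (Function.update g0 (eS.symm none) y) := fun y => rfl
  have hvol : ∀ t, t ∉ S → vol c (insert t S) = |L (c t)| := by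
    intro t ht
    have hcard : (insert t S).card = n := by rw [card_insert_of_notMem ht, hS]
    rw [vol_eq c hcard (eS.trans (subtypeInsertEquivOption ht).symm), hL]
    congr 2
    funext i
    rcases ho : eS i with _ | s
    · have hi : i = eS.symm none := by rw [← ho, Equiv.symm_apply_apply]
      subst hi
      rw [Function.update_self, Equiv.trans_apply, ho]
      rfl
    · have hi : i ≠ eS.symm none := by
        rintro rfl
        rw [Equiv.apply_symm_apply] at ho
        exact absurd ho (by simp)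
      rw [Function.update_of_ne hi, Equiv.trans_apply, ho]
      change c s = (eS i).elim 0 fun s => c s
      rw [ho]
      rfl
  have hzero : ∀ w ∈ S, L (c w) = 0 := by
    intro w hw
    rw [hL]
    have hne : eS.symm none ≠ eS.symm (some ⟨w, hw⟩) := fun h1 => by
      have := eS.symm.injective h1
      simp at this
    refine AlternatingMap.map_eq_zero_of_eq _ _ ?_ hne
    rw [Function.update_self, Function.update_of_ne hne.symm]
    change c w = (eS (eS.symm (some ⟨w, hw⟩))).elim 0 fun s => c s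
    rw [Equiv.apply_symm_apply]
    rfl
  rw [hvol u hu, hvol v hv, h, map_add, map_smul, map_sum, sum_eq_zero, add_zero, smul_eq_mul, abs_mul]
  intro w hw
  rw [map_smul, hzero w hw, smul_zero]

lemma inner_eq_fx {m : ℕ} (a b : EuclideanSpace ℝ (Fin m)) : inner ℝ a b = ∑ j, a j * b j := by
  rw [PiLp.inner_apply]
  refine sum_congr rfl fun j _ => ?_
  simp [inner]
  ring

end Fx

open Finset Singer.Re Fx

variable {V : Type} [Fintype V] [DecidableEq V]

theorem exists_fan {n p : ℕ} {G : SimpleGraph V} (hG : Cx G n) {c : V → EuclideanSpace ℝ (Fin n)}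
    {f : V → EuclideanSpace ℝ (Fin p)} (h : Cf G c f) : Nonempty (Fan G n p) := by
  classical
  have h1 : ∀ R : Finset V, ∃ ξ : V → EuclideanSpace ℝ (Fin n) →ₗ[ℝ] ℝ, Fac G n R →
      (∀ y, ∑ v ∈ R, ξ v y • c v = y) ∧ ∀ (a : V → ℝ), ∀ v ∈ R, ξ v (∑ w ∈ R, a w • c w) = a v := by
    intro R
    by_cases h2 : Fac G n R
    · obtain ⟨ξ, hξ⟩ := exists_coord hG h h2.1 h2.2
      exact ⟨ξ, fun _ => hξ⟩
    · exact ⟨fun _ => 0, fun h3 => absurd h3 h2⟩
  choose ξ hξ using h1
  have hsingle : ∀ R, ∀ u ∈ R, ∑ w ∈ R, (if w = u then (1 : ℝ) else 0) • c w = c u := by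
    intro R u hu
    rw [sum_eq_single u]
    · rw [if_pos rfl, one_smul]
    · intro w _ hw
      rw [if_neg hw, zero_smul]
    · intro h2
      exact absurd hu h2
  have hδ : ∀ R, Fac G n R → ∀ v ∈ R, ∀ u ∈ R, ξ R v (c u) = if v = u then 1 else 0 := by
    intro R hR v hv u hu
    conv_lhs => rw [← hsingle R u hu]
    rw [(hξ R hR).2 _ v hv]
  -- a generic point
  obtain ⟨x, hx⟩ : ∃ x : EuclideanSpace ℝ (Fin n), ∀ R, Fac G n R → ∀ v ∈ R, ξ R v x ≠ 0 := by
    by_contra hcon
    push Not at hcon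
    let ι := {q : Finset V × V // Fac G n q.1 ∧ q.2 ∈ q.1}
    have hcov : ⋃ q : ι, (LinearMap.ker (ξ q.1.1 q.1.2) : Set (EuclideanSpace ℝ (Fin n))) = Set.univ := by
      rw [Set.eq_univ_iff_forall]
      intro y
      obtain ⟨R, hR, v, hv, h2⟩ := hcon y
      exact Set.mem_iUnion.2 ⟨⟨(R, v), hR, hv⟩, h2⟩
    obtain ⟨⟨⟨R, v⟩, hR, hv⟩, hq⟩ := Subspace.exists_eq_top_of_iUnion_eq_univ
      (p := fun q : ι => LinearMap.ker (ξ q.1.1 q.1.2)) hcov
    have h2 : c v ∈ LinearMap.ker (ξ R v) := by
      have h3 : c v ∈ (⊤ : Submodule ℝ (EuclideanSpace ℝ (Fin n))) := Submodule.mem_top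
      rw [← hq] at h3
      exact h3
    rw [LinearMap.mem_ker, hδ R hR v hv v hv, if_pos rfl] at h2
    exact one_ne_zero h2
  let X : V → Finset V → ℝ := fun v R => if Fac G n R ∧ v ∈ R then ξ R v x else 0
  have hX : ∀ R, Fac G n R → ∀ v ∈ R, X v R = ξ R v x := fun R hR v hv => if_pos ⟨hR, hv⟩
  have hXsum : ∀ R, Fac G n R → ∑ v ∈ R, X v R • c v = x := by
    intro R hR
    conv_rhs => rw [← (hξ R hR).1 x]
    exact sum_congr rfl fun v hv => by rw [hX R hR v hv]
  have hXne : ∀ R, Fac G n R → ∀ v ∈ R, X v R ≠ 0 := fun R hR v hv => by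
    rw [hX R hR v hv]
    exact hx R hR v hv
  have hcoef : ∀ R, Fac G n R → ∀ a : V → ℝ, ∑ v ∈ R, a v • c v = x → ∀ v ∈ R, X v R = a v := by
    intro R hR a ha v hv
    rw [hX R hR v hv, ← ha, (hξ R hR).2 a v hv]
  refine ⟨{
    c := fun v j => c v j
    f := fun v j => f v j
    x := fun j => x j
    X := X
    w := fun R => if Fac G n R then (vol c R)⁻¹ else 1
    iso := ?_
    pos := ?_
    dual := ?_
    X0 := ?_
    Xne := hXne
    Xc := ?_
    wpos := ?_
    ridge := ?_
    gen := ?_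
    fanp := ?_
    fann := ?_ }⟩
  · intro u v huv
    rw [← inner_eq_fx, ← inner_eq_fx]
    exact h.eq u v huv
  · intro u v huv hadj
    rw [← inner_eq_fx, ← inner_eq_fx]
    exact h.lt u v huv hadj
  · intro S hS v hv
    obtain ⟨R, hR, hRc, hSR⟩ := hG.ext S hS
    have hl : ∀ u, ∑ j, ξ R v (sb n j) * c u j = ξ R v (c u) := by
      intro u
      conv_rhs => rw [← (sb n).sum_repr (c u)]
      rw [map_sum]
      refine sum_congr rfl fun j _ => ?_
      rw [map_smul, smul_eq_mul, mul_comm]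
      rfl
    refine ⟨fun j => ξ R v (sb n j), ?_, fun u hu huv => ?_⟩
    · rw [hl, hδ R ⟨hR, hRc⟩ v (hSR hv) v (hSR hv), if_pos rfl]
    · rw [hl, hδ R ⟨hR, hRc⟩ v (hSR hv) u (hSR hu), if_neg huv.symm]
  · intro v R hv
    exact if_neg fun h2 => hv h2.2
  · intro R hR j
    have h2 := congrArg (fun y : EuclideanSpace ℝ (Fin n) => y j) (hXsum R hR)
    simp only at h2
    rw [← h2]
    simp
  · intro R
    by_cases hR : Fac G n R
    · simp only [if_pos hR]
      exact inv_pos.2 (vol_pos hG h hR.1 hR.2)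
    · simp only [if_neg hR]
      exact one_pos
  · intro S hS u v hu hv huv hFu hFv
    simp only [if_pos hFu, if_pos hFv]
    obtain ⟨b, β, hβ, hb⟩ := h.ridge_sign hG hS hu hv huv hFu.1 hFv.1
    rw [vol_ridge c hS hu hv b β hb]
    have h2 : X v (insert v S) = X u (insert u S) * β := by
      have h3 := hXsum _ hFu
      rw [sum_insert hu, hb] at h3
      have h4 : ∑ w ∈ insert v S, (if w = v then X u (insert u S) * β else X w (insert u S) +
          X u (insert u S) * b w) • c w = x := by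
        rw [sum_insert hv, if_pos rfl]
        conv_rhs => rw [← h3]
        rw [smul_add, mul_smul, add_assoc]
        congr 1
        rw [smul_sum, ← sum_add_distrib]
        refine sum_congr rfl fun w hwT => ?_
        rw [if_neg, add_smul, mul_smul, add_comm]
        rintro rfl
        exact hv hwT
      have h5 := hcoef _ hFv _ h4 v (mem_insert_self v S)
      rwa [if_pos rfl] at h5
    have hvp := (vol_pos hG h hFv.1 hFv.2).ne'
    have hXu := hXne _ hFu u (mem_insert_self u S)
    rw [h2, abs_of_neg hβ]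
    field_simp
    ring
  · intro S hS hSn b hb
    obtain ⟨R, hR, hRc, hSR⟩ := hG.ext S hS
    obtain ⟨v, hv⟩ : (R \ S).Nonempty := by
      rw [← card_pos, card_sdiff_of_subset hSR]
      omega
    have hvR := (mem_sdiff.1 hv).1
    have hvS := (mem_sdiff.1 hv).2
    have h2 : ∑ w ∈ R, (if w ∈ S then b w else 0) • c w = x := by
      have h3 : ∑ w ∈ S, b w • c w = x := by
        ext j
        rw [← hb j]
        simp
      rw [← h3, ← sum_filter_add_sum_filter_not R (fun w => w ∈ S) fun w => (if w ∈ S then b w else 0) • c w,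
        sum_eq_zero (s := R.filter fun w => w ∉ S), add_zero, filter_mem_eq_inter, inter_eq_right.2 hSR]
      · exact sum_congr rfl fun w hw => by rw [if_pos hw]
      · intro w hw
        rw [if_neg (mem_filter.1 hw).2, zero_smul]
    have h3 := hcoef R ⟨hR, hRc⟩ _ h2 v hvR
    rw [if_neg hvS] at h3
    exact hXne R ⟨hR, hRc⟩ v hvR h3
  · intro S hS
    obtain ⟨R, hR, hRc, hSR, a, ha, ha0⟩ := h.fan_exists hG hS x
    refine ⟨R, ⟨⟨hR, hRc⟩, hSR, fun v hv hvS => ?_⟩, ?_⟩
    · have h2 := hcoef R ⟨hR, hRc⟩ a ha v hv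
      have h3 := hXne R ⟨hR, hRc⟩ v hv
      have h4 := ha0 v hv hvS
      rw [← h2] at h4
      exact lt_of_le_of_ne h4 h3.symm
    · rintro R' ⟨hR', hSR', h5⟩
      refine h.fan_unique hG hR'.1 hR'.2 hR hRc hSR' hSR (fun v => X v R') (fun v => X v R)
        ((hXsum R' hR').trans (hXsum R ⟨hR, hRc⟩).symm) h5 fun v hv hvS => ?_
      have h2 := hcoef R ⟨hR, hRc⟩ a ha v hv
      have h3 := hXne R ⟨hR, hRc⟩ v hv
      have h4 := ha0 v hv hvS
      rw [← h2] at h4
      exact lt_of_le_of_ne h4 h3.symm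
  · intro S hS
    obtain ⟨R, hR, hRc, hSR, a, ha, ha0⟩ := h.fan_exists hG hS (-x)
    have ha' : ∑ v ∈ R, (-a v) • c v = x := by
      simp only [neg_smul, sum_neg_distrib, ha, neg_neg]
    have hneg : ∀ v ∈ R, v ∉ S → X v R < 0 := by
      intro v hv hvS
      have h2 := hcoef R ⟨hR, hRc⟩ _ ha' v hv
      have h3 := hXne R ⟨hR, hRc⟩ v hv
      have h4 := ha0 v hv hvS
      refine lt_of_le_of_ne ?_ h3
      rw [h2]
      linarith
    refine ⟨R, ⟨⟨hR, hRc⟩, hSR, hneg⟩, ?_⟩
    rintro R' ⟨hR', hSR', h5⟩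
    refine h.fan_unique hG hR'.1 hR'.2 hR hRc hSR' hSR (fun v => -X v R') (fun v => -X v R) ?_
      (fun v hv hvS => neg_pos.2 (h5 v hv hvS)) fun v hv hvS => neg_pos.2 (hneg v hv hvS)
    simp only [neg_smul, sum_neg_distrib]
    rw [hXsum R' hR', hXsum R ⟨hR, hRc⟩]

end Hr
end Singer
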