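import Pool.Agent.Singer.Hr.Defs
import Pool.Agent.Helper34.Car.Chain

/-!
# Singer/Hr: chain local-global principle

A chain on the link of `r` is killed vertex by vertex (`Pool.Agent.Helper34.Ch.kill`).
-/

set_option autoImplicit false
set_option linter.unusedSectionVars false
set_option linter.unusedVariables false

namespace Singer
namespace Hr

open Singer.Re Pool.Agent.Helper34

noncomputable section

variable {V : Type} [Fintype V] [DecidableEq V]

section A1
variable {M : Type} [AddCommGroup M] [Module ℝ M]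

theorem rk_inj' : Function.Injective (rk : V → ℕ) := fun _ _ h => (Fintype.equivFin V).injective (Fin.ext h)

theorem bd_eq' (z : Finset V → M) (S : Finset V) : Re.bd z S = Ch.bd rk z S := by
  rw [Ch.bd_apply]
  rfl

theorem bd_zero_iff {z : Finset V → M} : (∀ S, Re.bd z S = 0) ↔ Ch.bd rk z = 0 := by
  constructor
  · intro h
    funext S
    rw [← bd_eq', h]
    rfl
  · intro h S
    rw [bd_eq', h]
    rfl

theorem bd_eq_iff {z y : Finset V → M} : (∀ S, Re.bd y S = z S) ↔ Ch.bd rk y = z := by
  constructor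
  · intro h
    funext S
    rw [← bd_eq', h]
  · intro h S
    rw [bd_eq', h]

theorem loc_eq (v : V) (z : Finset V → M) (S : Finset V) : loc v z S = Ch.iv rk v z S := rfl

theorem down (G : SimpleGraph V) (S T : Finset V) (h : S ⊆ T) (hT : G.IsClique (T : Set V)) :
    G.IsClique (S : Set V) := hT.subset (Finset.coe_subset.2 h)

theorem chP_iff (G : SimpleGraph V) (K : Finset V → Submodule ℝ M) (r : Finset V) (i : ℕ) (z : Finset V → M) :
    ChP (lkP G K r) i z ↔ Ch.Cc (fun S : Finset V => G.IsClique (S : Set V)) (fun S => (K S).toAddSubgroup) ∅ r i z := by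
  constructor
  · intro h
    have h0 : ∀ S, z S ≠ 0 → Fl G r S := by
      intro S hS
      by_contra hf
      have h1 := (h S).1
      unfold lkP at h1
      rw [if_neg hf] at h1
      exact hS h1
    refine ⟨fun S hS => ⟨(h0 S hS).2, (h0 S hS).1.symm, Finset.disjoint_empty_left S, (h S).2 hS⟩, fun S => ?_⟩
    by_cases hS : z S = 0
    · rw [hS]
      exact (K _).zero_mem
    · have h1 := (h S).1
      unfold lkP at h1
      rw [if_pos (h0 S hS)] at h1
      exact h1
  · intro h S
    refine ⟨?_, fun hS => (h.1 S hS).2.2.2⟩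
    unfold lkP
    split_ifs with hf
    · exact h.2 S
    · by_contra hS
      have hS' : z S ≠ 0 := fun h0 => hS (by rw [h0]; exact Submodule.zero_mem _)
      exact hf ⟨(h.1 S hS').2.1.symm, (h.1 S hS').1⟩

theorem exP_iff (G : SimpleGraph V) (K : Finset V → Submodule ℝ M) (r : Finset V) (i : ℕ) :
    ExP (lkP G K r) i ↔
      Ch.Van rk (fun S : Finset V => G.IsClique (S : Set V)) (fun S => (K S).toAddSubgroup) ∅ r i := by
  constructor
  · intro h z hz hb
    obtain ⟨y, hy, hyz⟩ := h z ((chP_iff G K r i z).2 hz) (bd_zero_iff.2 hb)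
    exact ⟨y, (chP_iff G K r (i + 1) y).1 hy, bd_eq_iff.1 hyz⟩
  · intro h z hz hb
    obtain ⟨y, hy, hyz⟩ := h z ((chP_iff G K r i z).1 hz) (bd_zero_iff.1 hb)
    exact ⟨y, (chP_iff G K r (i + 1) y).2 hy, bd_eq_iff.2 hyz⟩

/-- exactness is trivial on the link of a set which is not a clique -/
theorem exP_of_not (G : SimpleGraph V) (K : Finset V → Submodule ℝ M) {r : Finset V}
    (hr : ¬ G.IsClique (r : Set V)) (i : ℕ) : ExP (lkP G K r) i := by
  intro z hz hb
  refine ⟨0, fun S => ⟨Submodule.zero_mem _, fun h => absurd rfl h⟩, fun S => ?_⟩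
  have h1 := (hz S).1
  unfold lkP at h1
  rw [if_neg (fun hf : Fl G r S => hr (down G r (r ∪ S) Finset.subset_union_left hf.2))] at h1
  have h2 : z S = 0 := h1
  rw [h2, bd_eq', map_zero]
  rfl

theorem ex_of_loc (G : SimpleGraph V) (K : Finset V → Submodule ℝ M) (hK : ∀ S T, S ⊆ T → K T ≤ K S)
    (r : Finset V) (hr : G.IsClique (r : Set V)) (i : ℕ)
    (hex : ∀ m : Finset V, r ⊆ m → G.IsClique (m : Set V) → r.card + 2 ≤ m.card → ExP (lkP G K m) i)
    (z : Finset V → M) (hz : ChP (lkP G K r) (i + 1) z) (hz0 : ∀ S, Re.bd z S = 0)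
    (hloc : ∀ v, v ∉ r → G.IsClique ((insert v r : Finset V) : Set V) →
      ∃ y, ChP (lkP G K (insert v r)) (i + 1) y ∧ ∀ S, Re.bd y S = loc v z S) :
    ∃ y, ChP (lkP G K r) (i + 2) y ∧ ∀ S, Re.bd y S = z S := by
  have hz' := (chP_iff G K r (i + 1) z).1 hz
  obtain ⟨y, hy, hyz⟩ := Ch.kill rk_inj' (down G) (K := fun S => (K S).toAddSubgroup)
    (fun S T h => hK S T h) (m := r) (i := i) (fun m hm hc => by
      by_cases hcl : G.IsClique (m : Set V)
      · exact (exP_iff G K m i).1 (hex m hm hcl hc)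
      · exact (exP_iff G K m i).1 (exP_of_not G K hcl i)) hz' (bd_zero_iff.1 hz0) (fun v hv => by
      by_cases hcl : G.IsClique ((insert v r : Finset V) : Set V)
      · obtain ⟨y, hy, hyz⟩ := hloc v hv hcl
        exact ⟨y, (chP_iff G K (insert v r) (i + 1) y).1 hy, bd_eq_iff.1 hyz⟩
      · refine ⟨0, Ch.Cc.zero _ _ _, ?_⟩
        rw [map_zero]
        funext S
        by_contra h0
        have := (hz'.iv v).1 S (Ne.symm h0)
        exact hcl (down G _ _ Finset.subset_union_left this.1))
  exact ⟨y, (chP_iff G K r (i + 2) y).2 hy, bd_eq_iff.2 hyz⟩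

theorem ex_of_links (G : SimpleGraph V) (K : Finset V → Submodule ℝ M) (hK : ∀ S T, S ⊆ T → K T ≤ K S)
    (r : Finset V) (hr : G.IsClique (r : Set V)) (i : ℕ)
    (hex : ∀ m : Finset V, r ⊆ m → G.IsClique (m : Set V) → r.card + 1 ≤ m.card → ExP (lkP G K m) i) :
    ExP (lkP G K r) (i + 1) :=
  (exP_iff G K r (i + 1)).2 (Ch.local_global rk_inj' (down G) (K := fun S => (K S).toAddSubgroup)
    (fun S T h => hK S T h) (m := r) (i := i) (fun m hm hc => by
      by_cases hcl : G.IsClique (m : Set V)
      · exact (exP_iff G K m i).1 (hex m hm hcl hc)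
      · exact (exP_iff G K m i).1 (exP_of_not G K hcl i)))

/-- the local part of a chain is a chain of the link, with boundary minus the local part of the boundary -/
theorem loc_mem (G : SimpleGraph V) (K : Finset V → Submodule ℝ M) {r : Finset V} {v : V} (hv : v ∉ r) {i : ℕ}
    {z : Finset V → M} (hz : ChP (lkP G K r) (i + 1) z) : ChP (lkP G K (insert v r)) i (loc v z) :=
  (chP_iff G K (insert v r) i (loc v z)).2 (((chP_iff G K r (i + 1) z).1 hz).iv v)

theorem bd_loc (v : V) (z : Finset V → M) (S : Finset V) : Re.bd (loc v z) S = -loc v (Re.bd z) S := by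
  have h := congrFun (Ch.bd_iv rk_inj' v z) S
  have e : Re.bd z = Ch.bd rk z := funext fun S => bd_eq' z S
  rw [bd_eq', loc_eq, e]
  exact h

end A1

end

end Hr
end Singer
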