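import Pool.Agent.Singer.Hr.Iden
import Pool.Agent.Singer.Hr.Local
import Pool.Agent.Singer.Hr.Lead
import Pool.Agent.Singer.Hr.Dual
import Pool.Agent.Singer.Hr.Comp

/-!
# Singer/Hr: vanishing in odd dimension

`van_odd`: exactness in degree `k + 1` of the complex of the link of a face `r` with `n - |r| = 2 k + 1`, from the
exactness above the middle for the smaller links and the Hodge-Riemann property of the links of the vertices of the
link (note C3 of MP_984acc_REAL_h16.md).
-/

set_option autoImplicit false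
set_option linter.unusedSectionVars false
set_option linter.unusedVariables false

namespace Singer
namespace Hr

open Singer.Re Pool.Agent.Helper34.Car

noncomputable section

variable {V : Type} [Fintype V] [DecidableEq V]

lemma odd_ip_BF {p : ℕ} (s t : Tp p) : ip s t = BF (LinearMap.mul ℝ ℝ) s t := rfl

lemma odd_ip_gam {p : ℕ} (y : Fin p → ℝ) (s t : Tp p) : ip (gam (M := ℝ) y s) t = ip s (gam (M := ℝ) y t) := by
  rw [odd_ip_BF, odd_ip_BF, BF_gam (fun a b => mul_comm a b)]

lemma odd_ip_comm {p : ℕ} (s t : Tp p) : ip s t = ip t s := by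
  unfold ip
  exact Finset.sum_congr rfl fun _ _ => mul_comm _ _

lemma odd_ip_add {p : ℕ} (s t t' : Tp p) : ip s (t + t') = ip s t + ip s t' := by
  unfold ip
  rw [← Finset.sum_add_distrib]
  exact Finset.sum_congr rfl fun J _ => by rw [Pi.add_apply, mul_add]

lemma odd_ip_smul {p : ℕ} (a : ℝ) (s t : Tp p) : ip s (a • t) = a * ip s t := by
  unfold ip
  rw [Finset.mul_sum]
  exact Finset.sum_congr rfl fun J _ => by rw [Pi.smul_apply, smul_eq_mul]; ring

/-- the polarised norm identity of the Clifford multiplication -/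
lemma odd_ip_gam_gam {p : ℕ} (y y' : Fin p → ℝ) (s : Tp p) :
    ip (gam (M := ℝ) y s) (gam (M := ℝ) y' s) = (∑ j, y j * y' j) * ip s s := by
  have h1 : ip (gam (M := ℝ) y s) (gam (M := ℝ) y' s) = ip s (gam (M := ℝ) y (gam (M := ℝ) y' s)) := odd_ip_gam _ _ _
  have h2 : ip (gam (M := ℝ) y s) (gam (M := ℝ) y' s) = ip s (gam (M := ℝ) y' (gam (M := ℝ) y s)) := by
    rw [odd_ip_comm, odd_ip_gam]
  have h3 : ip s (gam (M := ℝ) y (gam (M := ℝ) y' s)) + ip s (gam (M := ℝ) y' (gam (M := ℝ) y s)) =
      (2 * ∑ j, y j * y' j) * ip s s := by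
    rw [← odd_ip_add, gam_gam, odd_ip_smul]
  rw [← h1, ← h2] at h3
  linarith

lemma odd_bd_add {M : Type} [AddCommGroup M] (y z : Finset V → M) (S : Finset V) :
    bd (y + z) S = bd y S + bd z S := by
  unfold bd
  rw [← Finset.sum_add_distrib]
  exact Finset.sum_congr rfl fun v _ => by rw [Pi.add_apply, smul_add]

lemma odd_bd_smul {M : Type} [AddCommGroup M] [Module ℝ M] (a : ℝ) (y : Finset V → M) (S : Finset V) :
    bd (a • y) S = a • bd y S := by
  unfold bd
  rw [Finset.smul_sum]
  refine Finset.sum_congr rfl fun v _ => ?_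
  rw [Pi.smul_apply, smul_comm]

lemma odd_ChP_add {M : Type} [AddCommGroup M] [Module ℝ M] {P : Finset V → Submodule ℝ M} {i : ℕ} {y z : Finset V → M}
    (hy : ChP P i y) (hz : ChP P i z) : ChP P i (y + z) := by
  intro S
  refine ⟨(P S).add_mem (hy S).1 (hz S).1, fun h => ?_⟩
  by_contra hS
  apply h
  have h1 : y S = 0 := by
    by_contra h'
    exact hS ((hy S).2 h')
  have h2 : z S = 0 := by
    by_contra h'
    exact hS ((hz S).2 h')
  rw [Pi.add_apply, h1, h2, add_zero]

lemma odd_ChP_smul {M : Type} [AddCommGroup M] [Module ℝ M] {P : Finset V → Submodule ℝ M} {i : ℕ} {y : Finset V → M}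
    (a : ℝ) (hy : ChP P i y) : ChP P i (a • y) := by
  intro S
  refine ⟨(P S).smul_mem a (hy S).1, fun h => (hy S).2 fun h' => h ?_⟩
  rw [Pi.smul_apply, h', smul_zero]

namespace Fan
variable {G : SimpleGraph V} {n p : ℕ} (F : Fan G n p)

open Classical in
/-- the restriction of `g` to the facets which contain `v` -/
def odd_rst (v : V) (g : Finset V → Tp p) (R : Finset V) : Tp p := if v ∈ R then g R else 0

lemma odd_rst_ER {r : Finset V} {v : V} {g : Finset V → Tp p} (hg : g ∈ ER G n p r) :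
    odd_rst v g ∈ ER G n p (insert v r) := by
  intro R hR
  unfold odd_rst
  by_cases hv : v ∈ R
  · rw [if_pos hv]
    exact hg R fun h => hR ⟨h.1, Finset.insert_subset hv h.2⟩
  · rw [if_neg hv]

lemma odd_al_rst {v : V} {g : Finset V → Tp p} {θ : Finset V} (hv : v ∈ θ) : F.al (odd_rst v g) θ = F.al g θ := by
  classical
  unfold al
  refine Finset.sum_congr rfl fun R hR => ?_
  rw [Finset.mem_filter] at hR
  rw [odd_rst, if_pos (hR.2.2 hv)]

lemma odd_DD_rst (v : V) (g : Finset V → Tp p) : F.DD (odd_rst v g) = odd_rst v (F.DD g) := by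
  funext R
  show gam (M := ℝ) _ (odd_rst v g R) = odd_rst v (F.DD g) R
  unfold odd_rst
  by_cases hv : v ∈ R
  · rw [if_pos hv, if_pos hv]
    rfl
  · rw [if_neg hv, if_neg hv, map_zero]

lemma odd_Fl_insert {r S : Finset V} {v : V} (hv : v ∉ r) (h : Fl G (insert v r) S) :
    Fl G r (insert v S) ∧ v ∉ S ∧ r ∪ insert v S = insert v r ∪ S := by
  have h1 : v ∉ S := fun h' => (Finset.disjoint_left.1 h.1 h') (Finset.mem_insert_self v r)
  have h2 : r ∪ insert v S = insert v r ∪ S := by
    rw [Finset.union_insert, Finset.insert_union]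
  refine ⟨⟨?_, ?_⟩, h1, h2⟩
  · rw [Finset.disjoint_left]
    intro w hw hwr
    rcases Finset.mem_insert.1 hw with rfl | hw
    · exact hv hwr
    · exact Finset.disjoint_left.1 h.1 hw (Finset.mem_insert_of_mem hwr)
  · rw [h2]
    exact h.2

lemma odd_rst_GG {r : Finset V} {v : V} (hv : v ∉ r) {d : ℕ} {g : Finset V → Tp p} (hg : g ∈ F.GG r (d + 1)) :
    odd_rst v g ∈ F.GG (insert v r) d := by
  refine ⟨odd_rst_ER hg.1, fun S hS hd => ?_⟩
  obtain ⟨h1, h2, h3⟩ := odd_Fl_insert hv hS
  rw [odd_al_rst F (Finset.mem_union_left _ (Finset.mem_insert_self v r)), ← h3]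
  refine hg.2 _ h1 ?_
  rw [Finset.card_insert_of_notMem h2]
  omega

/-- Clifford multiplication by a constant vector -/
lemma odd_al_gam (y : Fin p → ℝ) (g : Finset V → Tp p) (θ : Finset V) :
    F.al (fun R => gam (M := ℝ) y (g R)) θ = gam (M := ℝ) y (F.al g θ) := by
  unfold al
  rw [map_sum]
  refine Finset.sum_congr rfl fun R _ => ?_
  rw [map_smul]

lemma odd_gam_GG {r : Finset V} {d : ℕ} (y : Fin p → ℝ) {g : Finset V → Tp p} (hg : g ∈ F.GG r d) :
    (fun R => gam (M := ℝ) y (g R)) ∈ F.GG r d := by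
  refine ⟨fun R hR => ?_, fun S hS hd => ?_⟩
  · show gam (M := ℝ) y (g R) = 0
    rw [hg.1 R hR, map_zero]
  · rw [odd_al_gam, hg.2 S hS hd, map_zero]

open Classical in
/-- the coefficients of the relation between the vertices -/
def odd_bt (r : Finset V) (g : Finset V → Tp p) (v : V) : ℝ :=
  ∑ R ∈ Finset.univ.filter (fun R => Fac G n R ∧ r ⊆ R), F.om R * (∏ w ∈ r, F.X w R) * F.X v R * ip (g R) (g R)

lemma odd_bt_eq_BB {r : Finset V} {v : V} (hv : v ∉ r) (g : Finset V → Tp p) :
    F.odd_bt r g v = F.BB (insert v r) (odd_rst v g) (odd_rst v g) := by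
  classical
  unfold odd_bt BB
  rw [← Finset.sum_filter_add_sum_filter_not (Finset.univ.filter fun R => Fac G n R ∧ r ⊆ R) (fun R => v ∈ R)]
  have h1 : ∑ R ∈ (Finset.univ.filter fun R => Fac G n R ∧ r ⊆ R).filter (fun R => v ∉ R),
      F.om R * (∏ w ∈ r, F.X w R) * F.X v R * ip (g R) (g R) = 0 := by
    refine Finset.sum_eq_zero fun R hR => ?_
    rw [Finset.mem_filter] at hR
    rw [F.X0 v R hR.2, mul_zero, zero_mul]
  rw [h1, add_zero]
  have h2 : (Finset.univ.filter fun R => Fac G n R ∧ r ⊆ R).filter (fun R => v ∈ R) =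
      Finset.univ.filter fun R => Fac G n R ∧ insert v r ⊆ R := by
    ext R
    simp only [Finset.mem_filter, Finset.mem_univ, true_and, Finset.insert_subset_iff]
    tauto
  rw [h2]
  refine Finset.sum_congr rfl fun R hR => ?_
  rw [Finset.mem_filter] at hR
  have h3 : v ∈ R := hR.2.2 (Finset.mem_insert_self v r)
  have h4 : odd_rst v g R = g R := if_pos h3
  rw [h4, Finset.prod_insert hv]
  ring

lemma odd_bt_zero {r : Finset V} {v : V} (hv : ¬ G.IsClique ((insert v r : Finset V) : Set V)) (g : Finset V → Tp p) :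
    F.odd_bt r g v = 0 := by
  classical
  unfold odd_bt
  refine Finset.sum_eq_zero fun R hR => ?_
  rw [Finset.mem_filter] at hR
  have h3 : v ∉ R := fun h => hv (hR.2.1.1.subset (by
    exact_mod_cast Finset.insert_subset h hR.2.2))
  rw [F.X0 v R h3, mul_zero, zero_mul]

/-- the relation, first part -/
lemma odd_bt_c {r : Finset V} {g : Finset V → Tp p} (h : F.BB r g g = 0) (j : Fin n) :
    ∑ v, F.odd_bt r g v * F.c v j = 0 := by
  classical
  have h1 : ∑ v, F.odd_bt r g v * F.c v j = F.x j * F.BB r g g := by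
    unfold odd_bt BB
    simp only [Finset.sum_mul]
    rw [Finset.sum_comm, Finset.mul_sum]
    refine Finset.sum_congr rfl fun R hR => ?_
    rw [Finset.mem_filter] at hR
    have h2 : ∑ v, F.X v R * F.c v j = F.x j := by
      rw [← F.Xc R hR.2.1 j]
      refine (Finset.sum_subset (Finset.subset_univ R) fun v _ hv => ?_).symm
      rw [F.X0 v R hv, zero_mul]
    rw [← h2, Finset.sum_mul]
    refine Finset.sum_congr rfl fun v _ => ?_
    ring
  rw [h1, h, mul_zero]

/-- the relation, second part -/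
lemma odd_bt_f {r : Finset V} {g : Finset V → Tp p} (y : Fin p → ℝ)
    (h : F.BB r (fun R => gam (M := ℝ) y (g R)) (F.DD g) = 0) :
    ∑ v, F.odd_bt r g v * ∑ j, y j * F.f v j = 0 := by
  classical
  rw [← h]
  unfold odd_bt BB
  simp only [Finset.sum_mul]
  rw [Finset.sum_comm]
  refine Finset.sum_congr rfl fun R hR => ?_
  rw [Finset.mem_filter] at hR
  have h3 : ip (gam (M := ℝ) y (g R)) (F.DD g R) =
      (∑ j, y j * ∑ v ∈ R, F.X v R * F.f v j) * ip (g R) (g R) := odd_ip_gam_gam _ _ _
  rw [h3]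
  have h4 : ∑ j, y j * ∑ v ∈ R, F.X v R * F.f v j = ∑ v, F.X v R * ∑ j, y j * F.f v j := by
    have h5 : ∀ j, y j * ∑ v ∈ R, F.X v R * F.f v j = ∑ v, y j * (F.X v R * F.f v j) := by
      intro j
      rw [Finset.mul_sum]
      refine Finset.sum_subset (Finset.subset_univ R) fun v _ hv => ?_
      rw [F.X0 v R hv, zero_mul, mul_zero]
    simp only [h5]
    rw [Finset.sum_comm]
    refine Finset.sum_congr rfl fun v _ => ?_
    rw [Finset.mul_sum]
    refine Finset.sum_congr rfl fun j _ => ?_
    ring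
  rw [h4, Finset.sum_mul, Finset.mul_sum]
  refine Finset.sum_congr rfl fun v _ => ?_
  ring

/-- for each vertex of the link there is another vertex of the link which is not adjacent to it -/
lemma odd_exists_opposite (hG : Cx G n) {r : Finset V} {v : V} (hv : v ∉ r)
    (hr : G.IsClique ((insert v r : Finset V) : Set V)) :
    ∃ w, w ∉ r ∧ w ≠ v ∧ ¬ G.Adj v w ∧ G.IsClique ((insert w r : Finset V) : Set V) := by
  obtain ⟨R, hR, hRc, hsub⟩ := hG.ext _ hr
  have hvR : v ∈ R := hsub (Finset.mem_insert_self v r)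
  have hc : (R.erase v).card + 1 = n := by
    rw [Finset.card_erase_add_one hvR, hRc]
  obtain ⟨w, hw, hwv, hwc, _⟩ := hG.ridge (R.erase v) hc v (Finset.notMem_erase v R) (by
    have : (insert v (R.erase v) : Finset V) = R := Finset.insert_erase hvR
    rw [this]
    exact hR)
  have hrR : r ⊆ R.erase v := fun u hu => Finset.mem_erase.2
    ⟨fun h => hv (h ▸ hu), hsub (Finset.mem_insert_of_mem hu)⟩
  refine ⟨w, fun h => hw (hrR h), hwv, fun hadj => ?_, ?_⟩
  · have hwR : w ∉ R := fun h => hw (Finset.mem_erase.2 ⟨hwv, h⟩)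
    have h1 : G.IsClique ((insert w R : Finset V) : Set V) := by
      rw [Finset.coe_insert, SimpleGraph.isClique_insert_of_notMem (by exact_mod_cast hwR)]
      refine ⟨hR, fun u hu => ?_⟩
      have hu' : u ∈ R := by exact_mod_cast hu
      by_cases huv : u = v
      · subst huv
        exact hadj.symm
      · refine hwc (by simp) (by simp [huv, hu']) ?_
        rintro rfl
        exact hwR hu'
    have h2 := hG.dim _ h1
    rw [Finset.card_insert_of_notMem hwR, hRc] at h2
    omega
  · refine hwc.subset ?_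
    exact_mod_cast Finset.insert_subset_insert w hrR

theorem van_odd (hG : Sp G n) {r : Finset V} (hr : G.IsClique (r : Set V)) {k : ℕ} (hk : r.card + 2 * k + 1 = n)
    (hV : ∀ m : Finset V, r ⊆ m → G.IsClique (m : Set V) → r.card + 2 ≤ m.card → F.Van m)
    (hH : ∀ v, v ∉ r → G.IsClique ((insert v r : Finset V) : Set V) → F.HR (insert v r)) :
    ExP (lkP G F.KE r) (k + 1) := by
  intro z hz hz0
  obtain ⟨y, g, hg, hDg, hy, hzy⟩ := F.exists_rep hG hr hz hz0
  set z' : Finset V → Sm n p := F.chE r (k + 1) (fun T => F.al g (r ∪ T)) with hz'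
  have hz'm : ChP (lkP G F.KE r) (k + 1) z' := F.chE_mem hr _ _
  have hz'0 : ∀ S, bd z' S = 0 := by
    intro S
    by_cases hS : Fl G r S ∧ S.card = k
    · have h1 := F.bd_chE g hS.1
      rw [hS.2] at h1
      rw [hz', h1, hg.2 S hS.1 (by omega), hDg.2 S hS.1 (by omega)]
      simp only [map_zero, add_zero, smul_zero]
    · exact F.bd_chE_of_not r k _ hS
  -- the numbers `b v`
  have hgg : F.BB r g g = 0 := F.BB_GG hG hr (d := k + 1) (e := k + 1) (by omega) hg hg
  have hc := F.odd_bt_c hgg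
  have hf : ∀ y : Fin p → ℝ, ∑ v, F.odd_bt r g v * ∑ j, y j * F.f v j = 0 := fun y =>
    F.odd_bt_f y (F.BB_GG hG hr (d := k + 1) (e := k + 1) (by omega) (F.odd_gam_GG y hg) hDg)
  have hHR : ∀ v, v ∉ r → G.IsClique ((insert v r : Finset V) : Set V) →
      0 ≤ (-1 : ℝ) ^ k * F.odd_bt r g v ∧ (F.odd_bt r g v = 0 → ∃ g₁ ∈ F.GG (insert v r) (k + 1),
        ∃ g₂ ∈ F.GG (insert v r) (k + 1), odd_rst v g = g₁ + F.DD g₂) := by
    intro v hv hvr
    rw [F.odd_bt_eq_BB hv]
    refine hH v hv hvr k ?_ _ (F.odd_rst_GG hv hg) ?_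
    · rw [Finset.card_insert_of_notMem hv]
      omega
    · rw [odd_DD_rst]
      exact F.odd_rst_GG hv hDg
  -- all of them are zero
  have hb : ∀ v, v ∉ r → G.IsClique ((insert v r : Finset V) : Set V) → F.odd_bt r g v = 0 := by
    intro v hv hvr
    obtain ⟨w, hw, hwv, hadj, hwr⟩ := odd_exists_opposite hG.cx hv hvr
    let t : V → ℝ := fun u => ∑ j, F.f u j * F.f w j - ∑ j, F.c u j * F.c w j
    have h1 : ∑ u, (-1 : ℝ) ^ k * (F.odd_bt r g u * t u) = 0 := by
      rw [← Finset.mul_sum]
      have h2 : ∑ u, F.odd_bt r g u * t u = 0 := by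
        have h3 := hf (F.f w)
        have h3' : ∑ u, F.odd_bt r g u * ∑ j, F.f u j * F.f w j = 0 := by
          rw [← h3]
          refine Finset.sum_congr rfl fun u _ => ?_
          congr 1
          exact Finset.sum_congr rfl fun j _ => mul_comm _ _
        have h4 : ∑ u, F.odd_bt r g u * ∑ j, F.c u j * F.c w j = 0 := by
          simp only [Finset.mul_sum]
          rw [Finset.sum_comm]
          refine Finset.sum_eq_zero fun j _ => ?_
          have h5 : ∑ u, F.odd_bt r g u * (F.c u j * F.c w j) = (∑ u, F.odd_bt r g u * F.c u j) * F.c w j := by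
            rw [Finset.sum_mul]
            exact Finset.sum_congr rfl fun u _ => by ring
          rw [h5, hc j, zero_mul]
        have h6 : ∑ u, F.odd_bt r g u * t u = ∑ u, F.odd_bt r g u * ∑ j, F.f u j * F.f w j -
            ∑ u, F.odd_bt r g u * ∑ j, F.c u j * F.c w j := by
          rw [← Finset.sum_sub_distrib]
          exact Finset.sum_congr rfl fun u _ => mul_sub _ _ _
        rw [h6, h3', h4, sub_zero]
      rw [h2, mul_zero]
    have ht0 : ∀ u, u = w ∨ G.Adj u w → t u = 0 := fun u hu => sub_eq_zero.2 (F.iso u w hu)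
    have htp : ∀ u, u ≠ w → ¬ G.Adj u w → 0 < t u := fun u hu hu' => sub_pos.2 (F.pos u w hu hu')
    have h4 : ∀ u ∈ (Finset.univ : Finset V), 0 ≤ (-1 : ℝ) ^ k * (F.odd_bt r g u * t u) := by
      intro u _
      by_cases hu : u ∈ r
      · have h7 : u ≠ w := fun h => hw (h ▸ hu)
        have h8 : G.Adj u w := hwr (by simp [hu]) (by simp) h7
        rw [ht0 u (Or.inr h8), mul_zero, mul_zero]
      · by_cases hur : G.IsClique ((insert u r : Finset V) : Set V)
        · have h7 : 0 ≤ t u := by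
            by_cases h8 : u = w ∨ G.Adj u w
            · exact (ht0 u h8).ge
            · rw [not_or] at h8
              exact (htp u h8.1 h8.2).le
          rw [← mul_assoc]
          exact mul_nonneg (hHR u hu hur).1 h7
        · rw [F.odd_bt_zero hur, zero_mul, mul_zero]
    have h5 := (Finset.sum_eq_zero_iff_of_nonneg h4).1 h1 v (Finset.mem_univ v)
    have h6 : 0 < t v := htp v (Ne.symm hwv) hadj
    rcases mul_eq_zero.1 h5 with h7 | h7
    · exact absurd h7 (pow_ne_zero _ (by norm_num))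
    · exact (mul_eq_zero.1 h7).resolve_right h6.ne'
  -- the local parts are boundaries
  obtain ⟨y', hy', hyz⟩ := ex_of_loc G F.KE (fun S T h => F.KE_anti h) r hr k
    (fun m hm hmc hc => hV m hm hmc hc k (by omega)) z' hz'm hz'0 (by
      intro v hv hvr
      obtain ⟨g₁, hg₁, g₂, hg₂, hsp⟩ := (hHR v hv hvr).2 (hb v hv hvr)
      obtain ⟨u, hu, huS⟩ := F.bdry_of_split hvr hg₁ hg₂ hsp
      refine ⟨(-1 : ℝ) ^ (r.filter fun w => rk v < rk w).card • u, odd_ChP_smul _ hu, fun S => ?_⟩
      rw [odd_bd_smul, huS, hz', F.loc_chE hv hvr]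
      congr 1
      unfold chE
      by_cases hS : Fl G (insert v r) S ∧ S.card = k
      · rw [if_pos hS, if_pos hS]
        obtain ⟨h1, h2, h3⟩ := odd_Fl_insert hv hS.1
        show F.opE (insert v r) S (vac (F.al (odd_rst v g) (insert v r ∪ S))) =
          F.opE (insert v r) S (vac (F.al g (r ∪ insert v S)))
        rw [odd_al_rst F (Finset.mem_union_left _ (Finset.mem_insert_self v r)), h3]
      · rw [if_neg hS, if_neg hS])
  refine ⟨y + y', odd_ChP_add hy hy', fun S => ?_⟩
  rw [odd_bd_add, hyz, hzy S]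

end Fan

end

end Hr
end Singer
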