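import Pool.Agent.Singer.Hr.Sph
import Pool.Agent.Singer.Hr.FanEx
import Pool.Agent.Singer.Hr.Local
import Pool.Agent.Singer.Hr.Clif
import Pool.Agent.Singer.Hr.Even
import Pool.Agent.Singer.Hr.Odd
import Pool.Agent.Singer.Links

/-!
# Singer/Hr: assembly

* `Fan.van`: the chain complexes of all links are exact above the middle;
* `bet_eq_zero`: the `ℓ²`-Betti numbers of the right-angled Coxeter group are zero off the middle;
* `Cf.link`, `goodQ_of_cf`: positive configurations restrict to the links.
-/

set_option autoImplicit false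
set_option linter.unusedSectionVars false
set_option linter.unusedVariables false

namespace Singer
namespace Hr

open Singer.Re Pool.Agent.Helper34.Car

noncomputable section

section main
variable {V : Type} [Fintype V] [DecidableEq V]

namespace Fan
variable {G : SimpleGraph V} {n p : ℕ} (F : Fan G n p)

/-! ### row Z (Hr/Main.lean): assembly -/

theorem van' (hG : Sp G n) : ∀ (k : ℕ) (r : Finset V), G.IsClique (r : Set V) → n ≤ r.card + k → F.Van r := by
  intro k
  induction k using Nat.strong_induction_on with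
  | _ k ih =>
    intro r hr hk i hi
    have hdim := hG.cx.dim r hr
    obtain ⟨j, rfl⟩ : ∃ j, i = j + 1 := ⟨i - 1, by omega⟩
    have hV : ∀ m : Finset V, r ⊆ m → G.IsClique (m : Set V) → r.card + 1 ≤ m.card → F.Van m := by
      intro m hrm hm hc
      have h1 := hG.cx.dim m hm
      exact ih (n - m.card) (by omega) m hm (by omega)
    by_cases h : n + 2 ≤ r.card + 2 * (j + 1)
    · refine ex_of_links G F.KE (fun S T h => F.KE_anti h) r hr j fun m hrm hm hc => hV m hrm hm hc j ?_
      omega
    · refine F.van_odd hG hr (k := j) (by omega) (fun m hrm hm hc => hV m hrm hm (by omega)) fun v hv hc => ?_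
      refine F.hr_of_van hG hc (hV _ (Finset.subset_insert v r) hc ?_)
      rw [Finset.card_insert_of_notMem hv]

theorem van (hG : Sp G n) (r : Finset V) (hr : G.IsClique (r : Set V)) : F.Van r :=
  F.van' hG n r hr (by omega)

end Fan

theorem bet_eq_zero_above {n : ℕ} {G : SimpleGraph V}
    (h : GoodQ (fun n {V} [Fintype V] (G : SimpleGraph V) => QS.{0} n G) n G) {p : ℕ}
    {c : V → EuclideanSpace ℝ (Fin n)} {f : V → EuclideanSpace ℝ (Fin p)} (hcf : Cf G c f) {i : ℕ} (hi : n < 2 * i) :
    bet G i = 0 := by
  classical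
  have hG := sp_of_goodQ h
  obtain ⟨F⟩ := exists_fan hG.cx hcf
  have hE : ExP (lkP G F.KE ∅) i := F.van hG ∅ (by simp) i (by simpa using hi)
  have hFl : ∀ S : Finset V, Fl G ∅ S ↔ G.IsClique (S : Set V) := fun S => by
    unfold Fl
    simp
  refine bet_eq_zero_of_exact G (F := ℝ) two_ne_zero (M := Sm n p) F.ev (fun v x => F.ev_sq v x)
    (fun u v huv x => F.ev_anti huv x) i (fun S hS hc => ?_) fun z hz hz0 => ?_
  · have h1 := F.finrank_KE hS
    rw [hc] at h1
    exact h1.le
  · have hz1 : ChP (lkP G F.KE ∅) i z := by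
      intro S
      constructor
      · unfold lkP
        split_ifs with h3
        · rw [Finset.empty_union]
          unfold Fan.KE kr
          simp only [Submodule.mem_iInf, LinearMap.mem_ker]
          exact hz.2 S
        · rw [Submodule.mem_bot]
          exact hz.1 S fun h4 => h3 ((hFl S).2 h4.1)
      · intro h3
        by_contra h4
        exact h3 (hz.1 S fun h5 => h4 h5.2)
    obtain ⟨y, hy, hyz⟩ := hE z hz1 hz0
    · refine ⟨y, ⟨fun S hS => ?_, fun S v hv => ?_⟩, hyz⟩
      · obtain ⟨h1, h2⟩ := hy S
        by_contra h3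
        refine hS ⟨?_, h2 h3⟩
        by_contra h4
        unfold lkP at h1
        rw [if_neg (fun h5 => h4 ((hFl S).1 h5))] at h1
        exact h3 ((Submodule.mem_bot ℝ).1 h1)
      · obtain ⟨h1, h2⟩ := hy S
        unfold lkP at h1
        split_ifs at h1 with h3
        · rw [Finset.empty_union] at h1
          unfold Fan.KE kr at h1
          simp only [Submodule.mem_iInf, LinearMap.mem_ker] at h1
          exact h1 v hv
        · rw [(Submodule.mem_bot ℝ).1 h1, map_zero]

/-- the vanishing theorem for positive configurations -/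
theorem bet_eq_zero {n : ℕ} {G : SimpleGraph V}
    (h : GoodQ (fun n {V} [Fintype V] (G : SimpleGraph V) => QS.{0} n G) n G) {p : ℕ}
    {c : V → EuclideanSpace ℝ (Fin n)} {f : V → EuclideanSpace ℝ (Fin p)} (hcf : Cf G c f) {i : ℕ} (hi : 2 * i ≠ n) :
    bet G i = 0 := by
  rcases lt_or_gt_of_ne hi with h1 | h1
  · obtain ⟨τ, hτ⟩ := exists_facet h
    exact bet_dual' (τ := τ) (hτ rk rk_inj).of_int (by omega) (bet_eq_zero_above h hcf (by omega))
  · exact bet_eq_zero_above h hcf h1

end main

/-! ### links -/

section link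
variable {V : Type}

/-- positive configurations restrict to the links -/
theorem cf_link {n p : ℕ} {G : SimpleGraph V} {c : V → EuclideanSpace ℝ (Fin (n + 1))}
    {f : V → EuclideanSpace ℝ (Fin p)} (h : Cf G c f) {v : V} (hv : c v ≠ 0) :
    ∃ (c' : {w // G.Adj v w} → EuclideanSpace ℝ (Fin n)) (f' : {w // G.Adj v w} → EuclideanSpace ℝ (Fin p)),
      Cf (lk G v) c' f' := by
  have hfact : Fact (Module.finrank ℝ (EuclideanSpace ℝ (Fin (n + 1))) = n + 1) := ⟨by simp⟩
  let e := (OrthonormalBasis.fromOrthogonalSpanSingleton (𝕜 := ℝ) n hv).repr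
  have hN : inner ℝ (c v) (c v) ≠ 0 := fun h0 => hv (inner_self_eq_zero.1 h0)
  have hff : inner ℝ (f v) (f v) = inner ℝ (c v) (c v) := h.eq v v (Or.inl rfl)
  let N : ℝ := inner ℝ (c v) (c v)
  let pc : V → EuclideanSpace ℝ (Fin (n + 1)) := fun w => c w - (inner ℝ (c v) (c w) / N) • c v
  have hpc : ∀ w, pc w ∈ (Submodule.span ℝ {c v})ᗮ := by
    intro w
    rw [Submodule.mem_orthogonal_singleton_iff_inner_right]
    simp only [pc, inner_sub_right, inner_smul_right]
    rw [div_mul_cancel₀ _ hN, sub_self]
  have key : ∀ {q : ℕ} (g : V → EuclideanSpace ℝ (Fin q)), inner ℝ (g v) (g v) = N → ∀ u w,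
      inner ℝ (g u - (inner ℝ (g v) (g u) / N) • g v) (g w - (inner ℝ (g v) (g w) / N) • g v) =
        inner ℝ (g u) (g w) - inner ℝ (g v) (g u) * inner ℝ (g v) (g w) / N := by
    intro q g hg u w
    rw [inner_sub_left, inner_sub_right, inner_sub_right, inner_smul_left, inner_smul_left, inner_smul_right,
      inner_smul_right, hg, real_inner_comm (g v) (g u)]
    simp only [conj_trivial]
    field_simp
    ring
  have hgw : ∀ w : {w // G.Adj v w}, inner ℝ (f v) (f w) = inner ℝ (c v) (c w) := fun w => h.eq v w (Or.inr w.2)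
  have hval : ∀ u w : {w // G.Adj v w}, inner ℝ (e ⟨pc u, hpc u⟩) (e ⟨pc w, hpc w⟩) =
      inner ℝ (c u) (c w) - inner ℝ (c v) (c u) * inner ℝ (c v) (c w) / N := by
    intro u w
    rw [LinearIsometryEquiv.inner_map_map]
    exact key c rfl u w
  refine ⟨fun w => e ⟨pc w, hpc w⟩, fun w => f w - (inner ℝ (f v) (f w) / N) • f v, ⟨fun u w huw => ?_, fun u w hne hna => ?_⟩⟩
  · rw [hval, key f hff u w, hgw, hgw]
    rw [h.eq u w]
    rcases huw with h1 | h1
    · exact Or.inl (congrArg _ h1)
    · exact Or.inr h1
  · rw [hval, key f hff u w, hgw, hgw]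
    have h2 := h.lt u w (fun h3 => hne (Subtype.ext h3)) hna
    linarith

end link

/-- positive configurations, in terms of sums -/
theorem cf_of_sums {V : Type} {n p : ℕ} {G : SimpleGraph V} {c : V → Fin n → ℝ} {f : V → Fin p → ℝ}
    (h1 : ∀ u v, u = v ∨ G.Adj u v → ∑ j, f u j * f v j = ∑ j, c u j * c v j)
    (h2 : ∀ u v, u ≠ v → ¬ G.Adj u v → ∑ j, c u j * c v j < ∑ j, f u j * f v j) :
    Cf G (fun v => WithLp.toLp 2 (c v)) (fun v => WithLp.toLp 2 (f v)) := by
  have key : ∀ {q : ℕ} (g : V → Fin q → ℝ) (u v : V),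
      inner ℝ (WithLp.toLp 2 (g u) : EuclideanSpace ℝ (Fin q)) (WithLp.toLp 2 (g v)) = ∑ j, g u j * g v j := by
    intro q g u v
    rw [PiLp.inner_apply]
    refine Finset.sum_congr rfl fun j _ => ?_
    simp [mul_comm]
  refine ⟨fun u v huv => ?_, fun u v hne hna => ?_⟩
  · rw [key, key]
    exact h1 u v huv
  · rw [key, key]
    exact h2 u v hne hna

/-- hereditary vanishing -/
theorem goodQ_of_cf {n : ℕ} {V : Type} [Fintype V] {G : SimpleGraph V}
    (h : GoodQ (fun n {V} [Fintype V] (G : SimpleGraph V) => QS.{0} n G) n G) {p : ℕ}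
    {c : V → EuclideanSpace ℝ (Fin n)} {f : V → EuclideanSpace ℝ (Fin p)} (hcf : Cf G c f) : GoodQ VanQ n G := by
  classical
  induction n generalizing V p with
  | zero => exact h
  | succ n ih =>
    rw [goodQ_succ_iff]
    refine ⟨?_, fun v => ?_⟩
    · rw [vanQ_iff]
      exact fun i hi => bet_eq_zero h hcf hi
    · have hv : c v ≠ 0 := by
        intro h0
        have hG := (sp_of_goodQ h).cx
        obtain ⟨R, hR, hRn, hvR⟩ := hG.ext {v} (by simp)
        have hv : v ∈ R := hvR (Finset.mem_singleton_self v)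
        have h1 : G.IsClique ((insert v (R.erase v) : Finset V) : Set V) := by
          rw [Finset.insert_erase hv]
          exact hR
        obtain ⟨w, hwS, hwv, hw, -⟩ := hG.ridge (R.erase v) (by rw [Finset.card_erase_of_mem hv]; omega) v
          (Finset.notMem_erase v R) (by simpa using h1)
        have hna : ¬ G.Adj v w := by
          intro hadj
          have h2 : G.IsClique ((insert w (insert v (R.erase v)) : Finset V) : Set V) := by
            refine isClique_insert h1 fun x hx hne => ?_
            rcases Finset.mem_insert.1 hx with h3 | h3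
            · rw [h3]
              exact hadj.symm
            · have h4 : G.IsClique ((insert w (R.erase v) : Finset V) : Set V) := by simpa using hw
              exact h4 (Finset.mem_coe.2 (Finset.mem_insert_self _ _)) (Finset.mem_coe.2 (Finset.mem_insert_of_mem h3))
                (fun h5 => hwS (h5 ▸ h3))
          have h3 := hG.dim _ h2
          rw [Finset.insert_erase hv, Finset.card_insert_of_notMem, hRn] at h3
          · omega
          · intro h4
            exact hwS (Finset.mem_erase.2 ⟨hwv, h4⟩)
        have h2 := hcf.lt v w hwv.symm hna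
        have h3 := hcf.eq v v (Or.inl rfl)
        rw [h0, inner_zero_left] at h3
        have h4 : f v = 0 := inner_self_eq_zero.1 h3
        rw [h0, h4, inner_zero_left, inner_zero_left] at h2
        exact lt_irrefl _ h2
      obtain ⟨c', f', hcf'⟩ := cf_link hcf hv
      exact ih ((goodQ_succ_iff.1 h).2 v) hcf'

end

end Hr
end Singer
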