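import Pool.Agent.Singer.Real.BetE
import Pool.Agent.Singer.Real.Fan
import Pool.Agent.Singer.Sphere
import Pool.Agent.Singer.DualAsm
import Pool.Agent.Helper34.Car.Car

/-!
# Singer/Hr: definitions

The Hodge-Riemann proof of exactness for positive configurations (store: MP_984acc_REAL_h16.md).

* `ChP P i z`, `ExP P i`: chains of degree `i` with coefficients in the system `P` of submodules, exactness in degree `i`;
* `Fl G r S`: `S` is a face of the link of `r`; `lkP G K r`: the system `S ↦ K (r ∪ S)` on the link of `r`;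
* `loc v z`: the part of a chain at the vertex `v`;
* `Sp G n`: the facts on flag homology spheres which are used;
* `Fan G n p`: a positive configuration with a generic point `x`, its coordinates `X v R` in the facets and the weights;
* `Tp p`, `Sm n p`: the Clifford module of `ℝ^p` and the Clifford module of `ℝ^{p,n}`; `ev`: the operators of the
  vertices; `KE`, `KL`: common kernels; `opP`: ordered products of operators;
* `al g θ`: the sum of `g` over the facets which contain `θ`, with weights; `GG r d`, `BB r`, `DD`.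
-/

set_option autoImplicit false
set_option linter.unusedSectionVars false
set_option linter.unusedVariables false

namespace Singer
namespace Hr

open Singer.Re Pool.Agent.Helper34.Car

noncomputable section

variable {V : Type} [Fintype V] [DecidableEq V]

/-! ### Chains -/

section chains
variable {M : Type} [AddCommGroup M] [Module ℝ M]

/-- chains of degree `i` with coefficients in the system `P` -/
def ChP (P : Finset V → Submodule ℝ M) (i : ℕ) (z : Finset V → M) : Prop :=
  ∀ S, z S ∈ P S ∧ (z S ≠ 0 → S.card = i)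

/-- exactness in degree `i` -/
def ExP (P : Finset V → Submodule ℝ M) (i : ℕ) : Prop :=
  ∀ z, ChP P i z → (∀ S, bd z S = 0) → ∃ y, ChP P (i + 1) y ∧ ∀ S, bd y S = z S

/-- `S` is a face of the link of `r` -/
def Fl (G : SimpleGraph V) (r S : Finset V) : Prop := Disjoint S r ∧ G.IsClique ((r ∪ S : Finset V) : Set V)

open Classical in
/-- the coefficients `K` on the link of `r` -/
def lkP (G : SimpleGraph V) (K : Finset V → Submodule ℝ M) (r S : Finset V) : Submodule ℝ M :=
  if Fl G r S then K (r ∪ S) else ⊥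

/-- the part of a chain at the vertex `v` -/
def loc (v : V) (z : Finset V → M) (S : Finset V) : M := if v ∈ S then 0 else sgz rk v S • z (insert v S)

/-- common kernels -/
def kr (a : V → M →ₗ[ℝ] M) (S : Finset V) : Submodule ℝ M := ⨅ v ∈ S, LinearMap.ker (a v)

/-- the product of the operators `a v`, `v ∈ S`, in the order given by `rk` (the smallest one is applied last) -/
def opP (a : V → M →ₗ[ℝ] M) (S : Finset V) : M →ₗ[ℝ] M :=
  ((List.finRange (Fintype.card V)).map fun k =>
    if (Fintype.equivFin V).symm k ∈ S then a ((Fintype.equivFin V).symm k) else LinearMap.id).foldr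
      (fun b c => b ∘ₗ c) LinearMap.id

end chains

/-- flag homology spheres: the facts which are used -/
structure Sp (G : SimpleGraph V) (n : ℕ) : Prop where
  cx : Cx G n
  /-- the links are acyclic below the top degree, with constant coefficients -/
  acy : ∀ r : Finset V, G.IsClique (r : Set V) → ∀ (M : Type) [AddCommGroup M] [Module ℝ M] (Q : Submodule ℝ M)
    (i : ℕ), r.card + i < n → ExP (lkP G (fun _ => Q) r) i

/-- facets -/
def Fac (G : SimpleGraph V) (n : ℕ) (R : Finset V) : Prop := G.IsClique (R : Set V) ∧ R.card = n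

/-- a positive configuration with a generic point `x` -/
structure Fan (G : SimpleGraph V) (n p : ℕ) where
  c : V → Fin n → ℝ
  f : V → Fin p → ℝ
  x : Fin n → ℝ
  /-- the coordinate of `x` at the vertex `v` of the facet `R` -/
  X : V → Finset V → ℝ
  w : Finset V → ℝ
  iso : ∀ u v, u = v ∨ G.Adj u v → ∑ j, f u j * f v j = ∑ j, c u j * c v j
  pos : ∀ u v, u ≠ v → ¬ G.Adj u v → ∑ j, c u j * c v j < ∑ j, f u j * f v j
  dual : ∀ S : Finset V, G.IsClique (S : Set V) → ∀ v ∈ S, ∃ l : Fin n → ℝ, ∑ j, l j * c v j = 1 ∧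
    ∀ u ∈ S, u ≠ v → ∑ j, l j * c u j = 0
  X0 : ∀ v R, v ∉ R → X v R = 0
  Xne : ∀ R, Fac G n R → ∀ v ∈ R, X v R ≠ 0
  Xc : ∀ R, Fac G n R → ∀ j, ∑ v ∈ R, X v R * c v j = x j
  wpos : ∀ R, 0 < w R
  ridge : ∀ S : Finset V, S.card + 1 = n → ∀ u v, u ∉ S → v ∉ S → u ≠ v → Fac G n (insert u S) → Fac G n (insert v S) →
    w (insert u S) / X u (insert u S) + w (insert v S) / X v (insert v S) = 0
  gen : ∀ S : Finset V, G.IsClique (S : Set V) → S.card < n → ∀ b : V → ℝ, ¬ ∀ j, ∑ v ∈ S, b v * c v j = x j
  fanp : ∀ S : Finset V, G.IsClique (S : Set V) → ∃! R, Fac G n R ∧ S ⊆ R ∧ ∀ v ∈ R, v ∉ S → 0 < X v R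
  fann : ∀ S : Finset V, G.IsClique (S : Set V) → ∃! R, Fac G n R ∧ S ⊆ R ∧ ∀ v ∈ R, v ∉ S → X v R < 0

/-- the Clifford module of `ℝ^p` -/
abbrev Tp (p : ℕ) : Type := Finset (Fin p) → ℝ

/-- the Clifford module of `ℝ^{p,n}` -/
abbrev Sm (n p : ℕ) : Type := Finset (Fin n) → Tp p

/-- the inner product of `Tp p` -/
def ip {p : ℕ} (s t : Tp p) : ℝ := ∑ J, s J * t J

/-- the vacuum vectors -/
def vac {n : ℕ} {T : Type} [AddCommGroup T] [Module ℝ T] : T →ₗ[ℝ] (Finset (Fin n) → T) where
  toFun t := fun J => if J = ∅ then t else 0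
  map_add' s t := by
    funext J
    by_cases h : J = ∅ <;> simp [h]
  map_smul' a t := by
    funext J
    by_cases h : J = ∅ <;> simp [h]

/-- the elements of degree `d` -/
def gr (n : ℕ) (T : Type) [AddCommGroup T] [Module ℝ T] (d : ℕ) : Submodule ℝ (Finset (Fin n) → T) where
  carrier := {g | Dg d g}
  zero_mem' := fun _ _ => rfl
  add_mem' := fun h k => Dg_add h k
  smul_mem' := fun r _ h => Dg_smul h r

/-- the elements of degree at most `d` -/
def fil (n : ℕ) (T : Type) [AddCommGroup T] [Module ℝ T] (d : ℕ) : Submodule ℝ (Finset (Fin n) → T) where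
  carrier := {g | ∀ J : Finset (Fin n), d < J.card → g J = 0}
  zero_mem' := fun _ _ => rfl
  add_mem' := fun h k J hJ => by rw [Pi.add_apply, h J hJ, k J hJ, add_zero]
  smul_mem' := fun r _ h J hJ => by rw [Pi.smul_apply, h J hJ, smul_zero]

/-- functions on the facets which contain `r` -/
def ER (G : SimpleGraph V) (n p : ℕ) (r : Finset V) : Submodule ℝ (Finset V → Tp p) where
  carrier := {g | ∀ R, ¬ (Fac G n R ∧ r ⊆ R) → g R = 0}
  zero_mem' := fun _ _ => rfl
  add_mem' := fun h k R hR => by rw [Pi.add_apply, h R hR, k R hR, add_zero]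
  smul_mem' := fun a _ h R hR => by rw [Pi.smul_apply, h R hR, smul_zero]

namespace Fan
variable {G : SimpleGraph V} {n p : ℕ} (F : Fan G n p)

/-- the operator of a vertex -/
def ev (v : V) : Sm n p →ₗ[ℝ] Sm n p :=
  par ∘ₗ pt (gam (M := ℝ) (F.f v)) + Pool.Agent.Helper34.Car.del (M := Tp p) (F.c v)

/-- the leading part of the operator of a vertex -/
def lv (T : Type) [AddCommGroup T] [Module ℝ T] (v : V) : (Finset (Fin n) → T) →ₗ[ℝ] (Finset (Fin n) → T) := cp (F.c v)

/-- the coefficient system of the operators of the vertices -/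
def KE (S : Finset V) : Submodule ℝ (Sm n p) := kr F.ev S

/-- the coefficient system of the leading parts in degree `d` -/
def KL (T : Type) [AddCommGroup T] [Module ℝ T] (d : ℕ) (S : Finset V) : Submodule ℝ (Finset (Fin n) → T) :=
  gr n T d ⊓ kr (F.lv T) S

/-- products of the operators of the vertices of `r` and `S` -/
def opE (r S : Finset V) : Sm n p →ₗ[ℝ] Sm n p := opP F.ev r ∘ₗ opP F.ev S

/-- products of the leading parts -/
def opL (r S : Finset V) : Sm n p →ₗ[ℝ] Sm n p := opP (F.lv (Tp p)) r ∘ₗ opP (F.lv (Tp p)) S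

open Classical in
/-- the chain of the vectors `e_r e_S a_S` -/
def chE (r : Finset V) (i : ℕ) (a : Finset V → Tp p) (S : Finset V) : Sm n p :=
  if Fl G r S ∧ S.card = i then F.opE r S (vac (a S)) else 0

open Classical in
/-- the chain of the leading parts -/
def chL (r : Finset V) (i : ℕ) (a : Finset V → Tp p) (S : Finset V) : Sm n p :=
  if Fl G r S ∧ S.card = i then F.opL r S (vac (a S)) else 0

/-- the residue weight of a facet -/
def om (R : Finset V) : ℝ := F.w R / ∏ v ∈ R, F.X v R

open Classical in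
/-- the weighted sum over the facets which contain `θ` -/
def al (g : Finset V → Tp p) (θ : Finset V) : Tp p :=
  ∑ R ∈ Finset.univ.filter (fun R => Fac G n R ∧ θ ⊆ R), (F.om R * ∏ v ∈ θ, F.X v R) • g R

/-- Clifford multiplication by the vectors `∑ X v R f v` -/
def DD : (Finset V → Tp p) →ₗ[ℝ] (Finset V → Tp p) where
  toFun g := fun R => gam (M := ℝ) (fun j => ∑ v ∈ R, F.X v R * F.f v j) (g R)
  map_add' g h := by
    funext R
    rw [Pi.add_apply, map_add]
    rfl
  map_smul' a g := by
    funext R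
    rw [Pi.smul_apply, map_smul]
    rfl

/-- the filtration -/
def GG (r : Finset V) (d : ℕ) : Submodule ℝ (Finset V → Tp p) where
  carrier := {g | g ∈ ER G n p r ∧ ∀ S, Fl G r S → S.card < d → F.al g (r ∪ S) = 0}
  zero_mem' := ⟨(ER G n p r).zero_mem, fun S _ _ => by simp [al]⟩
  add_mem' := by
    rintro g h ⟨hg, hg'⟩ ⟨hh, hh'⟩
    refine ⟨(ER G n p r).add_mem hg hh, fun S hS hd => ?_⟩
    have h1 := hg' S hS hd
    have h2 := hh' S hS hd
    unfold al at h1 h2 ⊢
    simp only [Pi.add_apply, smul_add, Finset.sum_add_distrib]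
    rw [h1, h2, add_zero]
  smul_mem' := by
    rintro a g ⟨hg, hg'⟩
    refine ⟨(ER G n p r).smul_mem a hg, fun S hS hd => ?_⟩
    have h1 := hg' S hS hd
    unfold al at h1 ⊢
    have h2 : ∀ R, (F.om R * ∏ v ∈ r ∪ S, F.X v R) • (a • g) R = a • ((F.om R * ∏ v ∈ r ∪ S, F.X v R) • g R) :=
      fun R => by rw [Pi.smul_apply, smul_comm]
    simp only [h2]
    rw [← Finset.smul_sum, h1, smul_zero]

open Classical in
/-- the bilinear form of `r` -/
def BB (r : Finset V) (g h : Finset V → Tp p) : ℝ :=
  ∑ R ∈ Finset.univ.filter (fun R => Fac G n R ∧ r ⊆ R), F.om R * (∏ v ∈ r, F.X v R) * ip (g R) (h R)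

open Classical in
/-- the number of facets which contain `r` with exactly `j` negative coordinates off `r` -/
def nn (r : Finset V) (j : ℕ) : ℕ :=
  (Finset.univ.filter fun R : Finset V => (Fac G n R ∧ r ⊆ R) ∧
    (Finset.univ.filter fun v => v ∈ R ∧ v ∉ r ∧ F.X v R < 0).card = j).card

/-- exactness above the middle -/
def Van (r : Finset V) : Prop := ∀ i, n < r.card + 2 * i → ExP (lkP G F.KE r) i

/-- the Hodge-Riemann property: definiteness in the middle degree -/
def HR (r : Finset V) : Prop := ∀ m, r.card + 2 * m = n → ∀ g ∈ F.GG r m, F.DD g ∈ F.GG r m →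
  0 ≤ (-1 : ℝ) ^ m * F.BB r g g ∧ (F.BB r g g = 0 → ∃ g₁ ∈ F.GG r (m + 1), ∃ g₂ ∈ F.GG r (m + 1), g = g₁ + F.DD g₂)

end Fan

end

end Hr
end Singer
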