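import Pool.Agent.Singer.Hr.Clif

/-!
# Singer/Hr: numbers of faces and negative coordinates

* `card_faces`: the number of faces of the link of `r` in terms of the numbers `nn r j` (interval partition);
* `nn_symm`: the symmetry of the numbers `nn r j`;
* `GG_top`: the end of the filtration;
* `alt_sum`: the arithmetic of the dimensions of the cycles.
-/

set_option autoImplicit false
set_option linter.unusedSectionVars false
set_option linter.unusedVariables false

namespace Singer
namespace Hr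

open Singer.Re Pool.Agent.Helper34.Car

noncomputable section

/-- the dimensions of the cycles of a complex which is exact below the top degree -/
theorem alt_sum (d : ℕ) (a z c : ℕ → ℕ)
    (hc : ∀ i ≤ d, c i = ∑ j ∈ Finset.range (d + 1), a j * (d - j).choose (d - i)) (h0 : z 0 = c 0)
    (h : ∀ i < d, z (i + 1) + z i = c (i + 1)) : z d = a d := by
  have key : ∀ i < d, z i = ∑ j ∈ Finset.range d, a j * (d - j - 1).choose (d - i - 1) := by
    intro i
    induction i with
    | zero =>
      intro hd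
      rw [h0, hc 0 (Nat.zero_le d), Finset.sum_range_succ]
      have h1 : (d - d).choose (d - 0) = 0 := Nat.choose_eq_zero_of_lt (by omega)
      rw [h1, mul_zero, add_zero]
      refine Finset.sum_congr rfl fun j hj => ?_
      have hj' := Finset.mem_range.1 hj
      rcases Nat.eq_zero_or_pos j with rfl | hj0
      · simp
      · rw [Nat.choose_eq_zero_of_lt (show d - j < d - 0 by omega),
          Nat.choose_eq_zero_of_lt (show d - j - 1 < d - 0 - 1 by omega)]
    | succ i ih =>
      intro hi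
      have h1 := h i (by omega)
      rw [ih (by omega), hc (i + 1) (by omega), Finset.sum_range_succ] at h1
      have h2 : (d - d).choose (d - (i + 1)) = 0 := Nat.choose_eq_zero_of_lt (by omega)
      rw [h2, mul_zero, add_zero] at h1
      have h3 : ∑ j ∈ Finset.range d, a j * (d - j).choose (d - (i + 1)) =
          ∑ j ∈ Finset.range d, a j * (d - j - 1).choose (d - (i + 1) - 1) +
            ∑ j ∈ Finset.range d, a j * (d - j - 1).choose (d - i - 1) := by
        rw [← Finset.sum_add_distrib]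
        refine Finset.sum_congr rfl fun j hj => ?_
        have hj' := Finset.mem_range.1 hj
        obtain ⟨x, hx⟩ : ∃ x, d - j = x + 1 := ⟨d - j - 1, by omega⟩
        obtain ⟨y, hy⟩ : ∃ y, d - (i + 1) = y + 1 := ⟨d - (i + 1) - 1, by omega⟩
        have e1 : d - j - 1 = x := by omega
        have e2 : d - i - 1 = y + 1 := by omega
        rw [e1, e2, hx, hy, Nat.add_sub_cancel, Nat.choose_succ_succ, mul_add]
      rw [h3] at h1
      exact Nat.add_right_cancel h1
  rcases Nat.eq_zero_or_pos d with rfl | hd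
  · rw [h0, hc 0 le_rfl]
    simp
  · obtain ⟨e, rfl⟩ : ∃ e, d = e + 1 := ⟨d - 1, by omega⟩
    have h1 := h e (by omega)
    rw [key e (by omega), hc (e + 1) le_rfl, Finset.sum_range_succ _ (e + 1)] at h1
    have h2 : ∑ j ∈ Finset.range (e + 1), a j * (e + 1 - j - 1).choose (e + 1 - e - 1) =
        ∑ j ∈ Finset.range (e + 1), a j * (e + 1 - j).choose (e + 1 - (e + 1)) := by
      refine Finset.sum_congr rfl fun j _ => ?_
      simp
    rw [h2] at h1
    simp only [Nat.sub_self, Nat.choose_zero_right, mul_one] at h1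
    omega

/-- the number of intermediate sets -/
theorem card_between {α : Type*} [DecidableEq α] [Fintype α] {N W : Finset α} (hNW : N ⊆ W) {i : ℕ}
    (hi : i ≤ W.card) :
    (Finset.univ.filter fun S : Finset α => (N ⊆ S ∧ S ⊆ W) ∧ S.card = i).card =
      (W.card - N.card).choose (W.card - i) := by
  rw [← Finset.card_sdiff_of_subset hNW, ← Finset.card_powersetCard]
  refine Finset.card_nbij' (fun S => W \ S) (fun S => W \ S) ?_ ?_ ?_ ?_
  · intro S hS
    obtain ⟨⟨h1, h2⟩, h3⟩ := (Finset.mem_filter.1 hS).2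
    refine Finset.mem_powersetCard.2 ⟨Finset.sdiff_subset_sdiff (Finset.Subset.refl W) h1, ?_⟩
    rw [Finset.card_sdiff_of_subset h2, h3]
  · intro S hS
    obtain ⟨h1, h2⟩ := Finset.mem_powersetCard.1 hS
    have h4 : S ⊆ W := h1.trans Finset.sdiff_subset
    refine Finset.mem_filter.2 ⟨Finset.mem_univ _, ⟨fun v hv => ?_, Finset.sdiff_subset⟩, ?_⟩
    · exact Finset.mem_sdiff.2 ⟨hNW hv, fun h => (Finset.mem_sdiff.1 (h1 h)).2 hv⟩
    · rw [Finset.card_sdiff_of_subset h4, h2]
      omega
  · intro S hS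
    obtain ⟨⟨h1, h2⟩, h3⟩ := (Finset.mem_filter.1 hS).2
    exact Finset.sdiff_sdiff_eq_self h2
  · intro S hS
    obtain ⟨h1, h2⟩ := Finset.mem_powersetCard.1 hS
    exact Finset.sdiff_sdiff_eq_self (h1.trans Finset.sdiff_subset)

variable {V : Type} [Fintype V] [DecidableEq V]

open Classical in
/-- the number of faces with `i` elements of the link of `r` -/
def nf (G : SimpleGraph V) (r : Finset V) (i : ℕ) : ℕ :=
  (Finset.univ.filter fun S : Finset V => Fl G r S ∧ S.card = i).card

open Classical in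
/-- interval partition: if every face `r ∪ S` lies in exactly one interval `[r ∪ N R, R]` -/
theorem card_faces_aux {G : SimpleGraph V} {n : ℕ} {r : Finset V} (N : Finset V → Finset V)
    (hN : ∀ R, Fac G n R → r ⊆ R → N R ⊆ R \ r)
    (h : ∀ S, Fl G r S → ∃! R, (Fac G n R ∧ r ⊆ R) ∧ N R ⊆ S ∧ S ⊆ R \ r) {i : ℕ} (hi : i ≤ n - r.card) :
    nf G r i = ∑ R ∈ Finset.univ.filter (fun R => Fac G n R ∧ r ⊆ R),
      (n - r.card - (N R).card).choose (n - r.card - i) := by
  have hf : ∀ S, Fl G r S → ∃ R, (Fac G n R ∧ r ⊆ R) ∧ N R ⊆ S ∧ S ⊆ R \ r := fun S hS => (h S hS).exists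
  choose! φ hφ using hf
  unfold nf
  rw [Finset.card_eq_sum_card_fiberwise (f := φ) (t := Finset.univ.filter (fun R => Fac G n R ∧ r ⊆ R))
    (fun S hS => Finset.mem_filter.2 ⟨Finset.mem_univ _, (hφ S (Finset.mem_filter.1 hS).2.1).1⟩)]
  refine Finset.sum_congr rfl fun R hR => ?_
  obtain ⟨hR1, hR2⟩ := (Finset.mem_filter.1 hR).2
  have hW : (R \ r).card = n - r.card := by rw [Finset.card_sdiff_of_subset hR2, hR1.2]
  rw [← hW, ← card_between (hN R hR1 hR2) (by rw [hW]; exact hi)]
  congr 1
  ext S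
  simp only [Finset.mem_filter, Finset.mem_univ, true_and]
  constructor
  · rintro ⟨⟨h1, h2⟩, rfl⟩
    exact ⟨(hφ S h1).2, h2⟩
  · rintro ⟨⟨h1, h2⟩, h3⟩
    have hfl : Fl G r S := by
      refine ⟨Finset.disjoint_left.2 fun v hv => (Finset.mem_sdiff.1 (h2 hv)).2, ?_⟩
      refine hR1.1.subset ?_
      intro v hv
      rcases Finset.mem_union.1 (Finset.mem_coe.1 hv) with hv | hv
      · exact Finset.mem_coe.2 (hR2 hv)
      · exact Finset.mem_coe.2 (Finset.mem_sdiff.1 (h2 hv)).1
    exact ⟨⟨hfl, h3⟩, (h S hfl).unique (hφ S hfl) ⟨⟨hR1, hR2⟩, h1, h2⟩⟩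

namespace Fan
variable {G : SimpleGraph V} {n p : ℕ} (F : Fan G n p)

/-- the negative coordinates off `r` -/
def ng (r R : Finset V) : Finset V := Finset.univ.filter fun v => v ∈ R ∧ v ∉ r ∧ F.X v R < 0

/-- the positive coordinates off `r` -/
def ps (r R : Finset V) : Finset V := Finset.univ.filter fun v => v ∈ R ∧ v ∉ r ∧ 0 < F.X v R

theorem mem_ng {r R : Finset V} {v : V} : v ∈ F.ng r R ↔ v ∈ R ∧ v ∉ r ∧ F.X v R < 0 := by
  unfold ng
  simp

theorem mem_ps {r R : Finset V} {v : V} : v ∈ F.ps r R ↔ v ∈ R ∧ v ∉ r ∧ 0 < F.X v R := by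
  unfold ps
  simp

theorem card_ng_add_card_ps {r R : Finset V} (hR : Fac G n R) (hr : r ⊆ R) :
    (F.ng r R).card + (F.ps r R).card = n - r.card := by
  have hc : (R \ r).card = n - r.card := by rw [Finset.card_sdiff_of_subset hr, hR.2]
  rw [← Finset.card_union_of_disjoint, ← hc]
  · congr 1
    ext v
    rw [Finset.mem_union, mem_ng, mem_ps, Finset.mem_sdiff]
    constructor
    · rintro (h | h)
      · exact ⟨h.1, h.2.1⟩
      · exact ⟨h.1, h.2.1⟩
    · rintro ⟨h1, h2⟩
      rcases lt_or_gt_of_ne (F.Xne R hR v h1) with h | h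
      · exact Or.inl ⟨h1, h2, h⟩
      · exact Or.inr ⟨h1, h2, h⟩
  · rw [Finset.disjoint_left]
    intro v h1 h2
    exact lt_asymm (F.mem_ng.1 h1).2.2 (F.mem_ps.1 h2).2.2

open Classical in
theorem nn_eq (r : Finset V) (j : ℕ) : F.nn r j =
    ((Finset.univ.filter fun R : Finset V => Fac G n R ∧ r ⊆ R).filter fun R => (F.ng r R).card = j).card := by
  unfold nn ng
  rw [Finset.filter_filter]

open Classical in
/-- grouping a sum over the facets by the number of negative coordinates -/
theorem sum_ng (r : Finset V) (φ : ℕ → ℕ) :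
    ∑ R ∈ Finset.univ.filter (fun R : Finset V => Fac G n R ∧ r ⊆ R), φ (F.ng r R).card =
      ∑ j ∈ Finset.range (n - r.card + 1), F.nn r j * φ j := by
  have hmap : ∀ R ∈ Finset.univ.filter (fun R : Finset V => Fac G n R ∧ r ⊆ R),
      (F.ng r R).card ∈ Finset.range (n - r.card + 1) := by
    intro R hR
    obtain ⟨h1, h2⟩ := (Finset.mem_filter.1 hR).2
    have := F.card_ng_add_card_ps h1 h2
    exact Finset.mem_range.2 (by omega)
  rw [← Finset.sum_fiberwise_of_maps_to hmap]
  refine Finset.sum_congr rfl fun j _ => ?_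
  rw [F.nn_eq, Finset.sum_congr rfl (g := fun _ => φ j) (fun R hR => by rw [(Finset.mem_filter.1 hR).2]),
    Finset.sum_const, smul_eq_mul]

/-- the number of faces of the link (interval partition of `fanp`) -/
theorem card_faces {r : Finset V} (hr : G.IsClique (r : Set V)) {i : ℕ} (hi : i ≤ n - r.card) :
    nf G r i = ∑ j ∈ Finset.range (n - r.card + 1), F.nn r j * (n - r.card - j).choose (n - r.card - i) := by
  classical
  have hsub : ∀ R, Fac G n R → r ⊆ R → F.ng r R ⊆ R \ r := by
    intro R hR hr v hv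
    obtain ⟨h1, h2, -⟩ := F.mem_ng.1 hv
    exact Finset.mem_sdiff.2 ⟨h1, h2⟩
  rw [card_faces_aux (F.ng r) hsub ?_ hi,
    F.sum_ng r (fun j => (n - r.card - j).choose (n - r.card - i))]
  · intro S hS
    obtain ⟨R, ⟨hR1, hR2, hR3⟩, hR4⟩ := F.fanp (r ∪ S) hS.2
    refine ⟨R, ⟨⟨hR1, Finset.union_subset_left hR2⟩, fun v hv => ?_, fun v hv => ?_⟩, ?_⟩
    · obtain ⟨h1, h2, h3⟩ := F.mem_ng.1 hv
      by_contra h4
      exact lt_asymm h3 (hR3 v h1 fun h => (Finset.mem_union.1 h).elim h2 h4)
    · exact Finset.mem_sdiff.2 ⟨hR2 (Finset.mem_union_right _ hv), Finset.disjoint_left.1 hS.1 hv⟩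
    · rintro R' ⟨⟨h1, h2⟩, h3, h4⟩
      refine hR4 R' ⟨h1, Finset.union_subset h2 (h4.trans Finset.sdiff_subset), fun v hv hv' => ?_⟩
      rcases lt_or_gt_of_ne (F.Xne R' h1 v hv) with h | h
      · refine absurd (Finset.mem_union_right r (h3 (F.mem_ng.2 ⟨hv, fun h' => ?_, h⟩))) hv'
        exact hv' (Finset.mem_union_left S h')
      · exact h

/-- the same with `fann` -/
theorem card_faces' {r : Finset V} (hr : G.IsClique (r : Set V)) {i : ℕ} (hi : i ≤ n - r.card) :
    nf G r i = ∑ j ∈ Finset.range (n - r.card + 1), F.nn r j * j.choose (n - r.card - i) := by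
  classical
  have hsub : ∀ R, Fac G n R → r ⊆ R → F.ps r R ⊆ R \ r := by
    intro R hR hr v hv
    obtain ⟨h1, h2, -⟩ := F.mem_ps.1 hv
    exact Finset.mem_sdiff.2 ⟨h1, h2⟩
  rw [card_faces_aux (F.ps r) hsub ?_ hi, ← F.sum_ng r (fun j => j.choose (n - r.card - i))]
  · refine Finset.sum_congr rfl fun R hR => ?_
    obtain ⟨h1, h2⟩ := (Finset.mem_filter.1 hR).2
    have := F.card_ng_add_card_ps h1 h2
    rw [show n - r.card - (F.ps r R).card = (F.ng r R).card by omega]
  · intro S hS
    obtain ⟨R, ⟨hR1, hR2, hR3⟩, hR4⟩ := F.fann (r ∪ S) hS.2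
    refine ⟨R, ⟨⟨hR1, Finset.union_subset_left hR2⟩, fun v hv => ?_, fun v hv => ?_⟩, ?_⟩
    · obtain ⟨h1, h2, h3⟩ := F.mem_ps.1 hv
      by_contra h4
      exact lt_asymm h3 (hR3 v h1 fun h => (Finset.mem_union.1 h).elim h2 h4)
    · exact Finset.mem_sdiff.2 ⟨hR2 (Finset.mem_union_right _ hv), Finset.disjoint_left.1 hS.1 hv⟩
    · rintro R' ⟨⟨h1, h2⟩, h3, h4⟩
      refine hR4 R' ⟨h1, Finset.union_subset h2 (h4.trans Finset.sdiff_subset), fun v hv hv' => ?_⟩
      rcases lt_or_gt_of_ne (F.Xne R' h1 v hv) with h | h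
      · exact h
      · refine absurd (Finset.mem_union_right r (h3 (F.mem_ps.2 ⟨hv, fun h' => ?_, h⟩))) hv'
        exact hv' (Finset.mem_union_left S h')

theorem nn_symm (hG : Cx G n) {r : Finset V} (hr : G.IsClique (r : Set V)) {j k : ℕ} (h : r.card + j + k = n) :
    F.nn r j = F.nn r k := by
  obtain ⟨m, hm⟩ : ∃ m, m = n - r.card := ⟨_, rfl⟩
  have key : ∀ j ≤ m, F.nn r j = F.nn r (m - j) := by
    intro j
    induction j using Nat.strong_induction_on with
    | _ j ih =>
      intro hj
      have h1 := F.card_faces hr (i := j) (by omega)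
      rw [F.card_faces' hr (i := j) (by omega), ← hm] at h1
      rw [← Finset.sum_range_reflect] at h1
      have h2 : ∑ a ∈ Finset.range (m + 1), F.nn r (m + 1 - 1 - a) * (m + 1 - 1 - a).choose (m - j) =
          ∑ a ∈ Finset.range (m + 1), F.nn r (m - a) * (m - a).choose (m - j) := by
        refine Finset.sum_congr rfl fun a _ => ?_
        rw [Nat.add_sub_cancel]
      rw [h2, ← Finset.add_sum_erase _ _ (Finset.mem_range.2 (show j < m + 1 by omega)),
        ← Finset.add_sum_erase (Finset.range (m + 1)) (fun a => F.nn r a * (m - a).choose (m - j))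
          (Finset.mem_range.2 (show j < m + 1 by omega))] at h1
      have h3 : ∑ a ∈ (Finset.range (m + 1)).erase j, F.nn r (m - a) * (m - a).choose (m - j) =
          ∑ a ∈ (Finset.range (m + 1)).erase j, F.nn r a * (m - a).choose (m - j) := by
        refine Finset.sum_congr rfl fun a ha => ?_
        obtain ⟨ha1, ha2⟩ := Finset.mem_erase.1 ha
        have ha3 := Finset.mem_range.1 ha2
        rcases Nat.lt_or_ge a j with h4 | h4
        · rw [ih a h4 (by omega)]
        · rw [Nat.choose_eq_zero_of_lt (by omega), mul_zero, mul_zero]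
      rw [h3] at h1
      have h5 := Nat.add_right_cancel h1
      simp only [Nat.choose_self, mul_one] at h5
      exact h5.symm
  have h6 := key j (by omega)
  rw [h6]
  congr 1
  omega

theorem al_facet (g : Finset V → Tp p) {R : Finset V} (hR : Fac G n R) : F.al g R = F.w R • g R := by
  classical
  unfold al
  have h1 : Finset.univ.filter (fun R' => Fac G n R' ∧ R ⊆ R') = {R} := by
    ext R'
    simp only [Finset.mem_filter, Finset.mem_univ, true_and, Finset.mem_singleton]
    constructor
    · rintro ⟨h1, h2⟩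
      exact (Finset.eq_of_subset_of_card_le h2 (by rw [h1.2, hR.2])).symm
    · rintro rfl
      exact ⟨hR, Finset.Subset.refl _⟩
  rw [h1, Finset.sum_singleton, om, div_mul_cancel₀]
  exact Finset.prod_ne_zero_iff.2 fun v hv => F.Xne R hR v hv

theorem GG_top {r : Finset V} (hr : G.IsClique (r : Set V)) {d : ℕ} (hd : n < r.card + d) : F.GG r d = ⊥ := by
  refine eq_bot_iff.2 fun g hg => ?_
  rw [Submodule.mem_bot]
  funext R
  by_cases hR : Fac G n R ∧ r ⊆ R
  · have h1 : Fl G r (R \ r) := by
      refine ⟨Finset.sdiff_disjoint, ?_⟩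
      rw [Finset.union_sdiff_of_subset hR.2]
      exact hR.1.1
    have h2 := hg.2 (R \ r) h1 (by
      have := Finset.card_sdiff_of_subset hR.2
      rw [hR.1.2] at this
      have h3 := Finset.card_le_card hR.2
      rw [hR.1.2] at h3
      omega)
    rw [Finset.union_sdiff_of_subset hR.2, F.al_facet g hR.1] at h2
    exact (smul_eq_zero.1 h2).resolve_left (F.wpos R).ne'
  · exact hg.1 R hR

end Fan

end

end Hr
end Singer
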