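import Pool.Agent.Singer.Hr.Defs

/-!
# Singer/Hr: products of anticommuting operators

`opP a S` is the product of the operators `a v`, `v ∈ S`, in the order given by `rk`.
-/

set_option autoImplicit false
set_option linter.unusedSectionVars false
set_option linter.unusedVariables false

namespace Singer
namespace Hr

open Singer.Re Pool.Agent.Helper34.Car

noncomputable section

variable {V : Type} [Fintype V] [DecidableEq V]
variable {M : Type} [AddCommGroup M] [Module ℝ M]

/-- the product over a list -/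
def opQ (a : V → M →ₗ[ℝ] M) (S : Finset V) (l : List (Fin (Fintype.card V))) : M →ₗ[ℝ] M :=
  (l.map fun k =>
    if (Fintype.equivFin V).symm k ∈ S then a ((Fintype.equivFin V).symm k) else LinearMap.id).foldr
      (fun b c => b ∘ₗ c) LinearMap.id

lemma opP_eq (a : V → M →ₗ[ℝ] M) (S : Finset V) : opP a S = opQ a S (List.finRange (Fintype.card V)) := rfl

lemma opQ_nil (a : V → M →ₗ[ℝ] M) (S : Finset V) (x : M) : opQ a S [] x = x := rfl

lemma opQ_cons_mem (a : V → M →ₗ[ℝ] M) (S : Finset V) {k : Fin (Fintype.card V)} {l : List (Fin (Fintype.card V))}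
    (h : (Fintype.equivFin V).symm k ∈ S) (x : M) :
    opQ a S (k :: l) x = a ((Fintype.equivFin V).symm k) (opQ a S l x) := by
  unfold opQ
  rw [List.map_cons, List.foldr_cons, if_pos h]
  rfl

lemma opQ_cons_notMem (a : V → M →ₗ[ℝ] M) (S : Finset V) {k : Fin (Fintype.card V)}
    {l : List (Fin (Fintype.card V))} (h : (Fintype.equivFin V).symm k ∉ S) (x : M) :
    opQ a S (k :: l) x = opQ a S l x := by
  unfold opQ
  rw [List.map_cons, List.foldr_cons, if_neg h]
  rfl

lemma opQ_comm (a : V → M →ₗ[ℝ] M) (b : M →ₗ[ℝ] M) (S : Finset V) (hc : ∀ w ∈ S, ∀ x, b (a w x) = -a w (b x))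
    (l : List (Fin (Fintype.card V))) (x : M) :
    b (opQ a S l x) = (l.map fun k => if (Fintype.equivFin V).symm k ∈ S then (-1 : ℝ) else 1).prod •
      opQ a S l (b x) := by
  induction l with
  | nil => rw [opQ_nil, opQ_nil, List.map_nil, List.prod_nil, one_smul]
  | cons k l ih =>
    rw [List.map_cons, List.prod_cons]
    by_cases h : (Fintype.equivFin V).symm k ∈ S
    · rw [opQ_cons_mem a S h, opQ_cons_mem a S h, hc _ h, ih, map_smul, if_pos h, mul_smul, neg_one_smul]
    · rw [opQ_cons_notMem a S h, opQ_cons_notMem a S h, ih, if_neg h, one_mul]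

lemma opQ_insert_not (a : V → M →ₗ[ℝ] M) {S : Finset V} {v : V} {l : List (Fin (Fintype.card V))}
    (hl : Fintype.equivFin V v ∉ l) (x : M) : opQ a (insert v S) l x = opQ a S l x := by
  induction l with
  | nil => rfl
  | cons k l ih =>
    rw [List.mem_cons, not_or] at hl
    have hk : (Fintype.equivFin V).symm k ≠ v := fun h => hl.1 (by rw [← h, Equiv.apply_symm_apply])
    by_cases h : (Fintype.equivFin V).symm k ∈ S
    · rw [opQ_cons_mem a S h, opQ_cons_mem a (insert v S) (Finset.mem_insert_of_mem h), ih hl.2]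
    · rw [opQ_cons_notMem a S h, opQ_cons_notMem a (insert v S) (by
        rw [Finset.mem_insert, not_or]
        exact ⟨hk, h⟩), ih hl.2]

lemma opQ_insert (a : V → M →ₗ[ℝ] M) {S : Finset V} {v : V} (hv : v ∉ S)
    (hc : ∀ w ∈ S, ∀ x, a v (a w x) = -a w (a v x)) {l : List (Fin (Fintype.card V))} (hl : l.Pairwise (· < ·))
    (hm : Fintype.equivFin V v ∈ l) (x : M) :
    opQ a (insert v S) l x = (l.map fun k => if (Fintype.equivFin V).symm k ∈ S ∧ Fintype.equivFin V v < k
      then (-1 : ℝ) else 1).prod • opQ a S l (a v x) := by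
  induction l with
  | nil => exact absurd hm List.not_mem_nil
  | cons k l ih =>
    rw [List.pairwise_cons] at hl
    rw [List.map_cons, List.prod_cons]
    by_cases hk : k = Fintype.equivFin V v
    · subst hk
      have h1 : Fintype.equivFin V v ∉ l := fun h => lt_irrefl _ (hl.1 _ h)
      have h2 : (Fintype.equivFin V).symm (Fintype.equivFin V v) ∈ insert v S := by
        rw [Equiv.symm_apply_apply]
        exact Finset.mem_insert_self v S
      have h3 : (Fintype.equivFin V).symm (Fintype.equivFin V v) ∉ S := by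
        rwa [Equiv.symm_apply_apply]
      rw [opQ_cons_mem a (insert v S) h2, opQ_insert_not a h1, opQ_cons_notMem a S h3,
        if_neg (fun h => lt_irrefl _ h.2), one_mul, Equiv.symm_apply_apply, opQ_comm a (a v) S hc]
      congr 2
      refine List.map_congr_left fun k hk => ?_
      have h4 := hl.1 k hk
      by_cases h5 : (Fintype.equivFin V).symm k ∈ S
      · rw [if_pos h5, if_pos ⟨h5, h4⟩]
      · rw [if_neg h5, if_neg fun h => h5 h.1]
    · have hm' : Fintype.equivFin V v ∈ l := by
        rcases List.mem_cons.1 hm with h | h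
        · exact absurd h.symm hk
        · exact h
      have h4 : ¬ Fintype.equivFin V v < k := not_lt.2 (hl.1 _ hm').le
      rw [if_neg fun h => h4 h.2, one_mul]
      have hk' : (Fintype.equivFin V).symm k ≠ v := fun h => hk (by rw [← h, Equiv.apply_symm_apply])
      by_cases h : (Fintype.equivFin V).symm k ∈ S
      · rw [opQ_cons_mem a S h, opQ_cons_mem a (insert v S) (Finset.mem_insert_of_mem h), ih hl.2 hm', map_smul]
      · rw [opQ_cons_notMem a S h, opQ_cons_notMem a (insert v S) (by
          rw [Finset.mem_insert, not_or]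
          exact ⟨hk', h⟩), ih hl.2 hm']

lemma sorted_finRange (m : ℕ) : (List.finRange m).Pairwise (· < ·) := List.pairwise_lt_finRange m

lemma prod_sign (P : V → Prop) [DecidablePred P] :
    ((List.finRange (Fintype.card V)).map fun k => if P ((Fintype.equivFin V).symm k) then (-1 : ℝ) else 1).prod =
      (-1 : ℝ) ^ (Finset.univ.filter P).card := by
  rw [← Fin.prod_univ_def, ← Equiv.prod_comp (Fintype.equivFin V)]
  simp only [Equiv.symm_apply_apply]
  rw [Finset.prod_ite, Finset.prod_const, Finset.prod_const_one, mul_one]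

theorem opP_empty (a : V → M →ₗ[ℝ] M) (x : M) : opP a ∅ x = x := by
  rw [opP_eq]
  generalize List.finRange (Fintype.card V) = l
  induction l with
  | nil => rfl
  | cons k l ih => rw [opQ_cons_notMem a ∅ (Finset.notMem_empty _), ih]

theorem opP_insert (a : V → M →ₗ[ℝ] M) {S : Finset V} {v : V} (hv : v ∉ S)
    (hc : ∀ w ∈ S, ∀ x, a v (a w x) = -a w (a v x)) (x : M) :
    opP a (insert v S) x = (-1 : ℝ) ^ (S.filter fun w => rk v < rk w).card • opP a S (a v x) := by
  rw [opP_eq, opP_eq, opQ_insert a hv hc (sorted_finRange _) (List.mem_finRange _)]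
  congr 1
  have h1 : ((List.finRange (Fintype.card V)).map fun k => if (Fintype.equivFin V).symm k ∈ S ∧
      Fintype.equivFin V v < k then (-1 : ℝ) else 1) = (List.finRange (Fintype.card V)).map fun k =>
        if (fun w => w ∈ S ∧ rk v < rk w) ((Fintype.equivFin V).symm k) then (-1 : ℝ) else 1 := by
    refine List.map_congr_left fun k _ => ?_
    have h2 : ((Fintype.equivFin V).symm k ∈ S ∧ Fintype.equivFin V v < k) ↔
        (fun w => w ∈ S ∧ rk v < rk w) ((Fintype.equivFin V).symm k) := by
      simp only [rk, Equiv.apply_symm_apply, Fin.lt_def]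
    simp only [h2]
  rw [h1, prod_sign (fun w => w ∈ S ∧ rk v < rk w)]
  congr 2
  ext w
  simp

theorem opP_comm (a : V → M →ₗ[ℝ] M) (b : M →ₗ[ℝ] M) (S : Finset V) (hc : ∀ w ∈ S, ∀ x, b (a w x) = -a w (b x))
    (x : M) : b (opP a S x) = (-1 : ℝ) ^ S.card • opP a S (b x) := by
  rw [opP_eq, opQ_comm a b S hc, prod_sign (fun v => v ∈ S)]
  congr 3
  ext w
  simp

theorem opP_mem (a : V → M →ₗ[ℝ] M) {S : Finset V} (h2 : ∀ v ∈ S, ∀ x, a v (a v x) = 0)
    (hc : ∀ v ∈ S, ∀ w ∈ S, v ≠ w → ∀ x, a v (a w x) = -a w (a v x)) (x : M) : opP a S x ∈ kr a S := by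
  simp only [kr, Submodule.mem_iInf, LinearMap.mem_ker]
  intro v hv
  have h3 : S = insert v (S.erase v) := (Finset.insert_erase hv).symm
  have h4 : opP a S x = (-1 : ℝ) ^ ((S.erase v).filter fun w => rk v < rk w).card • opP a (S.erase v) (a v x) := by
    conv_lhs => rw [h3]
    exact opP_insert a (Finset.notMem_erase v S) (fun w hw x => hc v hv w (Finset.mem_of_mem_erase hw)
      (Finset.ne_of_mem_erase hw).symm x) x
  rw [h4, map_smul, opP_comm a (a v) (S.erase v) (fun w hw x => hc v hv w (Finset.mem_of_mem_erase hw)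
      (Finset.ne_of_mem_erase hw).symm x), h2 v hv, map_zero, smul_zero, smul_zero]

theorem opP_zero (a : V → M →ₗ[ℝ] M) {S : Finset V} (h2 : ∀ v ∈ S, ∀ x, a v (a v x) = 0)
    (hc : ∀ v ∈ S, ∀ w ∈ S, v ≠ w → ∀ x, a v (a w x) = -a w (a v x)) {v : V} (hv : v ∈ S) (x : M) :
    opP a S (a v x) = 0 := by
  have h3 : S = insert v (S.erase v) := (Finset.insert_erase hv).symm
  have h4 : opP a S (a v x) = (-1 : ℝ) ^ ((S.erase v).filter fun w => rk v < rk w).card •
      opP a (S.erase v) (a v (a v x)) := by
    conv_lhs => rw [h3]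
    exact opP_insert a (Finset.notMem_erase v S) (fun w hw x => hc v hv w (Finset.mem_of_mem_erase hw)
      (Finset.ne_of_mem_erase hw).symm x) (a v x)
  rw [h4, h2 v hv, map_zero, smul_zero]

end

end Hr
end Singer
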