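import Pool.Agent.Singer.Hr.Defs

/-!
# Singer/Hr: residues

The residue theorem for a positive configuration: the weighted sums of the monomials of small degree in the
coordinates of the generic point are zero.
-/

set_option autoImplicit false
set_option linter.unusedSectionVars false
set_option linter.unusedVariables false

namespace Singer
namespace Hr

open Singer.Re Pool.Agent.Helper34.Car

noncomputable section

variable {V : Type} [Fintype V] [DecidableEq V]

namespace Fan
variable {G : SimpleGraph V} {n p : ℕ} (F : Fan G n p)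

open Classical in
/-- the residue sums -/
def rs (r : Finset V) (α : V → ℕ) : ℝ :=
  ∑ R ∈ Finset.univ.filter (fun R => Fac G n R), F.om R * (∏ v ∈ r, F.X v R) * ∏ v, F.X v R ^ α v

lemma prod_pow_single (α : V → ℕ) (v : V) (R : Finset V) :
    ∏ u, F.X u R ^ (α + Pi.single v 1 : V → ℕ) u = F.X v R * ∏ u, F.X u R ^ α u := by
  have h1 : ∀ u, F.X u R ^ (α + Pi.single v 1 : V → ℕ) u = (if u = v then F.X v R else 1) * F.X u R ^ α u := by
    intro u
    by_cases h : u = v
    · subst h
      simp [pow_succ, mul_comm]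
    · simp [h]
  simp only [h1]
  rw [Finset.prod_mul_distrib, Finset.prod_ite_eq']
  simp

lemma rs_insert {r : Finset V} {v : V} (hv : v ∉ r) (α : V → ℕ) :
    F.rs (insert v r) α = F.rs r (α + Pi.single v 1) := by
  unfold rs
  refine Finset.sum_congr rfl fun R _ => ?_
  rw [prod_pow_single, Finset.prod_insert hv]
  ring

lemma rs_not_clique {r : Finset V} (hr : ¬ G.IsClique (r : Set V)) (α : V → ℕ) : F.rs r α = 0 := by
  classical
  unfold rs
  refine Finset.sum_eq_zero fun R hR => ?_
  have hR' := (Finset.mem_filter.1 hR).2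
  by_cases h : r ⊆ R
  · exact absurd (hR'.1.subset (Finset.coe_subset.2 h)) hr
  · rw [Finset.not_subset] at h
    obtain ⟨v, hv, hvR⟩ := h
    rw [Finset.prod_eq_zero hv (F.X0 v R hvR)]
    ring

/-- the coordinate functional of a vertex of `r` -/
lemma coord {r R : Finset V} (hrR : r ⊆ R) (hR : Fac G n R) {v : V} (hv : v ∈ r) {l : Fin n → ℝ}
    (hl : ∑ j, l j * F.c v j = 1) (hl0 : ∀ u ∈ r, u ≠ v → ∑ j, l j * F.c u j = 0) :
    F.X v R = (∑ j, l j * F.x j) - ∑ u ∈ rᶜ, (∑ j, l j * F.c u j) * F.X u R := by
  have h1 : ∑ j, l j * F.x j = ∑ u ∈ R, F.X u R * ∑ j, l j * F.c u j := by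
    simp only [← F.Xc R hR, Finset.mul_sum]
    rw [Finset.sum_comm]
    exact Finset.sum_congr rfl fun u _ => Finset.sum_congr rfl fun j _ => by ring
  have h2 : ∑ u ∈ R, F.X u R * ∑ j, l j * F.c u j = ∑ u, F.X u R * ∑ j, l j * F.c u j := by
    refine Finset.sum_subset (Finset.subset_univ _) fun u _ hu => ?_
    rw [F.X0 u R hu, zero_mul]
  rw [h1, h2, ← Finset.sum_add_sum_compl r]
  rw [Finset.sum_eq_single_of_mem v hv (fun u hu huv => by rw [hl0 u hu huv, mul_zero]), hl, mul_one]
  have h3 : ∑ u ∈ rᶜ, F.X u R * ∑ j, l j * F.c u j = ∑ u ∈ rᶜ, (∑ j, l j * F.c u j) * F.X u R :=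
    Finset.sum_congr rfl fun u _ => mul_comm _ _
  rw [h3]
  ring

lemma rs_coord_aux {r : Finset V} {v : V} {a : ℝ} {b : V → ℝ}
    (hX : ∀ R, Fac G n R → r ⊆ R → F.X v R = a - ∑ u ∈ rᶜ, b u * F.X u R) (α : V → ℕ) :
    F.rs r (α + Pi.single v 1) = a * F.rs r α - ∑ u ∈ rᶜ, b u * F.rs r (α + Pi.single u 1) := by
  classical
  unfold rs
  simp only [prod_pow_single, Finset.mul_sum]
  rw [Finset.sum_comm, ← Finset.sum_sub_distrib]
  refine Finset.sum_congr rfl fun R hR => ?_
  have hR' := (Finset.mem_filter.1 hR).2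
  by_cases h : r ⊆ R
  · rw [hX R hR' h]
    have e1 : ∑ u ∈ rᶜ, b u * (F.om R * (∏ v ∈ r, F.X v R) * (F.X u R * ∏ v, F.X v R ^ α v)) =
        (∑ u ∈ rᶜ, b u * F.X u R) * (F.om R * (∏ v ∈ r, F.X v R) * ∏ v, F.X v R ^ α v) := by
      rw [Finset.sum_mul]
      exact Finset.sum_congr rfl fun u _ => by ring
    rw [e1]
    ring
  · rw [Finset.not_subset] at h
    obtain ⟨w, hw, hwR⟩ := h
    have h0 : ∏ v ∈ r, F.X v R = 0 := Finset.prod_eq_zero hw (F.X0 w R hwR)
    rw [h0]
    simp

lemma rs_coord {r : Finset V} {v : V} (hv : v ∈ r) {l : Fin n → ℝ}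
    (hl : ∑ j, l j * F.c v j = 1) (hl0 : ∀ u ∈ r, u ≠ v → ∑ j, l j * F.c u j = 0) (α : V → ℕ) :
    F.rs r (α + Pi.single v 1) = (∑ j, l j * F.x j) * F.rs r α -
      ∑ u ∈ rᶜ, (∑ j, l j * F.c u j) * F.rs r (α + Pi.single u 1) :=
  F.rs_coord_aux (fun R hR h => F.coord h hR hv hl hl0) α

lemma exists_add_single {α : V → ℕ} {v : V} (h : α v ≠ 0) : ∃ β : V → ℕ, α = β + Pi.single v 1 := by
  refine ⟨α - Pi.single v 1, ?_⟩
  funext u
  by_cases hu : u = v
  · subst hu
    simp
    omega
  · simp [hu]

lemma sum_add_single (β : V → ℕ) (v : V) : ∑ u, (β + Pi.single v 1 : V → ℕ) u = (∑ u, β u) + 1 := by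
  simp [Finset.sum_add_distrib]

/-- the sum of the weights at a face of codimension one -/
lemma rs_ridge (hG : Cx G n) {r : Finset V} (hr : G.IsClique (r : Set V)) (h : r.card + 1 = n) : F.rs r 0 = 0 := by
  classical
  obtain ⟨R, hR, hRn, hrR⟩ := hG.ext r hr
  obtain ⟨v, hv⟩ : (R \ r).Nonempty := by
    rw [← Finset.card_pos, Finset.card_sdiff_of_subset hrR]
    omega
  obtain ⟨hvR, hvr⟩ := Finset.mem_sdiff.1 hv
  have hvc : G.IsClique ((insert v r : Finset V) : Set V) :=
    hR.subset (Finset.coe_subset.2 (Finset.insert_subset hvR hrR))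
  obtain ⟨w, hwr, hwv, hwc, huniq⟩ := hG.ridge r h v hvr (by simpa using hvc)
  have hFv : Fac G n (insert v r) := ⟨hvc, by rw [Finset.card_insert_of_notMem hvr, h]⟩
  have hFw : Fac G n (insert w r) := ⟨by simpa using hwc, by rw [Finset.card_insert_of_notMem hwr, h]⟩
  have hne : insert v r ≠ insert w r := by
    intro h1
    have h2 : v ∈ insert w r := h1 ▸ Finset.mem_insert_self v r
    rcases Finset.mem_insert.1 h2 with h3 | h3
    · exact hwv h3.symm
    · exact hvr h3
  have hval : ∀ u, u ∉ r → Fac G n (insert u r) → F.om (insert u r) * (∏ v ∈ r, F.X v (insert u r)) *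
      ∏ v, F.X v (insert u r) ^ (0 : V → ℕ) v = F.w (insert u r) / F.X u (insert u r) := by
    intro u hu hF
    have h1 : ∏ v ∈ r, F.X v (insert u r) ≠ 0 :=
      Finset.prod_ne_zero_iff.2 fun v hv => F.Xne _ hF v (Finset.mem_insert_of_mem hv)
    have h2 : F.X u (insert u r) ≠ 0 := F.Xne _ hF u (Finset.mem_insert_self _ _)
    unfold om
    rw [Finset.prod_insert hu]
    simp only [Pi.zero_apply, pow_zero, Finset.prod_const_one, mul_one]
    field_simp
  unfold rs
  rw [← Finset.sum_subset (s₁ := {insert v r, insert w r})]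
  · rw [Finset.sum_pair hne, hval v hvr hFv, hval w hwr hFw]
    exact F.ridge r h v w hvr hwr hwv.symm hFv hFw
  · intro S hS
    rcases Finset.mem_insert.1 hS with h1 | h1
    · rw [h1]
      exact Finset.mem_filter.2 ⟨Finset.mem_univ _, hFv⟩
    · rw [Finset.mem_singleton.1 h1]
      exact Finset.mem_filter.2 ⟨Finset.mem_univ _, hFw⟩
  · intro S hS hS'
    have hSF := (Finset.mem_filter.1 hS).2
    by_cases hrS : r ⊆ S
    · exfalso
      obtain ⟨u, hu⟩ : (S \ r).Nonempty := by
        rw [← Finset.card_pos, Finset.card_sdiff_of_subset hrS, hSF.2]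
        omega
      obtain ⟨huS, hur⟩ := Finset.mem_sdiff.1 hu
      have h3 : insert u r = S := by
        refine Finset.eq_of_subset_of_card_le (Finset.insert_subset huS hrS) ?_
        rw [Finset.card_insert_of_notMem hur, hSF.2, h]
      have h4 : G.IsClique (insert u r : Finset V) := by
        rw [h3]
        exact hSF.1
      rcases huniq u hur (by simpa using h4) with h5 | h5
      · exact hS' (by rw [← h3, h5]; exact Finset.mem_insert_self _ _)
      · exact hS' (by rw [← h3, h5]; exact Finset.mem_insert_of_mem (Finset.mem_singleton_self _))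
    · rw [Finset.not_subset] at hrS
      obtain ⟨u, hu, huS⟩ := hrS
      rw [Finset.prod_eq_zero hu (F.X0 u S huS)]
      ring

lemma rs_aux (hG : Cx G n) : ∀ k (r : Finset V), G.IsClique (r : Set V) → n ≤ r.card + k →
    ∀ α : V → ℕ, r.card + ∑ v, α v < n → F.rs r α = 0 := by
  intro k
  induction k with
  | zero =>
    intro r hr hk α hα
    omega
  | succ k ih =>
    intro r hr hk
    have ih' : ∀ v, v ∉ r → ∀ α : V → ℕ, r.card + 1 + ∑ v, α v < n → F.rs (insert v r) α = 0 := by
      intro v hv α hα
      by_cases hc : G.IsClique ((insert v r : Finset V) : Set V)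
      · refine ih _ hc ?_ α ?_
        · rw [Finset.card_insert_of_notMem hv]
          omega
        · rw [Finset.card_insert_of_notMem hv]
          exact hα
      · exact F.rs_not_clique hc α
    have key : ∀ m (α : V → ℕ), ∑ v, α v = m → r.card + m < n → F.rs r α = 0 := by
      intro m
      induction m with
      | zero =>
        intro α hα hm
        have h0 : α = 0 := by
          funext v
          exact Finset.sum_eq_zero_iff.1 hα v (Finset.mem_univ v)
        subst h0
        by_cases h1 : r.card + 1 = n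
        · exact F.rs_ridge hG hr h1
        · by_contra hne
          refine F.gen r hr (by omega) (fun u => F.rs r (Pi.single u 1) / F.rs r 0) fun j => ?_
          have h2 : F.x j * F.rs r 0 = ∑ u, F.c u j * F.rs r (0 + Pi.single u 1) := by
            classical
            unfold rs
            simp only [prod_pow_single, Finset.mul_sum]
            rw [Finset.sum_comm]
            refine Finset.sum_congr rfl fun R hR => ?_
            have hR' := (Finset.mem_filter.1 hR).2
            rw [← F.Xc R hR' j, Finset.sum_mul]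
            refine (Finset.sum_subset (Finset.subset_univ R) fun u _ hu => ?_).trans ?_
            · rw [F.X0 u R hu]
              ring
            · exact Finset.sum_congr rfl fun u _ => by ring
          rw [← Finset.sum_add_sum_compl r, Finset.sum_eq_zero (s := rᶜ) (fun u hu => ?_), add_zero] at h2
          · have h3 : ∑ u ∈ r, F.rs r (Pi.single u 1) / F.rs r 0 * F.c u j =
                (∑ u ∈ r, F.c u j * F.rs r (0 + Pi.single u 1)) / F.rs r 0 := by
              rw [Finset.sum_div]
              refine Finset.sum_congr rfl fun u _ => ?_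
              rw [zero_add]
              ring
            rw [h3, ← h2, mul_div_assoc, div_self hne, mul_one]
          · have hu' : u ∉ r := Finset.mem_compl.1 hu
            rw [← F.rs_insert hu', ih' u hu' 0 (by simpa using by omega), mul_zero]
      | succ m ihm =>
        intro α hα hm
        obtain ⟨v, hv⟩ : ∃ v, α v ≠ 0 := by
          by_contra hcon
          push Not at hcon
          have : ∑ v, α v = 0 := Finset.sum_eq_zero fun v _ => hcon v
          omega
        obtain ⟨β, rfl⟩ := exists_add_single hv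
        rw [sum_add_single] at hα
        by_cases hvr : v ∈ r
        · obtain ⟨l, hl, hl0⟩ := F.dual r hr v hvr
          rw [F.rs_coord hvr hl hl0, ihm β (by omega) (by omega), mul_zero, Finset.sum_eq_zero, sub_zero]
          intro u hu
          have hu' : u ∉ r := Finset.mem_compl.1 hu
          rw [← F.rs_insert hu', ih' u hu' β (by omega), mul_zero]
        · rw [← F.rs_insert hvr]
          exact ih' v hvr β (by omega)
    intro α hα
    exact key _ α rfl hα

/-! ### row RES (Hr/Res.lean): residue theorem -/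

open Classical in
theorem residue (hG : Cx G n) {r : Finset V} (hr : G.IsClique (r : Set V)) (α : V → ℕ) (h : r.card + ∑ v, α v < n) :
    ∑ R ∈ Finset.univ.filter (fun R => Fac G n R), F.om R * (∏ v ∈ r, F.X v R) * ∏ v, F.X v R ^ α v = 0 :=
  F.rs_aux hG n r hr (by omega) α h

end Fan

end

end Hr
end Singer
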