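import Pool.Agent.Singer.Hr.Defs
import Pool.Agent.Singer.Real.SphN

/-! # Singer/Hr: the facts on flag homology spheres -/

set_option autoImplicit false
set_option linter.unusedSectionVars false
set_option linter.unusedVariables false

namespace Singer
namespace Hr

open Singer.Re

theorem sp_of_goodQ {V : Type} [Fintype V] [DecidableEq V] {n : ℕ} {G : SimpleGraph V}
    (h : GoodQ (fun n {V} [Fintype V] (G : SimpleGraph V) => QS.{0} n G) n G) : Sp G n where
  cx := cx_of_goodQ h
  acy := by
    intro r hr M _ _ Q i hi z hz hb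
    have hrk : Function.Injective (rk : V → ℕ) := fun _ _ h => (Fintype.equivFin V).injective (Fin.ext h)
    have hle : ∀ S, lkP G (fun _ => Q) r S ≤ Q := by
      intro S
      unfold lkP
      split_ifs
      · exact le_rfl
      · exact bot_le
    have hfl : ∀ S, z S ≠ 0 → Fl G r S := by
      intro S hS
      by_contra h1
      have h2 := (hz S).1
      unfold lkP at h2
      rw [if_neg h1] at h2
      exact hS ((Submodule.mem_bot ℝ).1 h2)
    have hco : ∀ (w : Finset V → Q) (S : Finset V), ((Pool.Agent.Helper34.Ch.bd rk w S : Q) : M) =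
        bd (fun S => (w S : M)) S := by
      intro w S
      rw [Pool.Agent.Helper34.Ch.bd_apply, bd, AddSubmonoidClass.coe_finsetSum]
      exact Finset.sum_congr rfl fun v _ => by rw [AddSubgroupClass.coe_zsmul]
    obtain ⟨y, hy, hyz⟩ := sphN_of_goodQ h hrk Q r i (by omega) (fun S => (⟨z S, hle S (hz S).1⟩ : Q)) (fun S hS => by
        have h1 : z S ≠ 0 := fun h2 => hS (Subtype.ext h2)
        obtain ⟨h3, h4⟩ := hfl S h1
        exact ⟨h4, h3.symm, (hz S).2 h1⟩) (by
        funext S
        apply Subtype.ext
        rw [hco]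
        exact hb S)
    refine ⟨fun S => (y S : M), fun S => ⟨?_, fun h1 => ?_⟩, fun S => ?_⟩
    · change (y S : M) ∈ lkP G (fun _ => Q) r S
      by_cases h1 : y S = 0
      · rw [h1]
        exact (lkP G (fun _ => Q) r S).zero_mem
      · obtain ⟨h2, h3, h4⟩ := hy S h1
        unfold lkP
        rw [if_pos ⟨h3.symm, h2⟩]
        exact (y S).2
    · refine (hy S fun h2 => h1 ?_).2.2
      change (y S : M) = 0
      rw [h2]
      rfl
    · rw [← hco, hyz]

end Hr
end Singer
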